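import Mathlib

/-!
# Conditional averages over the fibres of a map and energy increments
-/

namespace Pool.Agent.MP_9c932e_co

open Finset

section Avg

variable {X Q Q' : Type*} [Fintype X] [Fintype Q] [DecidableEq Q] [Fintype Q'] [DecidableEq Q']

/-- The fibre of `κ` over `q`. -/
def fib (κ : X → Q) (q : Q) : Finset X := {x | κ x = q}

omit [Fintype Q] in
@[simp] lemma mem_fib (κ : X → Q) (q : Q) (x : X) : x ∈ fib κ q ↔ κ x = q := by simp [fib]

/-- average of `f` over the fibre of `κ` over `q`. -/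
noncomputable def avg (κ : X → Q) (f : X → ℝ) (q : Q) : ℝ :=
  (∑ y ∈ fib κ q, f y) / (#(fib κ q) : ℝ)

omit [Fintype Q] in
lemma card_mul_avg (κ : X → Q) (f : X → ℝ) (q : Q) :
    (#(fib κ q) : ℝ) * avg κ f q = ∑ y ∈ fib κ q, f y := by
  unfold avg
  by_cases h : fib κ q = ∅
  · simp [h]
  · have : (#(fib κ q) : ℝ) ≠ 0 := by
      simpa [Finset.card_eq_zero] using h
    field_simp

omit [Fintype Q] in
lemma sum_fib_sub_avg (κ : X → Q) (f : X → ℝ) (q : Q) :
    ∑ y ∈ fib κ q, (f y - avg κ f (κ y)) = 0 := by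
  have : ∑ y ∈ fib κ q, (f y - avg κ f (κ y)) = ∑ y ∈ fib κ q, (f y - avg κ f q) := by
    apply sum_congr rfl
    intro y hy
    rw [(mem_fib κ q y).1 hy]
  rw [this, sum_sub_distrib, sum_const, nsmul_eq_mul, card_mul_avg, sub_self]

/-- orthogonality: `f - avg f` is orthogonal to every function constant on the fibres. -/
lemma avg_orth (κ : X → Q) (f : X → ℝ) (g : Q → ℝ) :
    ∑ x, (f x - avg κ f (κ x)) * g (κ x) = 0 := by
  rw [← sum_fiberwise (s := univ) (g := κ)]
  apply sum_eq_zero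
  intro q _
  have : ∑ x ∈ univ.filter (fun x => κ x = q), (f x - avg κ f (κ x)) * g (κ x)
      = ∑ x ∈ fib κ q, (f x - avg κ f (κ x)) * g q := by
    apply sum_congr rfl
    intro x hx
    rw [(mem_fib κ q x).1 hx]
  rw [this, ← sum_mul, sum_fib_sub_avg, zero_mul]

omit [Fintype Q] in
lemma avg_nonneg (κ : X → Q) (f : X → ℝ) (hf : ∀ x, 0 ≤ f x) (q : Q) : 0 ≤ avg κ f q :=
  div_nonneg (sum_nonneg fun x _ => hf x) (Nat.cast_nonneg _)

omit [Fintype Q] in
lemma avg_le_one (κ : X → Q) (f : X → ℝ) (hf : ∀ x, f x ≤ 1) (q : Q) : avg κ f q ≤ 1 := by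
  unfold avg
  apply div_le_one_of_le₀ _ (Nat.cast_nonneg _)
  calc ∑ y ∈ fib κ q, f y ≤ ∑ y ∈ fib κ q, (1 : ℝ) := sum_le_sum fun x _ => hf x
    _ = _ := by simp

/-- Pythagoras. -/
lemma energy_pyth (κ : X → Q) (κ' : X → Q') (ρ : Q' → Q) (hρ : ∀ x, κ x = ρ (κ' x)) (f : X → ℝ) :
    ∑ x, (avg κ' f (κ' x)) ^ 2 = ∑ x, (avg κ f (κ x)) ^ 2 +
      ∑ x, (avg κ' f (κ' x) - avg κ f (κ x)) ^ 2 := by
  have h1 := avg_orth κ' f (fun q => avg κ f (ρ q))
  have h2 := avg_orth κ f (fun q => avg κ f q)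
  have h3 : ∑ x, (avg κ' f (κ' x) - avg κ f (κ x)) * avg κ f (κ x) = 0 := by
    have : ∑ x, (avg κ' f (κ' x) - avg κ f (κ x)) * avg κ f (κ x)
      = ∑ x, (f x - avg κ f (κ x)) * avg κ f (κ x)
        - ∑ x, (f x - avg κ' f (κ' x)) * avg κ f (ρ (κ' x)) := by
      rw [← sum_sub_distrib]
      apply sum_congr rfl
      intro x _
      rw [← hρ x]
      ring
    rw [this, h1, h2, sub_zero]
  have h4 : ∑ x, (avg κ' f (κ' x)) ^ 2 = ∑ x, (avg κ f (κ x)) ^ 2 +
      ∑ x, (avg κ' f (κ' x) - avg κ f (κ x)) ^ 2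
      + 2 * ∑ x, (avg κ' f (κ' x) - avg κ f (κ x)) * avg κ f (κ x) := by
    rw [mul_sum, ← sum_add_distrib, ← sum_add_distrib]
    apply sum_congr rfl
    intro x _
    ring
  rw [h4, h3]
  ring

/-- Energy increment: if for the cells `q ∈ I` there are sets `A q`, measurable for the finer
partition `κ'`, on which `f` deviates from its average, then the energy increases. -/
lemma energy_incr (κ : X → Q) (κ' : X → Q') (ρ : Q' → Q) (hρ : ∀ x, κ x = ρ (κ' x)) (f : X → ℝ)
    (η : ℝ) (hη : 0 ≤ η) (I : Finset Q) (A : Q → Q' → Prop) [∀ q, DecidablePred (A q)]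
    (hI : ∀ q ∈ I, η * #(fib κ q) ≤
      |∑ x ∈ fib κ q with A q (κ' x), (f x - avg κ f (κ x))|) :
    ∑ x, (avg κ f (κ x)) ^ 2 + η ^ 2 * #{x | κ x ∈ I} ≤ ∑ x, (avg κ' f (κ' x)) ^ 2 := by
  rw [energy_pyth κ κ' ρ hρ f]
  gcongr
  have h1 : ∀ q ∈ I, η ^ 2 * #(fib κ q) ≤
      ∑ x ∈ fib κ q, (avg κ' f (κ' x) - avg κ f (κ x)) ^ 2 := by
    intro q hq
    -- replace f by avg' f
    have e1 : ∑ x ∈ fib κ q with A q (κ' x), (f x - avg κ f (κ x))
        = ∑ x ∈ fib κ q with A q (κ' x), (avg κ' f (κ' x) - avg κ f (κ x)) := by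
      have h := avg_orth κ' f (fun q' => if ρ q' = q ∧ A q q' then 1 else 0)
      have h' : ∑ x ∈ fib κ q with A q (κ' x), (f x - avg κ' f (κ' x)) = 0 := by
        rw [← h, sum_filter, fib, sum_filter]
        apply sum_congr rfl
        intro x _
        rw [hρ x]
        by_cases h1 : ρ (κ' x) = q <;> by_cases h2 : A q (κ' x) <;> simp [h1, h2]
      have : ∑ x ∈ fib κ q with A q (κ' x), (f x - avg κ f (κ x))
          - ∑ x ∈ fib κ q with A q (κ' x), (avg κ' f (κ' x) - avg κ f (κ x)) = 0 := by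
        rw [← h', ← sum_sub_distrib]
        apply sum_congr rfl
        intro x _
        ring
      linarith
    have h2 := hI q hq
    rw [e1] at h2
    by_cases hc : fib κ q = ∅
    · simp [hc]
    have hpos : (0 : ℝ) < #(fib κ q) := by
      have : 0 < #(fib κ q) := Finset.card_pos.2 (Finset.nonempty_iff_ne_empty.2 hc)
      exact_mod_cast this
    have h3 : (∑ x ∈ fib κ q with A q (κ' x), (avg κ' f (κ' x) - avg κ f (κ x))) ^ 2 ≤
        #(fib κ q) * ∑ x ∈ fib κ q, (avg κ' f (κ' x) - avg κ f (κ x)) ^ 2 := by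
      calc (∑ x ∈ fib κ q with A q (κ' x), (avg κ' f (κ' x) - avg κ f (κ x))) ^ 2
          ≤ #{x ∈ fib κ q | A q (κ' x)} *
            ∑ x ∈ fib κ q with A q (κ' x), (avg κ' f (κ' x) - avg κ f (κ x)) ^ 2 :=
            sq_sum_le_card_mul_sum_sq
        _ ≤ _ := by
            apply mul_le_mul
            · exact_mod_cast card_le_card (filter_subset _ _)
            · exact sum_le_sum_of_subset_of_nonneg (filter_subset _ _)
                (fun x _ _ => sq_nonneg _)
            · exact sum_nonneg (fun x _ => sq_nonneg _)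
            · exact Nat.cast_nonneg _
    have h4 : (η * #(fib κ q)) ^ 2 ≤
        (∑ x ∈ fib κ q with A q (κ' x), (avg κ' f (κ' x) - avg κ f (κ x))) ^ 2 := by
      rw [← sq_abs (∑ x ∈ fib κ q with A q (κ' x), (avg κ' f (κ' x) - avg κ f (κ x)))]
      gcongr
    have h5 : #(fib κ q) * (η ^ 2 * #(fib κ q)) ≤
        #(fib κ q) * ∑ x ∈ fib κ q, (avg κ' f (κ' x) - avg κ f (κ x)) ^ 2 := by
      calc (#(fib κ q) : ℝ) * (η ^ 2 * #(fib κ q)) = (η * #(fib κ q)) ^ 2 := by ring
        _ ≤ _ := h4.trans h3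
    exact le_of_mul_le_mul_left h5 hpos
  calc η ^ 2 * (#{x | κ x ∈ I} : ℝ) = ∑ q ∈ I, η ^ 2 * #(fib κ q) := by
        rw [← mul_sum]
        congr 1
        have : #{x | κ x ∈ I} = ∑ q ∈ I, #(fib κ q) := by
          rw [Finset.card_eq_sum_card_fiberwise (f := κ) (t := I)]
          · apply sum_congr rfl
            intro q hq
            congr 1
            ext x
            simp only [mem_filter, mem_univ, true_and, mem_fib]
            constructor
            · rintro ⟨_, h⟩; exact h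
            · intro h; exact ⟨h ▸ hq, h⟩
          · intro x hx
            simpa using hx
        rw [this]
        push_cast
        rfl
    _ ≤ ∑ q ∈ I, ∑ x ∈ fib κ q, (avg κ' f (κ' x) - avg κ f (κ x)) ^ 2 := sum_le_sum h1
    _ ≤ ∑ q, ∑ x ∈ fib κ q, (avg κ' f (κ' x) - avg κ f (κ x)) ^ 2 :=
        sum_le_sum_of_subset_of_nonneg (subset_univ _)
          (fun _ _ _ => sum_nonneg (fun _ _ => sq_nonneg (_ : ℝ)))
    _ = _ := by
        rw [← sum_fiberwise (s := univ) (g := κ)]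
        rfl

end Avg

end Pool.Agent.MP_9c932e_co
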