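import Mathlib
import Pool.Agent.Lib.MP_9c932e_co.Avg

/-!
# A regular partition for a system of functions on `V ^ U i`
-/

namespace Pool.Agent.MP_9c932e_co

open Finset

section Reg

/-- restriction of a map to a finset of coordinates. -/
def res {W V : Type*} (U : Finset W) (φ : W → V) : U → V := fun x => φ x

/-- The cell containing `ψ`. -/
def cm {W V P : Type*} (π : V → P) (U : Finset W) (ψ : U → V) : U → P := fun x => π (ψ x)

/-- The cell `q` is `η`-regular for the function `f`. -/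
def IsReg {W V P : Type*} [Fintype V] [DecidableEq V] [DecidableEq P] [DecidableEq W]
    (π : V → P) (U : Finset W)
    (f : (U → V) → ℝ) (η : ℝ) (q : U → P) : Prop :=
  ∀ A : U → Finset V, |∑ ψ ∈ fib (cm π U) q with ∀ x, ψ x ∈ A x,
    (f ψ - avg (cm π U) f (cm π U ψ))| ≤ η * #(fib (cm π U) q)

variable {W ι : Type} [DecidableEq W] [Fintype ι]

/-- The growth function of the refinement step. -/
def grow (U : ι → Finset W) (M : ℕ) : ℕ := M * 2 ^ (∑ i, M ^ #(U i) * #(U i))

/-- The energy of a partition. -/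
noncomputable def energy (U : ι → Finset W) {V P : Type} [Fintype V] [DecidableEq P]
    (f : ∀ i, (U i → V) → ℝ) (π : V → P) : ℝ :=
  ∑ i, (∑ ψ : U i → V, (avg (cm π (U i)) (f i) (cm π (U i) ψ)) ^ 2) / (Fintype.card V : ℝ) ^ #(U i)

lemma energy_le (U : ι → Finset W) {V P : Type} [Fintype V] [Nonempty V] [DecidableEq P]
    (f : ∀ i, (U i → V) → ℝ) (hf0 : ∀ i ψ, 0 ≤ f i ψ) (hf1 : ∀ i ψ, f i ψ ≤ 1) (π : V → P) :
    energy U f π ≤ Fintype.card ι := by
  classical
  unfold energy
  calc ∑ i, (∑ ψ : U i → V, (avg (cm π (U i)) (f i) (cm π (U i) ψ)) ^ 2) /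
        (Fintype.card V : ℝ) ^ #(U i) ≤ ∑ _i : ι, (1 : ℝ) := by
        apply sum_le_sum
        intro i _
        apply div_le_one_of_le₀ _ (by positivity)
        calc ∑ ψ : U i → V, (avg (cm π (U i)) (f i) (cm π (U i) ψ)) ^ 2
            ≤ ∑ _ψ : U i → V, (1 : ℝ) := by
              apply sum_le_sum
              intro ψ _
              have h0 := avg_nonneg (cm π (U i)) (f i) (hf0 i) (cm π (U i) ψ)
              have h1 := avg_le_one (cm π (U i)) (f i) (hf1 i) (cm π (U i) ψ)
              nlinarith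
          _ = _ := by simp
    _ = _ := by simp

lemma refine_step (U : ι → Finset W) {η γ : ℝ} (hη : 0 < η)
    {V P : Type} [Fintype V] [Nonempty V] [DecidableEq V] [Fintype P] [DecidableEq P]
    (f : ∀ i, (U i → V) → ℝ) (π : V → P) (i₀ : ι)
    (h : γ * (Fintype.card V : ℝ) ^ #(U i₀) <
      (Nat.card {ψ : U i₀ → V // ¬ IsReg π (U i₀) (f i₀) η (cm π (U i₀) ψ)} : ℝ)) :
    ∃ (P' : Type) (_ : Fintype P') (_ : DecidableEq P') (π' : V → P'),
      Fintype.card P' = grow U (Fintype.card P) ∧ energy U f π + η ^ 2 * γ ≤ energy U f π' := by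
  classical
  -- witnesses
  have hw : ∀ (i : ι) (q : U i → P), ∃ A : U i → Finset V, ¬ IsReg π (U i) (f i) η q →
      η * #(fib (cm π (U i)) q) < |∑ ψ ∈ fib (cm π (U i)) q with ∀ x, ψ x ∈ A x,
        (f i ψ - avg (cm π (U i)) (f i) (cm π (U i) ψ))| := by
    intro i q
    by_cases hq : IsReg π (U i) (f i) η q
    · exact ⟨fun _ => ∅, fun h => absurd hq h⟩
    · unfold IsReg at hq
      push Not at hq
      obtain ⟨A, hA⟩ := hq
      exact ⟨A, fun _ => hA⟩
  choose A hA using hw
  let P' := P × (((i : ι) × (U i → P) × (U i)) → Bool)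
  let π' : V → P' := fun v => (π v, fun t => decide (v ∈ A t.1 t.2.1 t.2.2))
  refine ⟨P', inferInstance, inferInstance, π', ?_, ?_⟩
  · simp only [P', grow, Fintype.card_prod, Fintype.card_fun, Fintype.card_bool, Fintype.card_sigma,
      Fintype.card_coe]
  · have hinc : ∀ i, ∑ ψ : U i → V, (avg (cm π (U i)) (f i) (cm π (U i) ψ)) ^ 2 +
        η ^ 2 * #{ψ : U i → V | cm π (U i) ψ ∈
          univ.filter (fun q => ¬ IsReg π (U i) (f i) η q)} ≤
        ∑ ψ : U i → V, (avg (cm π' (U i)) (f i) (cm π' (U i) ψ)) ^ 2 := by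
      intro i
      apply energy_incr (κ := cm π (U i)) (κ' := cm π' (U i)) (ρ := fun q' x => (q' x).1)
        (hρ := fun ψ => rfl) (f := f i) (η := η) (hη := hη.le)
        (A := fun q q' => ∀ x, (q' x).2 ⟨i, q, x⟩ = true)
      intro q hq
      rw [mem_filter] at hq
      have := (hA i q hq.2).le
      refine this.trans (le_of_eq ?_)
      congr 1
      apply sum_congr _ (fun _ _ => rfl)
      ext ψ
      simp only [mem_filter, cm, π', decide_eq_true_eq]
    unfold energy
    have hmono : ∀ i, (∑ ψ : U i → V, (avg (cm π (U i)) (f i) (cm π (U i) ψ)) ^ 2) /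
        (Fintype.card V : ℝ) ^ #(U i) ≤
        (∑ ψ : U i → V, (avg (cm π' (U i)) (f i) (cm π' (U i) ψ)) ^ 2) /
        (Fintype.card V : ℝ) ^ #(U i) := by
      intro i
      apply div_le_div_of_nonneg_right _ (by positivity)
      refine le_trans ?_ (hinc i)
      have : 0 ≤ η ^ 2 * (#{ψ : U i → V | cm π (U i) ψ ∈
          univ.filter (fun q => ¬ IsReg π (U i) (f i) η q)} : ℝ) := by positivity
      linarith
    have hi0 : (∑ ψ : U i₀ → V, (avg (cm π (U i₀)) (f i₀) (cm π (U i₀) ψ)) ^ 2) /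
        (Fintype.card V : ℝ) ^ #(U i₀) + η ^ 2 * γ ≤
        (∑ ψ : U i₀ → V, (avg (cm π' (U i₀)) (f i₀) (cm π' (U i₀) ψ)) ^ 2) /
        (Fintype.card V : ℝ) ^ #(U i₀) := by
      have hn : (0 : ℝ) < (Fintype.card V : ℝ) ^ #(U i₀) := by
        have : 0 < Fintype.card V := Fintype.card_pos
        positivity
      rw [le_div_iff₀ hn, add_mul, div_mul_cancel₀ _ hn.ne']
      refine le_trans ?_ (hinc i₀)
      have hcard : (Nat.card {ψ : U i₀ → V // ¬ IsReg π (U i₀) (f i₀) η (cm π (U i₀) ψ)} : ℝ)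
          = #{ψ : U i₀ → V | cm π (U i₀) ψ ∈
          univ.filter (fun q => ¬ IsReg π (U i₀) (f i₀) η q)} := by
        rw [Nat.card_eq_fintype_card, Fintype.card_subtype]
        simp
      rw [hcard] at h
      have : η ^ 2 * (γ * (Fintype.card V : ℝ) ^ #(U i₀)) ≤ η ^ 2 * (#{ψ : U i₀ → V | cm π (U i₀) ψ ∈
          univ.filter (fun q => ¬ IsReg π (U i₀) (f i₀) η q)} : ℝ) := by
        gcongr
      nlinarith
    rw [← Finset.add_sum_erase univ _ (mem_univ i₀), ← Finset.add_sum_erase univ _ (mem_univ i₀)]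
    have := sum_le_sum (s := univ.erase i₀) (fun i _ => hmono i)
    linarith

/-- Existence of a regular partition. -/
theorem exists_regular (U : ι → Finset W) {η γ : ℝ} (hη : 0 < η) (hγ : 0 < γ) :
    ∃ M : ℕ, ∀ (V : Type) [Fintype V] [Nonempty V] [DecidableEq V] (f : ∀ i, (U i → V) → ℝ),
      (∀ i ψ, 0 ≤ f i ψ) → (∀ i ψ, f i ψ ≤ 1) →
      ∃ (P : Type) (_ : Fintype P) (_ : DecidableEq P) (π : V → P), Fintype.card P ≤ M ∧
        ∀ i, (Nat.card {ψ : U i → V // ¬ IsReg π (U i) (f i) η (cm π (U i) ψ)} : ℝ) ≤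
          γ * (Fintype.card V : ℝ) ^ #(U i) := by
  classical
  obtain ⟨T, hT⟩ := exists_nat_gt ((Fintype.card ι : ℝ) / (η ^ 2 * γ))
  refine ⟨∑ s ∈ range (T + 1), (grow U)^[s] 1, ?_⟩
  intro V _ _ _ f hf0 hf1
  by_contra hcon
  push Not at hcon
  have key : ∀ t, t ≤ T → ∃ (P : Type) (_ : Fintype P) (_ : DecidableEq P) (π : V → P),
      Fintype.card P = (grow U)^[t] 1 ∧ t * (η ^ 2 * γ) ≤ energy U f π := by
    intro t
    induction t with
    | zero =>
      intro _
      refine ⟨Unit, inferInstance, inferInstance, fun _ => (), by simp, ?_⟩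
      simp only [Nat.cast_zero, zero_mul]
      unfold energy
      positivity
    | succ t ih =>
      intro ht
      obtain ⟨P, hP1, hP2, π, hcard, hen⟩ := ih (by omega)
      have hle : Fintype.card P ≤ ∑ s ∈ range (T + 1), (grow U)^[s] 1 := by
        rw [hcard]
        exact single_le_sum (f := fun s => (grow U)^[s] 1) (fun _ _ => Nat.zero_le _)
          (mem_range.2 (by omega))
      obtain ⟨i, hi⟩ := hcon P hP1 hP2 π hle
      obtain ⟨P', h1, h2, π', h3, h4⟩ := refine_step U hη f π i hi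
      refine ⟨P', h1, h2, π', ?_, ?_⟩
      · rw [h3, hcard, Function.iterate_succ_apply']
      · push_cast
        linarith
  obtain ⟨P, hP1, hP2, π, -, hen⟩ := key T le_rfl
  have h1 := energy_le U f hf0 hf1 π
  have hpos : 0 < η ^ 2 * γ := by positivity
  rw [div_lt_iff₀ hpos] at hT
  linarith

end Reg

end Pool.Agent.MP_9c932e_co
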