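import Mathlib
import Pool.Agent.Lib.MP_9c932e_co.Regular

/-!
# Patterns: a graph together with its clusters
-/

namespace Pool.Agent.MP_9c932e_co

open Finset

/-- A graph with edge set `E` on the vertex set `W` together with its clusters `U i`, its
2-density `m ≥ 1` and a slack `ξ`. -/
structure Pattern (W : Type) [Fintype W] [DecidableEq W] (k : ℕ) where
  /-- the edges -/
  E : Finset (Sym2 W)
  /-- the clusters -/
  U : Fin k → Finset W
  /-- the 2-density -/
  m : ℝ
  /-- the slack -/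
  ξ : ℝ
  hk : 0 < k
  hm : 1 ≤ m
  hξ : 0 < ξ
  hloop : ∀ e ∈ E, ¬ e.IsDiag
  hcov : ∀ e ∈ E, ∃ i, e ∈ (U i).sym2
  hU2 : ∀ i, 2 ≤ #(U i)
  hlin : ∀ i j, i ≠ j → #(U i ∩ U j) ≤ 1
  htight : ∀ i, (#(E ∩ (U i).sym2) : ℝ) - 1 = m * (#(U i) - 2)
  hdens : ∀ T : Finset W, 2 ≤ #T → (#(E ∩ T.sym2) : ℝ) - 1 ≤ m * (#T - 2)
  hslack : ∀ i (T : Finset W), U i ⊂ T → (#(E ∩ T.sym2) : ℝ) - 1 ≤ m * (#T - 2) - ξ

namespace Pattern

variable {W : Type} [Fintype W] [DecidableEq W] {k : ℕ} (H : Pattern W k)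

/-- edges of cluster `i` -/
def F (i : Fin k) : Finset (Sym2 W) := H.E ∩ (H.U i).sym2

/-- edges of the clusters before `j` -/
def Flt (j : ℕ) : Finset (Sym2 W) := {e ∈ H.E | ∃ i : Fin k, (i : ℕ) < j ∧ e ∈ (H.U i).sym2}

lemma Flt_subset (j : ℕ) : H.Flt j ⊆ H.E := filter_subset _ _

lemma F_subset (i : Fin k) : H.F i ⊆ H.E := inter_subset_left

lemma Flt_zero : H.Flt 0 = ∅ := by
  simp [Flt]

lemma Flt_k : H.Flt k = H.E := by
  unfold Flt
  rw [filter_eq_self]
  intro e he
  obtain ⟨i, hi⟩ := H.hcov e he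
  exact ⟨i, i.2, hi⟩

lemma Flt_succ (j : Fin k) : H.Flt (j + 1) = H.Flt j ∪ H.F j := by
  ext e
  simp only [Flt, F, mem_filter, mem_union, mem_inter]
  constructor
  · rintro ⟨he, i, hi, hei⟩
    by_cases hij : (i : ℕ) < j
    · exact Or.inl ⟨he, i, hij, hei⟩
    · right
      have : i = j := Fin.ext (by omega)
      exact ⟨he, this ▸ hei⟩
  · rintro (⟨he, i, hi, hei⟩ | ⟨he, hei⟩)
    · exact ⟨he, i, by omega, hei⟩
    · exact ⟨he, j, by omega, hei⟩

lemma not_both {i j : Fin k} (hij : i ≠ j) {e : Sym2 W} (he : e ∈ H.E) (h1 : e ∈ (H.U i).sym2)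
    (h2 : e ∈ (H.U j).sym2) : False := by
  have hd := H.hloop e he
  induction e using Sym2.ind with
  | _ a b =>
    rw [Sym2.mk_isDiag_iff] at hd
    rw [mk_mem_sym2_iff] at h1 h2
    have hc := H.hlin i j hij
    have : #{a, b} ≤ 1 := by
      refine le_trans (card_le_card ?_) hc
      intro z hz
      rw [mem_insert, mem_singleton] at hz
      rcases hz with rfl | rfl
      · exact mem_inter.2 ⟨h1.1, h2.1⟩
      · exact mem_inter.2 ⟨h1.2, h2.2⟩
    rw [card_pair hd] at this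
    omega

lemma disj_Flt_F (j : Fin k) : Disjoint (H.Flt j) (H.F j) := by
  rw [Finset.disjoint_left]
  intro e h1 h2
  simp only [Flt, F, mem_filter, mem_inter] at h1 h2
  obtain ⟨he, i, hi, hei⟩ := h1
  exact H.not_both (i := i) (j := j) (fun h => by rw [h] at hi; omega) he hei h2.2

lemma card_Flt_succ (j : Fin k) : #(H.Flt (j + 1)) = #(H.Flt j) + #(H.F j) := by
  rw [Flt_succ, card_union_of_disjoint (H.disj_Flt_F j)]

lemma F_pos (i : Fin k) : 0 < #(H.F i) := by
  have h1 := H.htight i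
  have h2 := H.hU2 i
  have h3 := H.hm
  by_contra hcon
  have h4 : #(H.F i) = 0 := by omega
  unfold F at h4
  rw [h4] at h1
  have h5 : (2 : ℝ) ≤ #(H.U i) := by exact_mod_cast h2
  have : 0 ≤ H.m * ((#(H.U i) : ℝ) - 2) := by
    apply mul_nonneg <;> linarith
  norm_num at h1
  linarith

/-- Lemma A. -/
lemma Flt_inside (j : Fin k) (T : Finset W) (hT : H.U j ⊆ T) :
    (#(H.Flt j ∩ T.sym2) : ℝ) ≤ H.m * (#T - #(H.U j)) := by
  have h1 : #(H.Flt j ∩ T.sym2) + #(H.F j) ≤ #(H.E ∩ T.sym2) := by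
    rw [← card_union_of_disjoint]
    · apply card_le_card
      apply union_subset
      · exact inter_subset_inter_right (H.Flt_subset j)
      · intro e he
        simp only [F, mem_inter] at he ⊢
        exact ⟨he.1, sym2_mono hT he.2⟩
    · exact disjoint_of_subset_left inter_subset_left (H.disj_Flt_F j)
  have h2 := H.hdens T ((H.hU2 j).trans (card_le_card hT))
  have h3 := H.htight j
  have h4 : (#(H.Flt j ∩ T.sym2) : ℝ) + #(H.F j) ≤ #(H.E ∩ T.sym2) := by exact_mod_cast h1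
  unfold F at h4
  linarith

lemma Flt_inside_slack (j : Fin k) (T : Finset W) (hT : H.U j ⊂ T) :
    (#(H.Flt j ∩ T.sym2) : ℝ) ≤ H.m * (#T - #(H.U j)) - H.ξ := by
  have h1 : #(H.Flt j ∩ T.sym2) + #(H.F j) ≤ #(H.E ∩ T.sym2) := by
    rw [← card_union_of_disjoint]
    · apply card_le_card
      apply union_subset
      · exact inter_subset_inter_right (H.Flt_subset j)
      · intro e he
        simp only [F, mem_inter] at he ⊢
        exact ⟨he.1, sym2_mono hT.1 he.2⟩
    · exact disjoint_of_subset_left inter_subset_left (H.disj_Flt_F j)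
  have h2 := H.hslack j T hT
  have h3 := H.htight j
  have h4 : (#(H.Flt j ∩ T.sym2) : ℝ) + #(H.F j) ≤ #(H.E ∩ T.sym2) := by exact_mod_cast h1
  unfold F at h4
  linarith

/-- Lemma B. -/
lemma Flt_card_le (j : Fin k) (T : Finset W) :
    (#(H.Flt j ∩ T.sym2) : ℝ) ≤ H.m * #(T \ H.U j) := by
  have h1 := H.Flt_inside j (T ∪ H.U j) subset_union_right
  have h2 : (#(T ∪ H.U j) : ℝ) - #(H.U j) = #(T \ H.U j) := by
    rw [← card_sdiff_add_card]
    push_cast
    ring
  rw [h2] at h1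
  refine le_trans ?_ h1
  apply Nat.cast_le.2
  apply card_le_card
  exact inter_subset_inter_left (sym2_mono subset_union_left)

/-- Lemma C. -/
lemma E_card_le (T : Finset W) (h : (H.E ∩ T.sym2).Nonempty) :
    (#(H.E ∩ T.sym2) : ℝ) ≤ 1 + H.m * (#T - 2) := by
  have : 2 ≤ #T := by
    obtain ⟨e, he⟩ := h
    rw [mem_inter] at he
    have hd := H.hloop e he.1
    induction e using Sym2.ind with
    | _ a b =>
      rw [Sym2.mk_isDiag_iff] at hd
      have h2 := (mk_mem_sym2_iff).1 he.2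
      rw [← card_pair hd]
      apply card_le_card
      intro z hz
      rw [mem_insert, mem_singleton] at hz
      rcases hz with rfl | rfl
      · exact h2.1
      · exact h2.2
  have := H.hdens T this
  linarith

end Pattern

end Pool.Agent.MP_9c932e_co
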