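import Mathlib
import Pool.Agent.Lib.MP_9c932e_co.Pattern

/-!
# Images of edge sets, pairs of maps and counting
-/

namespace Pool.Agent.MP_9c932e_co

open Finset

section Maps

variable {W : Type} [Fintype W] [DecidableEq W] {V : Type} [Fintype V] [DecidableEq V]

/-- image of a set of edges -/
def im (F : Finset (Sym2 W)) (φ : W → V) : Finset (Sym2 V) := F.image (Sym2.map φ)

/-- all edges of the complete graph -/
def KV (V : Type) [Fintype V] [DecidableEq V] : Finset (Sym2 V) := {e | ¬ e.IsDiag}

omit [Fintype W] [DecidableEq W] [Fintype V] in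
lemma card_im (F : Finset (Sym2 W)) {φ : W → V} (hφ : Function.Injective φ) :
    #(im F φ) = #F := card_image_of_injective _ (Sym2.map.injective hφ)

omit [Fintype W] [DecidableEq W] in
lemma im_subset_KV {F : Finset (Sym2 W)} (hF : ∀ e ∈ F, ¬ e.IsDiag) {φ : W → V}
    (hφ : Function.Injective φ) : im F φ ⊆ KV V := by
  intro e he
  simp only [im, mem_image] at he
  obtain ⟨e', he', rfl⟩ := he
  simp only [KV, mem_filter, mem_univ, true_and]
  rw [Sym2.isDiag_map hφ]
  exact hF e' he'

omit [Fintype W] [Fintype V] in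
lemma im_union (F F' : Finset (Sym2 W)) (φ : W → V) : im (F ∪ F') φ = im F φ ∪ im F' φ :=
  image_union _ _

omit [Fintype W] [DecidableEq W] [Fintype V] in
lemma im_mono {F F' : Finset (Sym2 W)} (h : F ⊆ F') (φ : W → V) : im F φ ⊆ im F' φ :=
  image_subset_image h

omit [Fintype W] [Fintype V] in
lemma im_congr {F : Finset (Sym2 W)} {U : Finset W} (hF : F ⊆ U.sym2) {φ φ' : W → V}
    (h : ∀ x ∈ U, φ x = φ' x) : im F φ = im F φ' := by
  unfold im
  apply image_congr
  intro e he
  apply Sym2.map_congr
  intro x hx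
  exact h x (mem_sym2_iff.1 (hF he) x hx)

/-- pairs of injective maps agreeing on `T` -/
def Pr (V : Type) [Fintype V] [DecidableEq V] (T : Finset W) : Finset ((W → V) × (W → V)) :=
  {P | Function.Injective P.1 ∧ Function.Injective P.2 ∧ ∀ x ∈ T, P.1 x = P.2 x}

/-- clean pairs: the images meet only in the image of `T` -/
def PrC (V : Type) [Fintype V] [DecidableEq V] (T : Finset W) : Finset ((W → V) × (W → V)) :=
  {P ∈ Pr V T | ∀ x, x ∉ T → ∀ y, P.2 x ≠ P.1 y}

/-- the other pairs -/
def PrU (V : Type) [Fintype V] [DecidableEq V] (T : Finset W) : Finset ((W → V) × (W → V)) :=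
  {P ∈ Pr V T | ¬ ∀ x, x ∉ T → ∀ y, P.2 x ≠ P.1 y}

/-- vertices of a set of edges -/
def vs (A : Finset (Sym2 W)) : Finset W := {x | ∃ e ∈ A, x ∈ e}

lemma subset_vs_sym2 (A : Finset (Sym2 W)) : A ⊆ (vs A).sym2 := by
  intro e he
  rw [mem_sym2_iff]
  intro x hx
  simp only [vs, mem_filter, mem_univ, true_and]
  exact ⟨e, he, hx⟩

lemma card_pi_le (A : Finset W) (S : Finset V) (s : ℕ) (hs : #S ≤ s) (hs1 : 1 ≤ s) :
    #(Fintype.piFinset (fun x => if x ∈ A then S else univ)) * Fintype.card V ^ #A ≤
      (s * Fintype.card V) ^ Fintype.card W := by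
  rw [Fintype.card_piFinset]
  have h1 : Fintype.card V ^ #A = ∏ x : W, if x ∈ A then Fintype.card V else 1 := by
    rw [Finset.prod_ite_mem]
    simp
  rw [h1, ← prod_mul_distrib]
  calc ∏ x : W, (#(if x ∈ A then S else univ) * if x ∈ A then Fintype.card V else 1)
      ≤ ∏ _x : W, s * Fintype.card V := by
        apply prod_le_prod' 
        intro x _
        by_cases hx : x ∈ A
        · simp only [hx, if_true]
          gcongr
        · simp only [hx, if_false, mul_one, card_univ]
          exact Nat.le_mul_of_pos_left _ hs1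
    _ = _ := by simp

lemma card_pi_le2 (T B : Finset W) (ψ : W → V) (S : Finset V) (s : ℕ) (hs : #S ≤ s)
    (hs1 : 1 ≤ s) :
    #(Fintype.piFinset (fun x => if x ∈ T then {ψ x} else if x ∈ B then S else univ)) *
      Fintype.card V ^ (#T + #(B \ T)) ≤ (s * Fintype.card V) ^ Fintype.card W := by
  rw [Fintype.card_piFinset]
  have h1 : Fintype.card V ^ (#T + #(B \ T)) = ∏ x : W, if x ∈ T ∪ B then Fintype.card V else 1 := by
    rw [Finset.prod_ite_mem]
    simp only [univ_inter, prod_const]
    congr 1
    rw [union_comm, ← card_sdiff_add_card, add_comm]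
  rw [h1, ← prod_mul_distrib]
  calc ∏ x : W, (#(if x ∈ T then {ψ x} else if x ∈ B then S else univ) *
        if x ∈ T ∪ B then Fintype.card V else 1)
      ≤ ∏ _x : W, s * Fintype.card V := by
        apply prod_le_prod'
        intro x _
        by_cases hx : x ∈ T
        · simp only [hx, if_true, card_singleton, mem_union, true_or, one_mul]
          exact Nat.le_mul_of_pos_left _ hs1
        · by_cases hxB : x ∈ B
          · simp only [hx, hxB, if_false, if_true, mem_union, or_true]
            gcongr
          · simp only [hx, hxB, if_false, card_univ, mem_union, or_self, mul_one]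
            exact Nat.le_mul_of_pos_left _ hs1
    _ = _ := by simp

/-- Counting pairs of maps agreeing on `T`, with vertices in `S1`, `S2` mapped into a small set. -/
lemma card_pairs_le (T S1 S2 : Finset W) (I : Finset ((W → V) × (W → V))) (S : Finset V) (s : ℕ)
    (hs : #S ≤ s) (hs1 : 1 ≤ s) (hI : ∀ P ∈ I, (∀ x ∈ T, P.1 x = P.2 x) ∧ (∀ x ∈ S1, P.1 x ∈ S) ∧
      (∀ x ∈ S2, P.2 x ∈ S)) :
    #I * Fintype.card V ^ (#(S1 ∪ (S2 ∩ T)) + (#T + #(S2 \ T))) ≤
      (s * Fintype.card V) ^ (2 * Fintype.card W) := by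
  classical
  set A := S1 ∪ (S2 ∩ T) with hA
  set P1 : Finset (W → V) := Fintype.piFinset (fun x => if x ∈ A then S else univ) with hP1
  let P2 : (W → V) → Finset (W → V) := fun ψ =>
    Fintype.piFinset (fun x => if x ∈ T then {ψ x} else if x ∈ S2 then S else univ)
  have h1 : #I ≤ ∑ ψ ∈ P1, #(P2 ψ) := by
    rw [← card_sigma]
    apply card_le_card_of_injOn (fun P => (⟨P.1, P.2⟩ : (_ : W → V) × (W → V)))
    · intro P hP
      have := hI P hP
      simp only [coe_sigma, Set.mem_sigma_iff, mem_coe, hP1, P2, Fintype.mem_piFinset]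
      constructor
      · intro x
        by_cases hx : x ∈ A
        · rw [if_pos hx]
          rw [hA, mem_union, mem_inter] at hx
          rcases hx with hx | ⟨hx, hxT⟩
          · exact this.2.1 x hx
          · rw [this.1 x hxT]
            exact this.2.2 x hx
        · rw [if_neg hx]
          exact mem_univ _
      · intro x
        by_cases hx : x ∈ T
        · rw [if_pos hx, mem_singleton]
          exact (this.1 x hx).symm
        · rw [if_neg hx]
          by_cases hx2 : x ∈ S2
          · rw [if_pos hx2]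
            exact this.2.2 x hx2
          · rw [if_neg hx2]
            exact mem_univ _
    · intro P _ P' _ h
      simp only [Sigma.mk.injEq, heq_eq_eq] at h
      exact Prod.ext h.1 h.2
  calc #I * Fintype.card V ^ (#A + (#T + #(S2 \ T)))
      ≤ (∑ ψ ∈ P1, #(P2 ψ)) * Fintype.card V ^ (#A + (#T + #(S2 \ T))) := by gcongr
    _ = (∑ ψ ∈ P1, #(P2 ψ) * Fintype.card V ^ (#T + #(S2 \ T))) * Fintype.card V ^ #A := by
        rw [pow_add, ← sum_mul]
        ring
    _ ≤ (∑ _ψ ∈ P1, (s * Fintype.card V) ^ Fintype.card W) * Fintype.card V ^ #A := by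
        gcongr with ψ hψ
        exact card_pi_le2 T S2 ψ S s hs hs1
    _ = (#P1 * Fintype.card V ^ #A) * (s * Fintype.card V) ^ Fintype.card W := by
        rw [sum_const, smul_eq_mul]
        ring
    _ ≤ (s * Fintype.card V) ^ Fintype.card W * (s * Fintype.card V) ^ Fintype.card W := by
        gcongr
        exact card_pi_le A S s hs hs1
    _ = _ := by rw [two_mul, pow_add]

/-- Counting pairs of maps agreeing on `T` such that the vertices of `Q` are mapped by the second
map into the image of the first. -/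
lemma card_pairs_le' (T Q : Finset W) (hTQ : Disjoint T Q) (I : Finset ((W → V) × (W → V)))
    [Nonempty W]
    (hI : ∀ P ∈ I, (∀ x ∈ T, P.1 x = P.2 x) ∧ (∀ x ∈ Q, ∃ y, P.2 x = P.1 y)) :
    #I * Fintype.card V ^ (#T + #Q) ≤
      Fintype.card W ^ Fintype.card W * Fintype.card V ^ (2 * Fintype.card W) := by
  classical
  let P2 : (W → V) → Finset (W → V) := fun ψ =>
    Fintype.piFinset (fun x => if x ∈ T then {ψ x} else if x ∈ Q then univ.image ψ else univ)
  have h1 : #I ≤ ∑ ψ ∈ (univ : Finset (W → V)), #(P2 ψ) := by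
    rw [← card_sigma]
    apply card_le_card_of_injOn (fun P => (⟨P.1, P.2⟩ : (_ : W → V) × (W → V)))
    · intro P hP
      have := hI P hP
      simp only [coe_sigma, Set.mem_sigma_iff, mem_coe, mem_univ, true_and, P2,
        Fintype.mem_piFinset]
      intro x
      by_cases hx : x ∈ T
      · rw [if_pos hx, mem_singleton]
        exact (this.1 x hx).symm
      · rw [if_neg hx]
        by_cases hx2 : x ∈ Q
        · rw [if_pos hx2, mem_image]
          obtain ⟨y, hy⟩ := this.2 x hx2
          exact ⟨y, mem_univ _, hy.symm⟩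
        · rw [if_neg hx2]
          exact mem_univ _
    · intro P _ P' _ h
      simp only [Sigma.mk.injEq, heq_eq_eq] at h
      exact Prod.ext h.1 h.2
  have hQT : Q \ T = Q := sdiff_eq_self_of_disjoint hTQ.symm
  calc #I * Fintype.card V ^ (#T + #Q)
      ≤ (∑ ψ ∈ (univ : Finset (W → V)), #(P2 ψ)) * Fintype.card V ^ (#T + #Q) := by gcongr
    _ = ∑ ψ ∈ (univ : Finset (W → V)), #(P2 ψ) * Fintype.card V ^ (#T + #Q) := by rw [sum_mul]
    _ ≤ ∑ _ψ ∈ (univ : Finset (W → V)), (Fintype.card W * Fintype.card V) ^ Fintype.card W := by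
        gcongr with ψ hψ
        have := card_pi_le2 T Q ψ (univ.image ψ) (Fintype.card W)
          (card_image_le.trans (by simp)) Fintype.card_pos
        rw [hQT] at this
        exact this
    _ = Fintype.card W ^ Fintype.card W * Fintype.card V ^ (2 * Fintype.card W) := by
        rw [sum_const, smul_eq_mul, card_univ, Fintype.card_fun, mul_pow, two_mul, pow_add]
        ring

end Maps

end Pool.Agent.MP_9c932e_co
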