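import Mathlib

/-!
# Random subsets of a finite set
-/

namespace Pool.Agent.MP_9c932e_co

open Finset

section Rand

variable {α : Type*} [DecidableEq α]

/-- Expectation of `f` over the random subset of `A` to which each element of `A` belongs
independently with probability `p`. -/
noncomputable def ex (p : ℝ) (A : Finset α) (f : Finset α → ℝ) : ℝ :=
  ∑ S ∈ A.powerset, p ^ #S * (1 - p) ^ (#A - #S) * f S

omit [DecidableEq α] in
lemma ex_const (p : ℝ) (A : Finset α) (c : ℝ) : ex p A (fun _ => c) = c := by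
  unfold ex
  rw [← sum_mul, Finset.sum_pow_mul_eq_add_pow]
  simp

omit [DecidableEq α] in
lemma ex_add (p : ℝ) (A : Finset α) (f g : Finset α → ℝ) :
    ex p A (fun S => f S + g S) = ex p A f + ex p A g := by
  unfold ex
  rw [← sum_add_distrib]
  exact sum_congr rfl (fun _ _ => by ring)

omit [DecidableEq α] in
lemma ex_sub (p : ℝ) (A : Finset α) (f g : Finset α → ℝ) :
    ex p A (fun S => f S - g S) = ex p A f - ex p A g := by
  unfold ex
  rw [← sum_sub_distrib]
  exact sum_congr rfl (fun _ _ => by ring)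

omit [DecidableEq α] in
lemma ex_mul (p : ℝ) (A : Finset α) (c : ℝ) (f : Finset α → ℝ) :
    ex p A (fun S => c * f S) = c * ex p A f := by
  unfold ex
  rw [mul_sum]
  exact sum_congr rfl (fun _ _ => by ring)

omit [DecidableEq α] in
lemma ex_sum {ρ : Type*} (p : ℝ) (A : Finset α) (I : Finset ρ) (f : ρ → Finset α → ℝ) :
    ex p A (fun S => ∑ i ∈ I, f i S) = ∑ i ∈ I, ex p A (f i) := by
  unfold ex
  rw [sum_comm]
  apply sum_congr rfl
  intro S _
  rw [mul_sum]

omit [DecidableEq α] in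
lemma ex_mono {p : ℝ} (hp0 : 0 ≤ p) (hp1 : p ≤ 1) (A : Finset α) {f g : Finset α → ℝ}
    (h : ∀ S ⊆ A, f S ≤ g S) : ex p A f ≤ ex p A g := by
  unfold ex
  apply sum_le_sum
  intro S hS
  have h1 : 0 ≤ 1 - p := by linarith
  have := h S (mem_powerset.1 hS)
  gcongr

omit [DecidableEq α] in
lemma ex_congr {p : ℝ} (A : Finset α) {f g : Finset α → ℝ}
    (h : ∀ S ⊆ A, f S = g S) : ex p A f = ex p A g := by
  unfold ex
  apply sum_congr rfl
  intro S hS
  rw [h S (mem_powerset.1 hS)]

omit [DecidableEq α] in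
lemma exists_ge_of_ex {p : ℝ} (hp0 : 0 ≤ p) (hp1 : p ≤ 1) (A : Finset α) {f : Finset α → ℝ} {a : ℝ}
    (h : a ≤ ex p A f) : ∃ S ⊆ A, a ≤ f S := by
  by_contra hcon
  push Not at hcon
  have h1 : ex p A f ≤ a := by
    rw [← ex_const p A a]
    exact ex_mono hp0 hp1 A (fun S hS => (hcon S hS).le)
  have h2 : ex p A f = a := le_antisymm h1 h
  -- some weight is positive
  have h3 : ex p A (fun S => a - f S) = 0 := by
    rw [ex_sub, ex_const, h2, sub_self]
  have h4 : ∀ S ∈ A.powerset, p ^ #S * (1 - p) ^ (#A - #S) * (a - f S) = 0 := by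
    rw [← Finset.sum_eq_zero_iff_of_nonneg]
    · exact h3
    · intro S hS
      have h1 : 0 ≤ 1 - p := by linarith
      have := hcon S (mem_powerset.1 hS)
      have : 0 ≤ a - f S := by linarith
      positivity
  have h5 : ∀ S ∈ A.powerset, p ^ #S * (1 - p) ^ (#A - #S) = 0 := by
    intro S hS
    have := hcon S (mem_powerset.1 hS)
    rcases mul_eq_zero.1 (h4 S hS) with h | h
    · exact h
    · linarith
  have h6 : ex p A (fun _ => (1 : ℝ)) = 0 := by
    unfold ex
    apply sum_eq_zero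
    intro S hS
    rw [h5 S hS, zero_mul]
  rw [ex_const] at h6
  norm_num at h6

/-- The probability that the random subset contains `E`. -/
lemma ex_subset (p : ℝ) (A E : Finset α) (h : E ⊆ A) :
    ex p A (fun S => if E ⊆ S then 1 else 0) = p ^ #E := by
  have h1 : ex p A (fun S => if E ⊆ S then (1 : ℝ) else 0) =
      ∑ S ∈ A.powerset with E ⊆ S, p ^ #S * (1 - p) ^ (#A - #S) := by
    unfold ex
    rw [sum_filter]
    apply sum_congr rfl
    intro S _
    by_cases hES : E ⊆ S <;> simp [hES]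
  rw [h1]
  have h2 : ∑ S ∈ A.powerset with E ⊆ S, p ^ #S * (1 - p) ^ (#A - #S) =
      ∑ T ∈ (A \ E).powerset, p ^ #E * (p ^ #T * (1 - p) ^ (#(A \ E) - #T)) := by
    apply sum_nbij' (fun S => S \ E) (fun T => T ∪ E)
    · intro S hS
      simp only [mem_filter, mem_powerset] at hS ⊢
      exact sdiff_subset_sdiff hS.1 (subset_refl _)
    · intro T hT
      simp only [mem_filter, mem_powerset] at hT ⊢
      exact ⟨union_subset (hT.trans sdiff_subset) h, subset_union_right⟩
    · intro S hS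
      simp only [mem_filter, mem_powerset] at hS
      exact sdiff_union_of_subset hS.2
    · intro T hT
      simp only [mem_powerset] at hT
      have : Disjoint T E := disjoint_of_subset_left hT sdiff_disjoint
      rw [union_sdiff_right, sdiff_eq_self_of_disjoint this]
    · intro S hS
      simp only [mem_filter, mem_powerset] at hS
      have e1 : #(S \ E) + #E = #S := card_sdiff_add_card_eq_card hS.2
      have e2 : #(A \ E) + #E = #A := card_sdiff_add_card_eq_card h
      have e3 : #S ≤ #A := card_le_card hS.1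
      have e4 : #A - #S = #(A \ E) - #(S \ E) := by omega
      rw [e4, ← e1, pow_add]
      ring
  rw [h2, ← mul_sum, Finset.sum_pow_mul_eq_add_pow]
  simp

open Classical in
/-- Probability of an event. -/
noncomputable def pr (p : ℝ) (A : Finset α) (Q : Finset α → Prop) : ℝ :=
  ex p A (fun S => if Q S then 1 else 0)

omit [DecidableEq α] in
lemma pr_nonneg {p : ℝ} (hp0 : 0 ≤ p) (hp1 : p ≤ 1) (A : Finset α) (Q : Finset α → Prop) :
    0 ≤ pr p A Q := by
  have := ex_mono hp0 hp1 A (f := fun _ => 0)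
    (g := fun S => by classical exact if Q S then 1 else 0) (fun S _ => by
      split_ifs <;> norm_num)
  rw [ex_const] at this
  exact this

omit [DecidableEq α] in
lemma pr_mono {p : ℝ} (hp0 : 0 ≤ p) (hp1 : p ≤ 1) (A : Finset α) {Q Q' : Finset α → Prop}
    (h : ∀ S ⊆ A, Q S → Q' S) : pr p A Q ≤ pr p A Q' := by
  classical
  apply ex_mono hp0 hp1
  intro S hS
  by_cases h1 : Q S
  · simp [h1, h S hS h1]
  · simp only [h1, if_false]
    split_ifs <;> norm_num

omit [DecidableEq α] in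
lemma pr_exists_le {ρ : Type*} {p : ℝ} (hp0 : 0 ≤ p) (hp1 : p ≤ 1) (A : Finset α) (I : Finset ρ)
    (Q : ρ → Finset α → Prop) :
    pr p A (fun S => ∃ i ∈ I, Q i S) ≤ ∑ i ∈ I, pr p A (Q i) := by
  classical
  unfold pr
  rw [← ex_sum]
  apply ex_mono hp0 hp1
  intro S _
  by_cases h1 : ∃ i ∈ I, Q i S
  · rw [if_pos h1]
    obtain ⟨i, hi, hQ⟩ := h1
    calc (1 : ℝ) = if Q i S then (1 : ℝ) else 0 := by rw [if_pos hQ]
      _ ≤ _ := single_le_sum (f := fun i => if Q i S then (1 : ℝ) else 0)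
        (fun i _ => by split_ifs <;> norm_num) hi
  · rw [if_neg h1]
    apply sum_nonneg
    intro i _
    split_ifs <;> norm_num

omit [DecidableEq α] in
lemma pr_or_le {p : ℝ} (hp0 : 0 ≤ p) (hp1 : p ≤ 1) (A : Finset α) (Q Q' : Finset α → Prop) :
    pr p A (fun S => Q S ∨ Q' S) ≤ pr p A Q + pr p A Q' := by
  classical
  unfold pr
  rw [← ex_add]
  apply ex_mono hp0 hp1
  intro S _
  by_cases h1 : Q S <;> by_cases h2 : Q' S <;> simp [h1, h2]

omit [DecidableEq α] in
lemma pr_not {p : ℝ} (A : Finset α) (Q : Finset α → Prop) :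
    pr p A Q = 1 - pr p A (fun S => ¬ Q S) := by
  classical
  have h : pr p A Q + pr p A (fun S => ¬ Q S) = ex p A (fun _ => 1) := by
    unfold pr
    rw [← ex_add]
    apply ex_congr
    intro S _
    by_cases h1 : Q S <;> simp [h1]
  rw [ex_const] at h
  linarith

lemma pr_subset_le {p : ℝ} (hp0 : 0 ≤ p) (hp1 : p ≤ 1) (A E : Finset α) :
    pr p A (fun S => E ⊆ S) ≤ p ^ #E := by
  classical
  by_cases h : E ⊆ A
  · rw [← ex_subset p A E h]
    unfold pr
    apply le_of_eq
    apply ex_congr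
    intro S _
    split_ifs <;> rfl
  · have : pr p A (fun S => E ⊆ S) ≤ 0 := by
      rw [← ex_const p A 0]
      unfold pr
      apply ex_mono hp0 hp1
      intro S hS
      rw [if_neg (fun h' => h (h'.trans hS))]
    exact this.trans (by positivity)

omit [DecidableEq α] in
/-- Markov's inequality. -/
lemma markov {p : ℝ} (hp0 : 0 ≤ p) (hp1 : p ≤ 1) (A : Finset α) (f : Finset α → ℝ)
    (hf : ∀ S ⊆ A, 0 ≤ f S) {t : ℝ} (ht : 0 < t) :
    pr p A (fun S => t ≤ f S) ≤ ex p A f / t := by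
  classical
  rw [le_div_iff₀ ht, mul_comm]
  unfold pr
  rw [← ex_mul]
  apply ex_mono hp0 hp1
  intro S hS
  by_cases h : t ≤ f S
  · simp [h]
  · simpa [h] using hf S hS

/-- Upper tail by the second moment method for the number of sets `E R` contained in the random
set. -/
lemma second_moment {ρ : Type*} {p : ℝ} (hp0 : 0 ≤ p) (hp1 : p ≤ 1) (A : Finset α)
    (I : Finset ρ) (E : ρ → Finset α) (hE : ∀ R ∈ I, E R ⊆ A) {Λ ζ : ℝ} (hΛ : 0 < Λ) (hζ : 0 ≤ ζ)
    (h1 : ∑ R ∈ I, p ^ #(E R) ≤ Λ)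
    (h2 : ∀ R ∈ I, ∑ R' ∈ I with ¬ Disjoint (E R) (E R'), p ^ #(E R' \ E R) ≤ ζ * Λ) :
    pr p A (fun S => 2 * Λ ≤ (#{R ∈ I | E R ⊆ S} : ℝ)) ≤ ζ := by
  classical
  set μ := ∑ R ∈ I, p ^ #(E R) with hμ
  have hμ0 : 0 ≤ μ := sum_nonneg (fun _ _ => by positivity)
  let X : Finset α → ℝ := fun S => ∑ R ∈ I, if E R ⊆ S then (1 : ℝ) else 0
  have hX : ∀ S, (#{R ∈ I | E R ⊆ S} : ℝ) = X S := by
    intro S
    simp only [X]
    rw [← sum_filter]
    simp
  have hexX : ex p A X = μ := by
    simp only [X]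
    rw [ex_sum]
    apply sum_congr rfl
    intro R hR
    exact ex_subset p A (E R) (hE R hR)
  have hexX2 : ex p A (fun S => X S * X S) ≤ μ * (μ + ζ * Λ) := by
    have e1 : ∀ S, X S * X S = ∑ R ∈ I, ∑ R' ∈ I, if E R ∪ E R' ⊆ S then (1 : ℝ) else 0 := by
      intro S
      simp only [X]
      rw [sum_mul_sum]
      apply sum_congr rfl
      intro R _
      apply sum_congr rfl
      intro R' _
      by_cases h1 : E R ⊆ S <;> by_cases h2 : E R' ⊆ S <;> simp [union_subset_iff, h1, h2]
    simp_rw [e1]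
    rw [ex_sum, hμ, sum_mul]
    apply sum_le_sum
    intro R hR
    rw [ex_sum]
    have e2 : ∑ R' ∈ I, ex p A (fun S => if E R ∪ E R' ⊆ S then (1 : ℝ) else 0) =
        ∑ R' ∈ I, p ^ #(E R) * p ^ #(E R' \ E R) := by
      apply sum_congr rfl
      intro R' hR'
      rw [ex_subset p A _ (union_subset (hE R hR) (hE R' hR')), ← pow_add]
      congr 1
      rw [union_comm, ← card_sdiff_add_card, add_comm]
    rw [e2, ← mul_sum]
    apply mul_le_mul_of_nonneg_left _ (by positivity)
    rw [← hμ, ← sum_filter_add_sum_filter_not I (fun R' => ¬ Disjoint (E R) (E R')), add_comm]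
    apply add_le_add _ (h2 R hR)
    calc ∑ R' ∈ I with ¬ ¬ Disjoint (E R) (E R'), p ^ #(E R' \ E R)
        = ∑ R' ∈ I with ¬ ¬ Disjoint (E R) (E R'), p ^ #(E R') := by
          apply sum_congr rfl
          intro R' hR'
          rw [mem_filter, not_not] at hR'
          rw [sdiff_eq_self_of_disjoint hR'.2.symm]
      _ ≤ μ := sum_le_sum_of_subset_of_nonneg (filter_subset _ _) (fun _ _ _ => by positivity)
  have hvar : ex p A (fun S => (X S - μ) ^ 2) ≤ ζ * Λ ^ 2 := by
    have e1 : ex p A (fun S => (X S - μ) ^ 2) =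
        ex p A (fun S => X S * X S) - 2 * μ * ex p A X + μ ^ 2 := by
      have : (fun S => (X S - μ) ^ 2) = fun S => (X S * X S - (2 * μ) * X S) + μ ^ 2 := by
        ext S; ring
      rw [this, ex_add, ex_sub, ex_mul, ex_const]
    rw [e1, hexX]
    have : μ * (ζ * Λ) ≤ Λ * (ζ * Λ) := by gcongr
    nlinarith
  have hmono : pr p A (fun S => 2 * Λ ≤ (#{R ∈ I | E R ⊆ S} : ℝ)) ≤
      pr p A (fun S => Λ ^ 2 ≤ (X S - μ) ^ 2) := by
    apply pr_mono hp0 hp1
    intro S _ hS
    rw [hX] at hS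
    have : Λ ≤ X S - μ := by linarith
    gcongr
  refine hmono.trans ((markov hp0 hp1 A _ (fun _ _ => sq_nonneg _) (by positivity)).trans ?_)
  rw [div_le_iff₀ (by positivity)]
  exact hvar

end Rand

end Pool.Agent.MP_9c932e_co
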