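import Mathlib
import Pool.Agent.Lib.MP_9c932e_co.Maps
import Pool.Agent.Lib.MP_9c932e_co.Rand

/-!
# Pseudorandomness of the random graph: pairs of partial copies
-/

set_option linter.unusedSectionVars false

namespace Pool.Agent.MP_9c932e_co

open Finset

lemma low {n p c m : ℝ} (hn : 1 ≤ n) (hc : 0 < c) (hm : 1 ≤ m) (hp : c * n ^ (-1 / m) ≤ p)
    (t : ℕ) (s r : ℝ) (h : (t : ℝ) ≤ m * (s - r)) : c ^ t * n ^ r ≤ n ^ s * p ^ t := by
  have hn0 : 0 < n := by linarith
  have hm0 : 0 < m := by linarith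
  have h1 : (c * n ^ (-1 / m)) ^ t ≤ p ^ t := by
    apply pow_le_pow_left₀ _ hp
    positivity
  have h2 : (c * n ^ (-1 / m)) ^ t = c ^ t * n ^ (-(t : ℝ) / m) := by
    rw [mul_pow, ← Real.rpow_natCast (n ^ (-1 / m)) t, ← Real.rpow_mul hn0.le]
    congr 2
    ring
  have h3 : n ^ r ≤ n ^ s * n ^ (-(t : ℝ) / m) := by
    rw [← Real.rpow_add hn0]
    apply Real.rpow_le_rpow_of_exponent_le hn
    have : (t : ℝ) / m ≤ s - r := by
      rw [div_le_iff₀ hm0]; linarith
    rw [neg_div]
    linarith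
  calc c ^ t * n ^ r ≤ c ^ t * (n ^ s * n ^ (-(t : ℝ) / m)) := by gcongr
    _ = n ^ s * (c * n ^ (-1 / m)) ^ t := by rw [h2]; ring
    _ ≤ n ^ s * p ^ t := by gcongr

section Ambient

variable {W : Type} [Fintype W] [DecidableEq W] {k : ℕ} (H : Pattern W k)
  {V : Type} [Fintype V] [DecidableEq V]

/-- the edges of a pair of partial copies -/
def Epair (j : ℕ) (P : (W → V) × (W → V)) : Finset (Sym2 V) :=
  im (H.Flt j) P.1 ∪ im (H.Flt j) P.2

lemma mem_im {F : Finset (Sym2 W)} {φ : W → V} {e : Sym2 V} :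
    e ∈ im F φ ↔ ∃ e' ∈ F, Sym2.map φ e' = e := by simp [im]

lemma vertex_of_im {F : Finset (Sym2 W)} {φ : W → V} {e : Sym2 V} (he : e ∈ im F φ) {v : V}
    (hv : v ∈ e) : ∃ y, φ y = v := by
  rw [mem_im] at he
  obtain ⟨e', _, rfl⟩ := he
  rw [Sym2.mem_map] at hv
  obtain ⟨y, _, hy⟩ := hv
  exact ⟨y, hy⟩

lemma clean_disj (j : Fin k) {P : (W → V) × (W → V)} (hP : P ∈ PrC V (H.U j)) :
    Disjoint (im (H.Flt j) P.1) (im (H.Flt j) P.2) := by
  rw [Finset.disjoint_left]
  intro e h1 h2
  simp only [PrC, mem_filter] at hP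
  rw [mem_im] at h2
  obtain ⟨e2, he2, he⟩ := h2
  have hU : e2 ∈ (H.U j).sym2 := by
    rw [mem_sym2_iff]
    intro x hx
    by_contra hxU
    have hv : P.2 x ∈ e := by
      rw [← he, Sym2.mem_map]
      exact ⟨x, hx, rfl⟩
    obtain ⟨y, hy⟩ := vertex_of_im h1 hv
    exact hP.2 x hxU y hy.symm
  have := (Finset.disjoint_left.1 (H.disj_Flt_F j)) he2
  apply this
  simp only [Pattern.F, mem_inter]
  exact ⟨H.Flt_subset j he2, hU⟩

lemma Pr_inj {T : Finset W} {P : (W → V) × (W → V)} (hP : P ∈ Pr V T) :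
    Function.Injective P.1 ∧ Function.Injective P.2 ∧ ∀ x ∈ T, P.1 x = P.2 x := by
  simpa [Pr] using hP

lemma card_Epair_clean (j : Fin k) {P : (W → V) × (W → V)} (hP : P ∈ PrC V (H.U j)) :
    #(Epair H j P) = 2 * #(H.Flt j) := by
  have h1 := Pr_inj (mem_filter.1 hP).1
  unfold Epair
  rw [card_union_of_disjoint (clean_disj H j hP), card_im _ h1.1, card_im _ h1.2.1]
  ring

lemma Epair_subset_KV (j : ℕ) {T : Finset W} {P : (W → V) × (W → V)} (hP : P ∈ Pr V T) :
    Epair H j P ⊆ KV V := by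
  have h1 := Pr_inj hP
  have hl : ∀ e ∈ H.Flt j, ¬ e.IsDiag := fun e he => H.hloop e (H.Flt_subset j he)
  exact union_subset (im_subset_KV hl h1.1) (im_subset_KV hl h1.2.1)

lemma card_im_sdiff (F : Finset (Sym2 W)) {φ : W → V} (hφ : Function.Injective φ)
    (X : Finset (Sym2 V)) : #(im F φ \ X) + #{e ∈ F | Sym2.map φ e ∈ X} = #F := by
  have h1 : im F φ \ X = im (F.filter (fun e => ¬ Sym2.map φ e ∈ X)) φ := by
    ext e
    simp only [mem_sdiff, mem_im, mem_filter]
    constructor
    · rintro ⟨⟨e', he', rfl⟩, h⟩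
      exact ⟨e', ⟨he', h⟩, rfl⟩
    · rintro ⟨e', ⟨he', h⟩, rfl⟩
      exact ⟨⟨e', he', rfl⟩, h⟩
  rw [h1, card_im _ hφ, add_comm]
  exact card_filter_add_card_filter_not _

variable {n p c : ℝ}

lemma clean_numeric (j : Fin k) (hn : 1 ≤ n) (hc : 0 < c) (hc1 : c ≤ 1)
    (hp : c * n ^ (-1 / H.m) ≤ p) (A B : Finset (Sym2 W)) (hA : A ⊆ H.Flt j) (hB : B ⊆ H.Flt j)
    (hne : A.Nonempty ∨ B.Nonempty) :
    c ^ (2 * #(H.Flt j)) * n ≤
      n ^ (#(vs A ∪ (vs B ∩ H.U j)) + #(vs B \ H.U j)) * p ^ (#A + #B) := by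
  have hn0 : 0 < n := by linarith
  have hp0 : 0 < p := lt_of_lt_of_le (by positivity) hp
  have hcard : ∀ A ⊆ H.Flt j, (#A : ℝ) ≤ H.m * #(vs A \ H.U j) := by
    intro A hA
    refine le_trans ?_ (H.Flt_card_le j (vs A))
    exact_mod_cast card_le_card (subset_inter hA (subset_vs_sym2 A))
  have low0 : ∀ A ⊆ H.Flt j, c ^ #A ≤ n ^ #(vs A \ H.U j) * p ^ #A := by
    intro A hA
    have := low hn hc H.hm hp #A (#(vs A \ H.U j) : ℝ) 0 (by
      rw [sub_zero]; exact hcard A hA)
    rw [Real.rpow_zero, mul_one, Real.rpow_natCast] at this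
    exact this
  have low1 : ∀ A ⊆ H.Flt j, A.Nonempty → vs A ∩ H.U j = ∅ →
      c ^ #A * n ≤ n ^ #(vs A) * p ^ #A := by
    intro A hA hne _
    have hsub : A ⊆ H.E ∩ (vs A).sym2 := subset_inter (hA.trans (H.Flt_subset j)) (subset_vs_sym2 A)
    have h1 := H.E_card_le (vs A) (hne.mono hsub)
    have h2 : (#A : ℝ) ≤ #(H.E ∩ (vs A).sym2) := by exact_mod_cast card_le_card hsub
    have := low hn hc H.hm hp #A (#(vs A) : ℝ) 1 (by
      have := H.hm
      nlinarith)
    rw [Real.rpow_one, Real.rpow_natCast] at this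
    exact this
  have hc2 : c ^ (2 * #(H.Flt j)) ≤ c ^ (#A + #B) := by
    apply pow_le_pow_of_le_one hc.le hc1
    have := card_le_card hA
    have := card_le_card hB
    omega
  refine le_trans (mul_le_mul_of_nonneg_right hc2 hn0.le) ?_
  by_cases hcase : (vs A ∪ vs B) ∩ H.U j = ∅
  · have hA0 : vs A ∩ H.U j = ∅ := by
      apply subset_empty.1
      rw [← hcase]
      exact inter_subset_inter_right subset_union_left
    have hB0 : vs B ∩ H.U j = ∅ := by
      apply subset_empty.1
      rw [← hcase]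
      exact inter_subset_inter_right subset_union_right
    have hA1 : vs A \ H.U j = vs A := by
      rw [Finset.sdiff_eq_self_iff_disjoint, Finset.disjoint_iff_inter_eq_empty]; exact hA0
    have hB1 : vs B \ H.U j = vs B := by
      rw [Finset.sdiff_eq_self_iff_disjoint, Finset.disjoint_iff_inter_eq_empty]; exact hB0
    rw [hB0, hB1, union_empty, pow_add, pow_add, pow_add]
    have a0 := low0 A hA
    have b0 := low0 B hB
    rw [hA1] at a0
    rw [hB1] at b0
    rcases hne with h | h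
    · have a1 := low1 A hA h hA0
      calc c ^ #A * c ^ #B * n = (c ^ #A * n) * c ^ #B := by ring
        _ ≤ (n ^ #(vs A) * p ^ #A) * (n ^ #(vs B) * p ^ #B) := by gcongr
        _ = _ := by ring
    · have b1 := low1 B hB h hB0
      calc c ^ #A * c ^ #B * n = c ^ #A * (c ^ #B * n) := by ring
        _ ≤ (n ^ #(vs A) * p ^ #A) * (n ^ #(vs B) * p ^ #B) := by gcongr
        _ = _ := by ring
  · have h1 : #(vs A \ H.U j) + 1 ≤ #(vs A ∪ (vs B ∩ H.U j)) := by
      have e1 : #(vs A \ H.U j) + #((vs A ∪ vs B) ∩ H.U j) ≤ #(vs A ∪ (vs B ∩ H.U j)) := by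
        rw [← card_union_of_disjoint]
        · apply card_le_card
          intro x hx
          simp only [mem_union, mem_sdiff, mem_inter] at hx ⊢
          tauto
        · rw [Finset.disjoint_left]
          intro x hx hx'
          simp only [mem_sdiff, mem_inter] at hx hx'
          exact hx.2 hx'.2
      have e2 : 0 < #((vs A ∪ vs B) ∩ H.U j) :=
        Finset.card_pos.2 (Finset.nonempty_iff_ne_empty.2 hcase)
      omega
    have a0 := low0 A hA
    have b0 := low0 B hB
    calc c ^ (#A + #B) * n = (c ^ #A) * (c ^ #B) * n := by rw [pow_add]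
      _ ≤ (n ^ #(vs A \ H.U j) * p ^ #A) * (n ^ #(vs B \ H.U j) * p ^ #B) * n := by gcongr
      _ = n ^ (#(vs A \ H.U j) + 1 + #(vs B \ H.U j)) * p ^ (#A + #B) := by ring
      _ ≤ _ := by
        gcongr

/-- normalising factor -/
noncomputable def Lam (H : Pattern W k) (j : Fin k) (n p : ℝ) : ℝ :=
  n ^ (2 * Fintype.card W) * p ^ (2 * #(H.Flt j)) / n ^ #(H.U j)

lemma nonempty_W (H : Pattern W k) : Nonempty W := by
  have h := H.hU2 ⟨0, H.hk⟩
  have : (H.U ⟨0, H.hk⟩).Nonempty := Finset.card_pos.1 (by omega)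
  exact ⟨this.choose⟩

/-- fibre bound -/
lemma fibre_bound (j : Fin k) (hn : (Fintype.card V : ℝ) = n) (hn1 : 1 ≤ n) (hc : 0 < c)
    (hc1 : c ≤ 1) (hp : c * n ^ (-1 / H.m) ≤ p)
    (A B : Finset (Sym2 W)) (hA : A ⊆ H.Flt j) (hB : B ⊆ H.Flt j)
    (hne : A.Nonempty ∨ B.Nonempty) (I : Finset ((W → V) × (W → V))) (S : Finset V)
    (hS : #S ≤ 2 * Fintype.card W)
    (hI : ∀ P ∈ I, (∀ x ∈ H.U j, P.1 x = P.2 x) ∧ (∀ x ∈ vs A, P.1 x ∈ S) ∧
      (∀ x ∈ vs B, P.2 x ∈ S)) :
    #I * p ^ (2 * #(H.Flt j) - (#A + #B)) ≤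
      (2 * Fintype.card W) ^ (2 * Fintype.card W) / (c ^ (2 * #(H.Flt j)) * n) * Lam H j n p := by
  have hn0 : 0 < n := by linarith
  have hp0 : 0 < p := lt_of_lt_of_le (by positivity) hp
  have := nonempty_W H
  have hh : 1 ≤ Fintype.card W := Fintype.card_pos
  have h1 := card_pairs_le (H.U j) (vs A) (vs B) I S (2 * Fintype.card W) hS (by omega) hI
  have h2 := clean_numeric H j hn1 hc hc1 hp A B hA hB hne
  set a := #(vs A ∪ (vs B ∩ H.U j)) with ha
  set b := #(vs B \ H.U j) with hb
  set e := #(H.Flt j) with he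
  have h3 : (#I : ℝ) * n ^ (a + (#(H.U j) + b)) ≤
      (2 * Fintype.card W * n) ^ (2 * Fintype.card W) := by
    rw [← hn]
    exact_mod_cast h1
  have hAB : #A + #B ≤ 2 * e := by
    have := card_le_card hA
    have := card_le_card hB
    omega
  have hpos : 0 < n ^ (a + (#(H.U j) + b)) * p ^ (#A + #B) := by positivity
  rw [← mul_le_mul_iff_left₀ hpos]
  calc (#I : ℝ) * p ^ (2 * e - (#A + #B)) * (n ^ (a + (#(H.U j) + b)) * p ^ (#A + #B))
      = (#I * n ^ (a + (#(H.U j) + b))) * (p ^ (2 * e - (#A + #B)) * p ^ (#A + #B)) := by ring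
    _ = (#I * n ^ (a + (#(H.U j) + b))) * p ^ (2 * e) := by
        rw [← pow_add, Nat.sub_add_cancel hAB]
    _ ≤ (2 * Fintype.card W * n) ^ (2 * Fintype.card W) * p ^ (2 * e) := by gcongr
    _ = (2 * Fintype.card W) ^ (2 * Fintype.card W) * n ^ (2 * Fintype.card W) * p ^ (2 * e) := by
        rw [mul_pow]
    _ ≤ (2 * Fintype.card W) ^ (2 * Fintype.card W) * n ^ (2 * Fintype.card W) * p ^ (2 * e) *
        ((n ^ (a + b) * p ^ (#A + #B)) / (c ^ (2 * e) * n)) := by
        apply le_mul_of_one_le_right (by positivity)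
        rw [le_div_iff₀ (by positivity), one_mul]
        exact h2
    _ = (2 * Fintype.card W) ^ (2 * Fintype.card W) / (c ^ (2 * e) * n) * Lam H j n p *
      (n ^ (a + (#(H.U j) + b)) * p ^ (#A + #B)) := by
        unfold Lam
        rw [← he]
        field_simp
        ring

/-- Upper tail for the clean pairs. -/
lemma ambient_clean (j : Fin k) (hn : (Fintype.card V : ℝ) = n) (hn1 : 1 ≤ n) (hc : 0 < c)
    (hc1 : c ≤ 1) (hp : c * n ^ (-1 / H.m) ≤ p) (hp1 : p ≤ 1) :
    pr p (KV V) (fun S => 2 * Lam H j n p ≤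
      (#{P ∈ PrC V (H.U j) | Epair H j P ⊆ S} : ℝ)) ≤
      4 ^ #(H.Flt j) * (2 * Fintype.card W) ^ (2 * Fintype.card W) / (c ^ (2 * #(H.Flt j)) * n) := by
  classical
  have hn0 : 0 < n := by linarith
  have hp0 : 0 < p := lt_of_lt_of_le (by positivity) hp
  have := nonempty_W H
  have hΛ : 0 < Lam H j n p := by unfold Lam; positivity
  apply second_moment hp0.le hp1 (KV V) (PrC V (H.U j)) (Epair H j) _ hΛ (by positivity)
  · -- first moment
    have h1 : ∑ R ∈ PrC V (H.U j), p ^ #(Epair H j R) = #(PrC V (H.U j)) * p ^ (2 * #(H.Flt j)) := by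
      rw [← nsmul_eq_mul, ← sum_const]
      apply sum_congr rfl
      intro R hR
      rw [card_Epair_clean H j hR]
    rw [h1]
    have h2 := card_pairs_le (H.U j) ∅ ∅ (PrC V (H.U j)) (∅ : Finset V) 1 (by simp) le_rfl (by
      intro P hP
      have := Pr_inj (mem_filter.1 hP).1
      refine ⟨this.2.2, by simp, by simp⟩)
    simp only [empty_inter, union_empty, card_empty, empty_sdiff, add_zero, zero_add,
      one_mul] at h2
    have h3 : (#(PrC V (H.U j)) : ℝ) * n ^ #(H.U j) ≤ n ^ (2 * Fintype.card W) := by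
      rw [← hn]; exact_mod_cast h2
    unfold Lam
    rw [le_div_iff₀ (by positivity)]
    calc _ = ((#(PrC V (H.U j)) : ℝ) * n ^ #(H.U j)) * p ^ (2 * #(H.Flt j)) := by ring
      _ ≤ _ := by gcongr
  · intro R hR
    set e := #(H.Flt j) with he
    let g : (W → V) × (W → V) → Finset (Sym2 W) × Finset (Sym2 W) := fun R' =>
      ({e ∈ H.Flt j | Sym2.map R'.1 e ∈ Epair H j R}, {e ∈ H.Flt j | Sym2.map R'.2 e ∈ Epair H j R})
    set t : Finset (Finset (Sym2 W) × Finset (Sym2 W)) :=
      ((H.Flt j).powerset ×ˢ (H.Flt j).powerset).filter (fun q => q.1.Nonempty ∨ q.2.Nonempty) with ht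
    have hcardR' : ∀ R' ∈ PrC V (H.U j), #(Epair H j R' \ Epair H j R) + (#(g R').1 + #(g R').2)
        = 2 * e := by
      intro R' hR'
      have h1 := Pr_inj (mem_filter.1 hR').1
      have h2 : Epair H j R' \ Epair H j R = (im (H.Flt j) R'.1 \ Epair H j R) ∪
          (im (H.Flt j) R'.2 \ Epair H j R) := by
        unfold Epair
        rw [union_sdiff_distrib]
      rw [h2, card_union_of_disjoint]
      · have e1 := card_im_sdiff (H.Flt j) h1.1 (Epair H j R)
        have e2 := card_im_sdiff (H.Flt j) h1.2.1 (Epair H j R)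
        simp only [g]
        omega
      · exact disjoint_of_subset_left sdiff_subset
          (disjoint_of_subset_right sdiff_subset (clean_disj H j hR'))
    have hmaps : ∀ R' ∈ (PrC V (H.U j)).filter (fun R' => ¬ Disjoint (Epair H j R) (Epair H j R')),
        g R' ∈ t := by
      intro R' hR'
      rw [mem_filter] at hR'
      simp only [ht, mem_filter, mem_product, mem_powerset, g]
      refine ⟨⟨filter_subset _ _, filter_subset _ _⟩, ?_⟩
      have := hR'.2
      rw [Finset.not_disjoint_iff] at this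
      obtain ⟨x, hx1, hx2⟩ := this
      unfold Epair at hx2
      rw [mem_union, mem_im, mem_im] at hx2
      rcases hx2 with ⟨e', he', rfl⟩ | ⟨e', he', rfl⟩
      · left
        exact ⟨e', mem_filter.2 ⟨he', hx1⟩⟩
      · right
        exact ⟨e', mem_filter.2 ⟨he', hx1⟩⟩
    rw [← sum_fiberwise_of_maps_to hmaps]
    set S : Finset V := univ.image R.1 ∪ univ.image R.2 with hS
    have hScard : #S ≤ 2 * Fintype.card W := by
      refine (card_union_le _ _).trans ?_
      have h1 : #(univ.image R.1) ≤ Fintype.card W := card_image_le.trans (by simp)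
      have h2 : #(univ.image R.2) ≤ Fintype.card W := card_image_le.trans (by simp)
      omega
    have hvert : ∀ (x : Sym2 V), x ∈ Epair H j R → ∀ v ∈ x, v ∈ S := by
      intro x hx v hv
      unfold Epair at hx
      rw [mem_union] at hx
      rw [hS, mem_union, mem_image, mem_image]
      rcases hx with hx | hx
      · left
        obtain ⟨y, hy⟩ := vertex_of_im hx hv
        exact ⟨y, mem_univ _, hy⟩
      · right
        obtain ⟨y, hy⟩ := vertex_of_im hx hv
        exact ⟨y, mem_univ _, hy⟩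
    have hfib : ∀ q ∈ t, ∑ R' ∈ (PrC V (H.U j)).filter
        (fun R' => ¬ Disjoint (Epair H j R) (Epair H j R')) with g R' = q,
        p ^ #(Epair H j R' \ Epair H j R) ≤
        (2 * Fintype.card W) ^ (2 * Fintype.card W) / (c ^ (2 * e) * n) * Lam H j n p := by
      intro q hq
      simp only [ht, mem_filter, mem_product, mem_powerset] at hq
      have h1 : ∑ R' ∈ (PrC V (H.U j)).filter
          (fun R' => ¬ Disjoint (Epair H j R) (Epair H j R')) with g R' = q,
          p ^ #(Epair H j R' \ Epair H j R) =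
          #(((PrC V (H.U j)).filter
          (fun R' => ¬ Disjoint (Epair H j R) (Epair H j R'))).filter (fun R' => g R' = q)) *
          p ^ (2 * e - (#q.1 + #q.2)) := by
        rw [← nsmul_eq_mul, ← sum_const]
        apply sum_congr rfl
        intro R' hR'
        rw [mem_filter, mem_filter] at hR'
        have := hcardR' R' hR'.1.1
        rw [hR'.2] at this
        congr 1
        omega
      rw [h1]
      apply fibre_bound H j hn hn1 hc hc1 hp q.1 q.2 hq.1.1 hq.1.2 hq.2 _ S hScard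
      intro P hP
      rw [mem_filter, mem_filter] at hP
      have hPi := Pr_inj (mem_filter.1 hP.1.1).1
      refine ⟨hPi.2.2, ?_, ?_⟩
      · intro x hx
        simp only [vs, mem_filter, mem_univ, true_and] at hx
        obtain ⟨e', he', hx⟩ := hx
        rw [← hP.2] at he'
        simp only [g, mem_filter] at he'
        exact hvert _ he'.2 _ (Sym2.mem_map.2 ⟨x, hx, rfl⟩)
      · intro x hx
        simp only [vs, mem_filter, mem_univ, true_and] at hx
        obtain ⟨e', he', hx⟩ := hx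
        rw [← hP.2] at he'
        simp only [g, mem_filter] at he'
        exact hvert _ he'.2 _ (Sym2.mem_map.2 ⟨x, hx, rfl⟩)
    have htcard : (#t : ℝ) ≤ 4 ^ e := by
      have : #t ≤ 4 ^ e := by
        refine (card_filter_le _ _).trans ?_
        rw [card_product, card_powerset, ← he, ← mul_pow]
        norm_num
      exact_mod_cast this
    calc _ ≤ ∑ _q ∈ t, (2 * Fintype.card W : ℝ) ^ (2 * Fintype.card W) / (c ^ (2 * e) * n) *
          Lam H j n p := sum_le_sum hfib
      _ = #t * ((2 * Fintype.card W : ℝ) ^ (2 * Fintype.card W) / (c ^ (2 * e) * n) *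
          Lam H j n p) := by rw [sum_const, nsmul_eq_mul]
      _ ≤ 4 ^ e * ((2 * Fintype.card W : ℝ) ^ (2 * Fintype.card W) / (c ^ (2 * e) * n) *
          Lam H j n p) := by gcongr
      _ = _ := by ring
  · intro R hR
    exact Epair_subset_KV H j (mem_filter.1 hR).1

/-- Upper tail for the other pairs. -/
lemma ambient_unclean (j : Fin k) (hn : (Fintype.card V : ℝ) = n) (hn1 : 1 ≤ n) (hc : 0 < c)
    (hc1 : c ≤ 1) (hp : c * n ^ (-1 / H.m) ≤ p) (hp1 : p ≤ 1) {τ : ℝ} (hτ : 0 < τ) :
    pr p (KV V) (fun S => τ * Lam H j n p ≤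
      (#{P ∈ PrU V (H.U j) | Epair H j P ⊆ S} : ℝ)) ≤
      2 ^ Fintype.card W * Fintype.card W ^ Fintype.card W / (c ^ #(H.Flt j) * τ) *
        n ^ (-(H.ξ / H.m)) := by
  classical
  have hn0 : 0 < n := by linarith
  have hp0 : 0 < p := lt_of_lt_of_le (by positivity) hp
  have := nonempty_W H
  have hΛ : 0 < Lam H j n p := by unfold Lam; positivity
  have hm0 : 0 < H.m := lt_of_lt_of_le one_pos H.hm
  set e := #(H.Flt j) with he
  set h := Fintype.card W with hh
  refine (markov hp0.le hp1 (KV V) _ (fun _ _ => Nat.cast_nonneg _) (by positivity)).trans ?_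
  rw [div_le_iff₀ (by positivity)]
  have hex : ex p (KV V) (fun S => (#{P ∈ PrU V (H.U j) | Epair H j P ⊆ S} : ℝ)) =
      ∑ P ∈ PrU V (H.U j), p ^ #(Epair H j P) := by
    have : ∀ S : Finset (Sym2 V), (#{P ∈ PrU V (H.U j) | Epair H j P ⊆ S} : ℝ) =
        ∑ P ∈ PrU V (H.U j), if Epair H j P ⊆ S then (1 : ℝ) else 0 := by
      intro S
      rw [← sum_filter]
      simp
    simp_rw [this]
    rw [ex_sum]
    apply sum_congr rfl
    intro P hP
    exact ex_subset p _ _ (Epair_subset_KV H j (mem_filter.1 hP).1)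
  rw [hex]
  let Qs : (W → V) × (W → V) → Finset W := fun P => {x | x ∉ H.U j ∧ ∃ y, P.2 x = P.1 y}
  set t : Finset (Finset W) := univ.filter (fun Q => Q.Nonempty ∧ Disjoint (H.U j) Q) with ht
  have hmaps : ∀ P ∈ PrU V (H.U j), Qs P ∈ t := by
    intro P hP
    simp only [PrU, mem_filter] at hP
    simp only [ht, mem_filter, mem_univ, true_and]
    constructor
    · have := hP.2
      push Not at this
      obtain ⟨x, hx, y, hy⟩ := this
      exact ⟨x, by simp only [Qs, mem_filter, mem_univ, true_and]; exact ⟨hx, y, hy⟩⟩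
    · rw [Finset.disjoint_left]
      intro x hx hx'
      simp only [Qs, mem_filter, mem_univ, true_and] at hx'
      exact hx'.1 hx
  rw [← sum_fiberwise_of_maps_to hmaps]
  have hfib : ∀ Q ∈ t, ∑ P ∈ PrU V (H.U j) with Qs P = Q, p ^ #(Epair H j P) ≤
      h ^ h / c ^ e * n ^ (-(H.ξ / H.m)) * Lam H j n p := by
    intro Q hQ
    simp only [ht, mem_filter, mem_univ, true_and] at hQ
    set J := #(H.Flt j ∩ (H.U j ∪ Q).sym2) with hJ
    have hJe : J ≤ e := card_le_card inter_subset_left
    have h1 : ∀ P ∈ (PrU V (H.U j)).filter (fun P => Qs P = Q),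
        p ^ #(Epair H j P) ≤ p ^ (2 * e - J) := by
      intro P hP
      rw [mem_filter] at hP
      have hPi := Pr_inj (mem_filter.1 hP.1).1
      apply pow_le_pow_of_le_one hp0.le hp1
      unfold Epair
      have e1 : im (H.Flt j) P.1 ∪ im (H.Flt j) P.2 =
          im (H.Flt j) P.1 ∪ (im (H.Flt j) P.2 \ im (H.Flt j) P.1) := by simp
      rw [e1, card_union_of_disjoint disjoint_sdiff, card_im _ hPi.1]
      have e2 := card_im_sdiff (H.Flt j) hPi.2.1 (im (H.Flt j) P.1)
      have e3 : #{e ∈ H.Flt j | Sym2.map P.2 e ∈ im (H.Flt j) P.1} ≤ J := by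
        apply card_le_card
        intro e' he'
        rw [mem_filter] at he'
        rw [mem_inter]
        refine ⟨he'.1, ?_⟩
        rw [mem_sym2_iff]
        intro x hx
        by_cases hxU : x ∈ H.U j
        · exact mem_union_left _ hxU
        · apply mem_union_right
          rw [← hP.2]
          simp only [Qs, mem_filter, mem_univ, true_and]
          refine ⟨hxU, ?_⟩
          obtain ⟨y, hy⟩ := vertex_of_im he'.2 (Sym2.mem_map.2 ⟨x, hx, rfl⟩)
          exact ⟨y, hy.symm⟩
      rw [← he] at e2 ⊢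
      omega
    have h2 := card_pairs_le' (H.U j) Q hQ.2 ((PrU V (H.U j)).filter (fun P => Qs P = Q)) (by
      intro P hP
      rw [mem_filter] at hP
      have hPi := Pr_inj (mem_filter.1 hP.1).1
      refine ⟨hPi.2.2, ?_⟩
      intro x hx
      rw [← hP.2] at hx
      simp only [Qs, mem_filter, mem_univ, true_and] at hx
      exact hx.2)
    set N := #((PrU V (H.U j)).filter (fun P => Qs P = Q)) with hN
    have h3 : (N : ℝ) * n ^ (#(H.U j) + #Q) ≤ (h : ℝ) ^ h * n ^ (2 * h) := by
      rw [← hn]; exact_mod_cast h2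
    have h4 : c ^ e * n ^ (H.ξ / H.m) ≤ n ^ #Q * p ^ J := by
      have hs : H.U j ⊂ H.U j ∪ Q := by
        refine ⟨subset_union_left, ?_⟩
        intro hsub
        obtain ⟨x, hx⟩ := hQ.1
        exact (Finset.disjoint_left.1 hQ.2) (hsub (mem_union_right _ hx)) hx
      have e1 := H.Flt_inside_slack j (H.U j ∪ Q) hs
      rw [← hJ, card_union_of_disjoint hQ.2] at e1
      push_cast at e1
      have e2 := low hn1 hc H.hm hp J (#Q : ℝ) (H.ξ / H.m) (by
        have : H.m * ((#Q : ℝ) - H.ξ / H.m) = H.m * #Q - H.ξ := by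
          field_simp
        rw [this]
        linarith)
      rw [Real.rpow_natCast] at e2
      refine le_trans ?_ e2
      exact mul_le_mul_of_nonneg_right (pow_le_pow_of_le_one hc.le hc1 hJe) (by positivity)
    calc ∑ P ∈ PrU V (H.U j) with Qs P = Q, p ^ #(Epair H j P)
        ≤ ∑ P ∈ PrU V (H.U j) with Qs P = Q, p ^ (2 * e - J) := sum_le_sum h1
      _ = N * p ^ (2 * e - J) := by rw [sum_const, nsmul_eq_mul]
      _ ≤ _ := by
        have hpos : 0 < n ^ (#(H.U j) + #Q) * p ^ J := by positivity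
        rw [← mul_le_mul_iff_left₀ hpos]
        calc (N : ℝ) * p ^ (2 * e - J) * (n ^ (#(H.U j) + #Q) * p ^ J)
            = (N * n ^ (#(H.U j) + #Q)) * (p ^ (2 * e - J) * p ^ J) := by ring
          _ = (N * n ^ (#(H.U j) + #Q)) * p ^ (2 * e) := by
              rw [← pow_add, Nat.sub_add_cancel (by omega)]
          _ ≤ ((h : ℝ) ^ h * n ^ (2 * h)) * p ^ (2 * e) := by gcongr
          _ ≤ ((h : ℝ) ^ h * n ^ (2 * h)) * p ^ (2 * e) *
              ((n ^ #Q * p ^ J) / (c ^ e * n ^ (H.ξ / H.m))) := by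
              apply le_mul_of_one_le_right (by positivity)
              rw [le_div_iff₀ (by positivity), one_mul]
              exact h4
          _ = h ^ h / c ^ e * n ^ (-(H.ξ / H.m)) * Lam H j n p *
              (n ^ (#(H.U j) + #Q) * p ^ J) := by
              unfold Lam
              rw [← he, ← hh, Real.rpow_neg hn0.le]
              field_simp
              ring
  have htcard : (#t : ℝ) ≤ 2 ^ h := by
    have : #t ≤ 2 ^ h := by
      refine (card_filter_le _ _).trans ?_
      rw [card_univ, Fintype.card_finset]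
    exact_mod_cast this
  calc _ ≤ ∑ _Q ∈ t, (h : ℝ) ^ h / c ^ e * n ^ (-(H.ξ / H.m)) * Lam H j n p := sum_le_sum hfib
    _ = #t * ((h : ℝ) ^ h / c ^ e * n ^ (-(H.ξ / H.m)) * Lam H j n p) := by
        rw [sum_const, nsmul_eq_mul]
    _ ≤ 2 ^ h * ((h : ℝ) ^ h / c ^ e * n ^ (-(H.ξ / H.m)) * Lam H j n p) := by gcongr
    _ = _ := by
        field_simp

/-- Upper tail for the number of edges. -/
lemma ambient_edges (hn : (Fintype.card V : ℝ) = n) (hn1 : 1 ≤ n) (hp0 : 0 < p) (hp1 : p ≤ 1) :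
    pr p (KV V) (fun S => 2 * (n ^ 2 * p) ≤ (#S : ℝ)) ≤ 1 / (n ^ 2 * p) := by
  classical
  have hn0 : 0 < n := by linarith
  have h1 := second_moment (p := p) hp0.le hp1 (KV V) (KV V) (fun e => ({e} : Finset (Sym2 V)))
    (fun e he => by simpa using he) (Λ := n ^ 2 * p) (ζ := 1 / (n ^ 2 * p)) (by positivity)
    (by positivity) (by
      simp only [card_singleton, pow_one, sum_const, nsmul_eq_mul]
      gcongr
      have e1 : #(KV V) ≤ Fintype.card V ^ 2 := by
        have : #(KV V) ≤ Fintype.card (Sym2 V) := card_le_univ _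
        refine this.trans ?_
        have h2 : Fintype.card (Sym2 V) ≤ Fintype.card (V × V) :=
          Fintype.card_le_of_surjective (fun q : V × V => Sym2.mk q.1 q.2) (by
            intro e
            induction e using Sym2.ind with
            | _ a b => exact ⟨(a, b), rfl⟩)
        rw [Fintype.card_prod] at h2
        rw [sq]
        exact h2
      rw [← hn]
      exact_mod_cast e1) (by
      intro e he
      have e1 : (KV V).filter (fun R' => ¬ Disjoint ({e} : Finset (Sym2 V)) {R'}) ⊆ {e} := by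
        intro x hx
        rw [mem_filter, disjoint_singleton, not_not] at hx
        rw [mem_singleton]
        exact hx.2.symm
      calc ∑ R' ∈ (KV V).filter (fun R' => ¬ Disjoint ({e} : Finset (Sym2 V)) {R'}),
            p ^ #(({R'} : Finset (Sym2 V)) \ {e})
          ≤ ∑ R' ∈ ({e} : Finset (Sym2 V)), p ^ #(({R'} : Finset (Sym2 V)) \ {e}) :=
            sum_le_sum_of_subset_of_nonneg e1 (fun _ _ _ => by positivity)
        _ = 1 := by simp
        _ = _ := by field_simp)
  refine le_trans (pr_mono hp0.le hp1 _ ?_) h1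
  intro S hS h
  refine h.trans (le_of_eq ?_)
  congr 1
  congr 1
  ext e
  simp only [mem_filter, singleton_subset_iff]
  exact ⟨fun h => ⟨hS h, h⟩, fun h => h.2⟩

end Ambient

end Pool.Agent.MP_9c932e_co
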