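import Mathlib
import Pool.Agent.Lib.MP_9c932e_co.Regular

/-!
# A removal lemma for linear systems of relations
-/

namespace Pool.Agent.MP_9c932e_co

open Finset

section Dense

variable {W ι : Type} [DecidableEq W] [Fintype W] [Fintype ι] [DecidableEq ι]

/-- indicator function of a finset -/
def ind {X : Type*} [DecidableEq X] (C : Finset X) (x : X) : ℝ := if x ∈ C then 1 else 0

lemma ind_nonneg {X : Type*} [DecidableEq X] (C : Finset X) (x : X) : 0 ≤ ind C x := by
  unfold ind; split_ifs <;> norm_num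

lemma ind_le_one {X : Type*} [DecidableEq X] (C : Finset X) (x : X) : ind C x ≤ 1 := by
  unfold ind; split_ifs <;> norm_num

/-- the box of maps with prescribed cells -/
def box {V P : Type} [Fintype V] [DecidableEq P] (π : V → P) (c : W → P) : Finset (W → V) :=
  {φ | ∀ x, π (φ x) = c x}

/-- gluing of maps -/
def glue {V : Type} (T : Finset W) (ψ : T → V) (χ : {x // x ∉ T} → V) : W → V :=
  fun x => if h : x ∈ T then ψ ⟨x, h⟩ else χ ⟨x, h⟩

lemma sum_glue {V : Type} [Fintype V] (T : Finset W) (F : (W → V) → ℝ) :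
    ∑ φ, F φ = ∑ χ : {x // x ∉ T} → V, ∑ ψ : T → V, F (glue T ψ χ) := by
  classical
  rw [← Fintype.sum_prod_type_right']
  apply Fintype.sum_equiv (Equiv.piEquivPiSubtypeProd (fun x => x ∈ T) (fun _ => V))
  intro φ
  congr 1
  ext x
  simp only [glue, Equiv.piEquivPiSubtypeProd_apply]
  split_ifs <;> rfl

omit [Fintype W] in
lemma glue_mem {V : Type} {T : Finset W} (ψ : T → V) (χ : {x // x ∉ T} → V) {x : W} (h : x ∈ T) :
    glue T ψ χ x = ψ ⟨x, h⟩ := by simp [glue, h]

omit [Fintype W] in
lemma glue_not_mem {V : Type} {T : Finset W} (ψ : T → V) (χ : {x // x ∉ T} → V) {x : W}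
    (h : x ∉ T) : glue T ψ χ x = χ ⟨x, h⟩ := by simp [glue, h]

omit [Fintype W] in
lemma res_glue {V : Type} {T : Finset W} (ψ : T → V) (χ : {x // x ∉ T} → V) :
    res T (glue T ψ χ) = ψ := by
  ext x
  simp [res, glue]

/-- The error term in the counting lemma. -/
lemma count_error {V P : Type} [Fintype V] [Nonempty V] [DecidableEq V] [DecidableEq P]
    (U : ι → Finset W) (hlin : ∀ i j, i ≠ j → #(U i ∩ U j) ≤ 1)
    (C : ∀ i, Finset (U i → V)) (π : V → P) (c : W → P) (η : ℝ) (hη : 0 ≤ η)
    (s : Finset ι) (j : ι) (hj : j ∉ s)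
    (hreg : IsReg π (U j) (ind (C j)) η (fun x => c x)) :
    |∑ φ ∈ box π c with ∀ i ∈ s, res (U i) φ ∈ C i,
      (ind (C j) (res (U j) φ) - avg (cm π (U j)) (ind (C j)) (fun x => c x))| ≤
      η * #(box π c) := by
  classical
  set T := U j with hT
  set q : T → P := fun x => c x with hq
  set d := avg (cm π T) (ind (C j)) q with hd
  obtain ⟨v0⟩ := (inferInstance : Nonempty V)
  -- outside cell
  let Out : Finset ({x // x ∉ T} → V) := {χ | ∀ x, π (χ x) = c x}
  have hbox : ∀ (ψ : T → V) (χ : {x // x ∉ T} → V), glue T ψ χ ∈ box π c ↔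
      (ψ ∈ fib (cm π T) q ∧ χ ∈ Out) := by
    intro ψ χ
    simp only [box, mem_filter, mem_univ, true_and, mem_fib, Out]
    constructor
    · intro h
      refine ⟨?_, ?_⟩
      · ext x
        have := h x
        rw [glue_mem ψ χ x.2] at this
        exact this
      · intro x
        have := h x
        rw [glue_not_mem ψ χ x.2] at this
        exact this
    · rintro ⟨h1, h2⟩ x
      by_cases hx : x ∈ T
      · rw [glue_mem ψ χ hx]
        exact congrFun h1 ⟨x, hx⟩
      · rw [glue_not_mem ψ χ hx]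
        exact h2 ⟨x, hx⟩
  let base : ({x // x ∉ T} → V) → W → V := fun χ => glue T (fun _ => v0) χ
  let A : ({x // x ∉ T} → V) → T → Finset V := fun χ x =>
    {v | ∀ i ∈ s, (x : W) ∈ U i → res (U i) (Function.update (base χ) x v) ∈ C i}
  let B : ({x // x ∉ T} → V) → Prop := fun χ =>
    ∀ i ∈ s, Disjoint (U i) T → res (U i) (base χ) ∈ C i
  have hcond : ∀ (ψ : T → V) (χ : {x // x ∉ T} → V),
      (∀ i ∈ s, res (U i) (glue T ψ χ) ∈ C i) ↔ ((∀ x, ψ x ∈ A χ x) ∧ B χ) := by
    intro ψ χ
    have h1 : ∀ i ∈ s, ∀ x : T, (x : W) ∈ U i →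
        res (U i) (glue T ψ χ) = res (U i) (Function.update (base χ) x (ψ x)) := by
      intro i hi x hx
      ext y
      simp only [res]
      by_cases hyx : (y : W) = x
      · rw [hyx, Function.update_self, glue_mem ψ χ x.2]
      · rw [Function.update_of_ne hyx]
        have hyT : (y : W) ∉ T := by
          intro hyT
          have hij : i ≠ j := fun h => hj (h ▸ hi)
          have hc := hlin i j hij
          have : #{(y : W), (x : W)} ≤ 1 := by
            refine le_trans (card_le_card ?_) hc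
            intro z hz
            rw [mem_insert, mem_singleton] at hz
            rcases hz with rfl | rfl
            · exact mem_inter.2 ⟨y.2, hyT⟩
            · exact mem_inter.2 ⟨hx, x.2⟩
          rw [card_pair hyx] at this
          omega
        simp only [base]
        rw [glue_not_mem _ _ hyT, glue_not_mem _ _ hyT]
    have h2 : ∀ i, Disjoint (U i) T → res (U i) (glue T ψ χ) = res (U i) (base χ) := by
      intro i hi
      ext y
      simp only [res, base]
      have hyT : (y : W) ∉ T := fun h => (Finset.disjoint_left.1 hi) y.2 h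
      rw [glue_not_mem _ _ hyT, glue_not_mem _ _ hyT]
    constructor
    · intro h
      refine ⟨?_, ?_⟩
      · intro x
        simp only [A, mem_filter, mem_univ, true_and]
        intro i hi hx
        rw [← h1 i hi x hx]
        exact h i hi
      · intro i hi hdis
        rw [← h2 i hdis]
        exact h i hi
    · rintro ⟨ha, hb⟩ i hi
      by_cases hdis : Disjoint (U i) T
      · rw [h2 i hdis]
        exact hb i hi hdis
      · rw [Finset.not_disjoint_iff] at hdis
        obtain ⟨x, hxi, hxT⟩ := hdis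
        rw [h1 i hi ⟨x, hxT⟩ hxi]
        have := ha ⟨x, hxT⟩
        simp only [A, mem_filter, mem_univ, true_and] at this
        exact this i hi hxi
  have hcardbox : (#(box π c) : ℝ) = #Out * #(fib (cm π T) q) := by
    have h1 : (#(box π c) : ℝ) = ∑ φ : W → V, if φ ∈ box π c then (1 : ℝ) else 0 := by
      simp
    rw [h1, sum_glue T]
    simp_rw [hbox]
    have : ∀ χ : {x // x ∉ T} → V, (∑ ψ : T → V, if ψ ∈ fib (cm π T) q ∧ χ ∈ Out then (1 : ℝ) else 0)
        = if χ ∈ Out then (#(fib (cm π T) q) : ℝ) else 0 := by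
      intro χ
      by_cases hχ : χ ∈ Out
      · simp [hχ, fib]
      · simp [hχ]
    simp_rw [this]
    rw [← sum_filter]
    simp
  have hsum : ∑ φ ∈ box π c with ∀ i ∈ s, res (U i) φ ∈ C i, (ind (C j) (res T φ) - d)
      = ∑ χ : {x // x ∉ T} → V, if (χ ∈ Out ∧ B χ) then
          (∑ ψ ∈ fib (cm π T) q with ∀ x, ψ x ∈ A χ x,
            (ind (C j) ψ - avg (cm π T) (ind (C j)) (cm π T ψ))) else 0 := by
    have h1 : ∑ φ ∈ box π c with ∀ i ∈ s, res (U i) φ ∈ C i, (ind (C j) (res T φ) - d)
        = ∑ φ : W → V, if (φ ∈ box π c ∧ ∀ i ∈ s, res (U i) φ ∈ C i) then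
          (ind (C j) (res T φ) - d) else 0 := by
      rw [← sum_filter]
      apply sum_congr _ (fun _ _ => rfl)
      ext φ
      simp
    rw [h1, sum_glue T]
    apply sum_congr rfl
    intro χ _
    simp_rw [hbox, hcond, res_glue]
    by_cases hχ : χ ∈ Out ∧ B χ
    · rw [if_pos hχ, sum_filter, ← sum_filter_add_sum_filter_not univ (fun ψ => ψ ∈ fib (cm π T) q)]
      have e1 : ∑ ψ ∈ univ.filter (fun ψ : T → V => ¬ ψ ∈ fib (cm π T) q),
          (if (ψ ∈ fib (cm π T) q ∧ χ ∈ Out) ∧ (∀ x, ψ x ∈ A χ x) ∧ B χ then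
          ind (C j) ψ - d else 0) = 0 := by
        apply sum_eq_zero
        intro ψ hψ
        rw [mem_filter] at hψ
        simp [hψ.2]
      rw [e1, add_zero]
      apply sum_congr
      · ext ψ; simp
      · intro ψ hψ
        have hψ' : cm π T ψ = q := (mem_fib _ _ _).1 hψ
        rw [hψ']
        simp only [hψ, hχ.1, hχ.2, and_true, true_and]
        rfl
    · rw [if_neg hχ]
      apply sum_eq_zero
      intro ψ _
      rw [if_neg]
      rintro ⟨⟨_, h1⟩, _, h2⟩
      exact hχ ⟨h1, h2⟩
  rw [hsum, hcardbox]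
  calc |∑ χ : {x // x ∉ T} → V, if (χ ∈ Out ∧ B χ) then
          (∑ ψ ∈ fib (cm π T) q with ∀ x, ψ x ∈ A χ x,
            (ind (C j) ψ - avg (cm π T) (ind (C j)) (cm π T ψ))) else 0|
      ≤ ∑ χ : {x // x ∉ T} → V, |if (χ ∈ Out ∧ B χ) then
          (∑ ψ ∈ fib (cm π T) q with ∀ x, ψ x ∈ A χ x,
            (ind (C j) ψ - avg (cm π T) (ind (C j)) (cm π T ψ))) else 0| := abs_sum_le_sum_abs _ _
    _ ≤ ∑ χ : {x // x ∉ T} → V, if χ ∈ Out then η * #(fib (cm π T) q) else 0 := by
        apply sum_le_sum
        intro χ _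
        by_cases h1 : χ ∈ Out
        · by_cases h2 : B χ
          · rw [if_pos ⟨h1, h2⟩, if_pos h1]
            exact hreg (A χ)
          · rw [if_neg (fun h => h2 h.2), if_pos h1, abs_zero]
            positivity
        · rw [if_neg (fun h => h1 h.1), if_neg h1, abs_zero]
    _ = η * (#Out * #(fib (cm π T) q)) := by
        rw [← sum_filter]
        simp
        ring

/-- The counting lemma. -/
lemma count_lower {V P : Type} [Fintype V] [Nonempty V] [DecidableEq V] [DecidableEq P]
    (U : ι → Finset W) (hlin : ∀ i j, i ≠ j → #(U i ∩ U j) ≤ 1)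
    (C : ∀ i, Finset (U i → V)) (π : V → P) (c : W → P) (η d0 : ℝ) (hη : 0 ≤ η)
    (hd0 : 0 ≤ d0) (hd1 : d0 ≤ 1)
    (hreg : ∀ i, IsReg π (U i) (ind (C i)) η (fun x => c x))
    (hd : ∀ i, d0 ≤ avg (cm π (U i)) (ind (C i)) (fun x => c x)) (s : Finset ι) :
    (d0 ^ #s - #s * η) * #(box π c) ≤ #{φ ∈ box π c | ∀ i ∈ s, res (U i) φ ∈ C i} := by
  classical
  induction s using Finset.induction_on with
  | empty => simp
  | insert j s hj ih =>
    have herr := count_error U hlin C π c η hη s j hj (hreg j)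
    set d := avg (cm π (U j)) (ind (C j)) (fun x => c x) with hdd
    have h1 : ∑ φ ∈ box π c with ∀ i ∈ s, res (U i) φ ∈ C i, (ind (C j) (res (U j) φ) - d) =
        #{φ ∈ box π c | ∀ i ∈ insert j s, res (U i) φ ∈ C i} -
        d * #{φ ∈ box π c | ∀ i ∈ s, res (U i) φ ∈ C i} := by
      rw [sum_sub_distrib]
      congr 1
      · simp only [ind]
        rw [← sum_filter, filter_filter]
        simp only [sum_const, nsmul_eq_mul, mul_one]
        congr 2
        ext φ
        simp only [mem_filter, mem_insert, forall_eq_or_imp]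
        tauto
      · rw [sum_const, nsmul_eq_mul, mul_comm]
    rw [h1] at herr
    have h2 := (abs_le.1 herr).1
    rw [card_insert_of_notMem hj]
    push_cast
    have h3 : d0 * #{φ ∈ box π c | ∀ i ∈ s, res (U i) φ ∈ C i} ≤
        d * #{φ ∈ box π c | ∀ i ∈ s, res (U i) φ ∈ C i} := by
      gcongr
      exact hd j
    have h4 : d0 * ((d0 ^ #s - #s * η) * #(box π c)) ≤
        d0 * #{φ ∈ box π c | ∀ i ∈ s, res (U i) φ ∈ C i} := by
      gcongr
    have h5 : (d0 ^ (#s + 1) - (#s + 1) * η) * (#(box π c) : ℝ) ≤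
        d0 * ((d0 ^ #s - #s * η) * #(box π c)) - η * #(box π c) := by
      have : (d0 ^ (#s + 1) - (#s + 1) * η) * (#(box π c) : ℝ) =
        d0 * ((d0 ^ #s - #s * η) * #(box π c)) - η * #(box π c)
         - (1 - d0) * (#s * η * #(box π c)) := by ring
      rw [this]
      have : 0 ≤ (1 - d0) * (#s * η * (#(box π c) : ℝ)) := by
        have : 0 ≤ 1 - d0 := by linarith
        positivity
      linarith
    linarith

lemma card_box {V P : Type} [Fintype V] [DecidableEq V] [DecidableEq P] (π : V → P) (c : W → P) :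
    #(box π c) = ∏ x, #(fib π (c x)) := by
  rw [← Fintype.card_piFinset]
  congr 1
  ext φ
  simp [box, Fintype.mem_piFinset]

lemma card_coord {V T : Type} [Fintype V] [DecidableEq V] [Fintype T] [DecidableEq T] (x : T)
    (S : Finset V) :
    (#{ψ : T → V | ψ x ∈ S} : ℝ) * Fintype.card V = #S * (Fintype.card V : ℝ) ^ Fintype.card T := by
  have h1 : (univ.filter (fun ψ : T → V => ψ x ∈ S)) =
      Fintype.piFinset (fun y => if y = x then S else univ) := by
    ext ψ
    simp only [mem_filter, mem_univ, true_and, Fintype.mem_piFinset]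
    constructor
    · intro h y
      by_cases hy : y = x
      · simp [hy, h]
      · simp [hy]
    · intro h
      simpa using h x
  rw [h1, Fintype.card_piFinset]
  have h2 : ∀ y, #(if y = x then S else univ) = if y = x then #S else Fintype.card V := by
    intro y
    split_ifs <;> simp
  simp_rw [h2]
  have h3 : ((∏ y : T, if y = x then #S else Fintype.card V : ℕ) : ℝ) * Fintype.card V =
      ∏ y : T, if y = x then (#S : ℝ) * Fintype.card V else Fintype.card V := by
    push_cast
    have : (Fintype.card V : ℝ) = ∏ y : T, if y = x then (Fintype.card V : ℝ) else 1 := by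
      rw [Fintype.prod_ite_eq']
    nth_rewrite 2 [this]
    rw [← prod_mul_distrib]
    apply prod_congr rfl
    intro y _
    split_ifs <;> simp
  have h4 : (#S : ℝ) * (Fintype.card V : ℝ) ^ Fintype.card T =
      ∏ y : T, if y = x then (#S : ℝ) * Fintype.card V else Fintype.card V := by
    have : (#S : ℝ) = ∏ y : T, if y = x then (#S : ℝ) else 1 := by
      rw [Fintype.prod_ite_eq']
    nth_rewrite 1 [this]
    have h5 : (Fintype.card V : ℝ) ^ Fintype.card T = ∏ _y : T, (Fintype.card V : ℝ) := by simp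
    rw [h5, ← prod_mul_distrib]
    apply prod_congr rfl
    intro y _
    split_ifs <;> simp
  rw [h3, h4]

/-- few members of `C` lie in cells of small density -/
lemma card_low {X Q : Type} [Fintype X] [DecidableEq X] [Fintype Q] [DecidableEq Q] (κ : X → Q)
    (C : Finset X) (d : ℝ) (hd : 0 ≤ d) :
    (#{ψ ∈ C | avg κ (ind C) (κ ψ) < d} : ℝ) ≤ d * Fintype.card X := by
  have h1 : (#{ψ ∈ C | avg κ (ind C) (κ ψ) < d} : ℝ) =
      ∑ ψ, ind C ψ * (if avg κ (ind C) (κ ψ) < d then 1 else 0) := by
    have : ∀ ψ, ind C ψ * (if avg κ (ind C) (κ ψ) < d then (1 : ℝ) else 0) =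
        if (ψ ∈ C ∧ avg κ (ind C) (κ ψ) < d) then 1 else 0 := by
      intro ψ
      simp only [ind]
      by_cases h1 : ψ ∈ C <;> simp [h1]
    simp_rw [this]
    rw [← sum_filter]
    simp only [sum_const, nsmul_eq_mul, mul_one]
    congr 2
    ext ψ
    simp
  have h2 := avg_orth κ (ind C) (fun q => if avg κ (ind C) q < d then 1 else 0)
  have h3 : ∑ ψ, ind C ψ * (if avg κ (ind C) (κ ψ) < d then (1 : ℝ) else 0) =
      ∑ ψ, avg κ (ind C) (κ ψ) * (if avg κ (ind C) (κ ψ) < d then 1 else 0) := by
    have : ∑ ψ, ind C ψ * (if avg κ (ind C) (κ ψ) < d then (1 : ℝ) else 0) -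
      ∑ ψ, avg κ (ind C) (κ ψ) * (if avg κ (ind C) (κ ψ) < d then 1 else 0) =
      ∑ x, (ind C x - avg κ (ind C) (κ x)) * (if avg κ (ind C) (κ x) < d then 1 else 0) := by
      rw [← sum_sub_distrib]
      apply sum_congr rfl
      intro ψ _
      ring
    linarith
  rw [h1, h3]
  calc ∑ ψ, avg κ (ind C) (κ ψ) * (if avg κ (ind C) (κ ψ) < d then (1 : ℝ) else 0)
      ≤ ∑ _ψ : X, d := by
        apply sum_le_sum
        intro ψ _
        split_ifs with h
        · rw [mul_one]; exact h.le
        · rw [mul_zero]; exact hd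
    _ = d * Fintype.card X := by simp [mul_comm]

/-- Few vertices lie in small parts. -/
lemma card_small {V P : Type} [Fintype V] [DecidableEq V] [Fintype P] [DecidableEq P] (π : V → P)
    (t : ℝ) (ht : 0 ≤ t) : (#{v : V | (#(fib π (π v)) : ℝ) < t} : ℝ) ≤ Fintype.card P * t := by
  have h1 : (#{v : V | (#(fib π (π v)) : ℝ) < t} : ℝ) =
      ∑ p : P, (#{v ∈ {v : V | (#(fib π (π v)) : ℝ) < t} | π v = p} : ℝ) := by
    rw [Finset.card_eq_sum_card_fiberwise (f := π) (t := univ) (fun _ _ => by simp)]
    push_cast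
    rfl
  rw [h1]
  calc ∑ p : P, (#{v ∈ {v : V | (#(fib π (π v)) : ℝ) < t} | π v = p} : ℝ)
      ≤ ∑ _p : P, t := by
        apply sum_le_sum
        intro p _
        by_cases hp : (#(fib π p) : ℝ) < t
        · refine le_trans ?_ hp.le
          exact_mod_cast card_le_card (fun v hv => by
            simp only [mem_filter, mem_univ, true_and] at hv
            simp [hv.2])
        · have : (univ.filter (fun v : V => (#(fib π (π v)) : ℝ) < t)).filter (fun v => π v = p)
              = ∅ := by
            rw [filter_eq_empty_iff]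
            intro v hv h
            simp only [mem_filter, mem_univ, true_and] at hv
            rw [h] at hv
            exact hp hv
          rw [this]
          simpa using ht
    _ = _ := by simp

/-- **Removal lemma for linear systems.** -/
theorem dense_removal (U : ι → Finset W) (hlin : ∀ i j, i ≠ j → #(U i ∩ U j) ≤ 1)
    {γ : ℝ} (hγ : 0 < γ) :
    ∃ δ : ℝ, 0 < δ ∧ ∀ (V : Type) [Fintype V] [Nonempty V] [DecidableEq V]
      (C : ∀ i, Finset (U i → V)),
      (#{φ : W → V | ∀ i, res (U i) φ ∈ C i} : ℝ) ≤ δ * (Fintype.card V : ℝ) ^ Fintype.card W →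
      ∃ D : ∀ i, Finset (U i → V), (∀ i, (#(D i) : ℝ) ≤ γ * (Fintype.card V : ℝ) ^ #(U i)) ∧
        ∀ φ : W → V, ∃ i, res (U i) φ ∉ C i ∨ res (U i) φ ∈ D i := by
  classical
  set γ1 := min γ 1 with hγ1
  have hγ1pos : 0 < γ1 := lt_min hγ one_pos
  have hγ1le : γ1 ≤ γ := min_le_left _ _
  have hγ1one : γ1 ≤ 1 := min_le_right _ _
  set k := Fintype.card ι with hk
  set h := Fintype.card W with hh
  set d0 := γ1 / 3 with hd0
  have hd0pos : 0 < d0 := by positivity
  have hd0one : d0 ≤ 1 := by rw [hd0]; linarith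
  set η := d0 ^ k / (2 * (k + 1)) with hη
  have hηpos : 0 < η := by positivity
  obtain ⟨M, hM⟩ := exists_regular U hηpos (show 0 < γ1 / 3 by positivity)
  set ξ := γ1 / (3 * (h + 1) * (M + 1)) with hξ
  have hξpos : 0 < ξ := by positivity
  refine ⟨d0 ^ k / 2 * ξ ^ h / 2, by positivity, ?_⟩
  intro V _ _ _ C hC
  set n := Fintype.card V with hn
  have hnpos : 0 < n := Fintype.card_pos
  have hnR : (0 : ℝ) < n := by exact_mod_cast hnpos
  obtain ⟨P, hP1, hP2, π, hPM, hreg⟩ := hM V (fun i => ind (C i)) (fun i => ind_nonneg _)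
    (fun i => ind_le_one _)
  let D : ∀ i, Finset (U i → V) := fun i =>
    {ψ ∈ C i | ¬ IsReg π (U i) (ind (C i)) η (cm π (U i) ψ) ∨
      avg (cm π (U i)) (ind (C i)) (cm π (U i) ψ) < d0 ∨
      ∃ x : U i, (#(fib π (π (ψ x))) : ℝ) < ξ * n}
  have hsmallV : (#{v : V | (#(fib π (π v)) : ℝ) < ξ * n} : ℝ) ≤ M * (ξ * n) := by
    refine (card_small π (ξ * n) (by positivity)).trans ?_
    have : (Fintype.card P : ℝ) ≤ M := by exact_mod_cast hPM
    gcongr
  refine ⟨D, ?_, ?_⟩
  · intro i
    have hsub : D i ⊆ (univ.filter (fun ψ : U i → V => ¬ IsReg π (U i) (ind (C i)) η (cm π (U i) ψ)))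
        ∪ ({ψ ∈ C i | avg (cm π (U i)) (ind (C i)) (cm π (U i) ψ) < d0} ∪
          (univ : Finset (U i)).biUnion (fun x => {ψ : U i → V | ψ x ∈
            univ.filter (fun v : V => (#(fib π (π v)) : ℝ) < ξ * n)})) := by
      intro ψ hψ
      simp only [D, mem_filter] at hψ
      simp only [mem_union, mem_filter, mem_univ, true_and, mem_biUnion]
      rcases hψ.2 with h1 | h1 | h1
      · exact Or.inl h1
      · exact Or.inr (Or.inl ⟨hψ.1, h1⟩)
      · exact Or.inr (Or.inr h1)
    have h1 : (#(univ.filter (fun ψ : U i → V =>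
        ¬ IsReg π (U i) (ind (C i)) η (cm π (U i) ψ))) : ℝ) ≤ γ1 / 3 * (n : ℝ) ^ #(U i) := by
      have := hreg i
      rw [Nat.card_eq_fintype_card, Fintype.card_subtype] at this
      exact this
    have h2 : (#{ψ ∈ C i | avg (cm π (U i)) (ind (C i)) (cm π (U i) ψ) < d0} : ℝ) ≤
        γ1 / 3 * (n : ℝ) ^ #(U i) := by
      refine (card_low (cm π (U i)) (C i) d0 hd0pos.le).trans (le_of_eq ?_)
      simp [hd0, hn]
    have h3 : (#((univ : Finset (U i)).biUnion (fun x => {ψ : U i → V | ψ x ∈
            univ.filter (fun v : V => (#(fib π (π v)) : ℝ) < ξ * n)})) : ℝ) ≤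
        γ1 / 3 * (n : ℝ) ^ #(U i) := by
      calc (#((univ : Finset (U i)).biUnion (fun x => {ψ : U i → V | ψ x ∈
            univ.filter (fun v : V => (#(fib π (π v)) : ℝ) < ξ * n)})) : ℝ)
          ≤ ∑ x : U i, (#{ψ : U i → V | ψ x ∈
            univ.filter (fun v : V => (#(fib π (π v)) : ℝ) < ξ * n)} : ℝ) := by
            exact_mod_cast card_biUnion_le
        _ ≤ ∑ _x : U i, M * ξ * (n : ℝ) ^ #(U i) := by
            apply sum_le_sum
            intro x _
            have e1 := card_coord (V := V) x (univ.filter (fun v : V => (#(fib π (π v)) : ℝ) < ξ * n))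
            rw [Fintype.card_coe] at e1
            have e2 : (#{ψ : U i → V | ψ x ∈
              univ.filter (fun v : V => (#(fib π (π v)) : ℝ) < ξ * n)} : ℝ) * n ≤
              (M * ξ * (n : ℝ) ^ #(U i)) * n := by
              rw [e1]
              calc _ ≤ (M * (ξ * n)) * (n : ℝ) ^ #(U i) := by
                    gcongr
                _ = _ := by ring
            exact le_of_mul_le_mul_right e2 hnR
        _ = #(U i) * (M * ξ * (n : ℝ) ^ #(U i)) := by simp
        _ ≤ h * (M * ξ * (n : ℝ) ^ #(U i)) := by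
            gcongr
            rw [hh]
            exact card_le_univ _
        _ ≤ γ1 / 3 * (n : ℝ) ^ #(U i) := by
            have : (h : ℝ) * (M * ξ) ≤ γ1 / 3 := by
              rw [hξ]
              have e3 : (h : ℝ) * (M * (γ1 / (3 * (h + 1) * (M + 1)))) =
                γ1 / 3 * ((h / (h + 1)) * (M / (M + 1))) := by
                field_simp
              rw [e3]
              have e4 : (h : ℝ) / (h + 1) ≤ 1 := by
                rw [div_le_one (by positivity)]; linarith
              have e5 : (M : ℝ) / (M + 1) ≤ 1 := by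
                rw [div_le_one (by positivity)]; linarith
              have e6 : (h : ℝ) / (h + 1) * (M / (M + 1)) ≤ 1 * 1 := by
                gcongr
              have e7 : γ1 / 3 * ((h / (h + 1)) * (M / (M + 1))) ≤ γ1 / 3 * (1 * 1) := by
                gcongr
              linarith
            calc (h : ℝ) * (M * ξ * (n : ℝ) ^ #(U i)) = (h * (M * ξ)) * (n : ℝ) ^ #(U i) := by ring
              _ ≤ _ := by gcongr
    have hc1 := (card_le_card hsub).trans ((card_union_le _ _).trans
      (Nat.add_le_add_left (card_union_le _ _) _))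
    have hc2 := (Nat.cast_le (α := ℝ)).2 hc1
    push_cast at hc2
    calc (#(D i) : ℝ) ≤ _ := hc2
      _ ≤ γ1 / 3 * (n : ℝ) ^ #(U i) + (γ1 / 3 * (n : ℝ) ^ #(U i) + γ1 / 3 * (n : ℝ) ^ #(U i)) := by
          gcongr
      _ = γ1 * (n : ℝ) ^ #(U i) := by ring
      _ ≤ γ * (n : ℝ) ^ #(U i) := by gcongr
  · intro φ
    by_contra hcon
    push Not at hcon
    -- a vertex in a large part
    have hv0 : ∃ v0 : V, ξ * n ≤ #(fib π (π v0)) := by
      by_contra hno
      push Not at hno
      have h1 : (univ.filter (fun v : V => (#(fib π (π v)) : ℝ) < ξ * n)) = univ := by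
        rw [filter_eq_self]
        intro v _
        exact hno v
      rw [h1, card_univ, ← hn] at hsmallV
      have h2 : (M : ℝ) * ξ < 1 := by
        rw [hξ]
        have e3 : (M : ℝ) * (γ1 / (3 * (h + 1) * (M + 1))) =
          γ1 * ((1 / (3 * (h + 1))) * (M / (M + 1))) := by
          field_simp
        rw [e3]
        have e5 : (M : ℝ) / (M + 1) ≤ 1 := by
          rw [div_le_one (by positivity)]; linarith
        have e6 : (1 : ℝ) / (3 * (h + 1)) < 1 := by
          rw [div_lt_one (by positivity)]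
          have : (0 : ℝ) ≤ h := Nat.cast_nonneg _
          linarith
        have e7 : (0 : ℝ) ≤ M / (M + 1) := by positivity
        have e8 : (0 : ℝ) < 1 / (3 * (h + 1)) := by positivity
        have e9 : (1 : ℝ) / (3 * (h + 1)) * (M / (M + 1)) < 1 := by nlinarith
        have e10 : 0 ≤ (1 : ℝ) / (3 * (h + 1)) * (M / (M + 1)) := by positivity
        nlinarith
      nlinarith
    obtain ⟨v0, hv0⟩ := hv0
    let φ' : W → V := fun x => if ∃ i, x ∈ U i then φ x else v0
    have hres : ∀ i, res (U i) φ' = res (U i) φ := by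
      intro i
      ext x
      simp only [res, φ']
      rw [if_pos ⟨i, x.2⟩]
    let c : W → P := fun x => π (φ' x)
    have hgood : ∀ i, IsReg π (U i) (ind (C i)) η (cm π (U i) (res (U i) φ)) ∧
        d0 ≤ avg (cm π (U i)) (ind (C i)) (cm π (U i) (res (U i) φ)) ∧
        ∀ x : U i, ξ * n ≤ #(fib π (π (φ x))) := by
      intro i
      have h1 := hcon i
      have h2 : ¬ (res (U i) φ ∈ D i) := h1.2
      simp only [D, mem_filter, not_and, not_or, not_not, not_lt, not_exists] at h2
      exact h2 h1.1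
    have hcell : ∀ i, (fun x : U i => c x) = cm π (U i) (res (U i) φ) := by
      intro i
      ext x
      simp only [c, cm]
      rw [← hres i]
      rfl
    have hpart : ∀ x, ξ * n ≤ #(fib π (c x)) := by
      intro x
      by_cases hx : ∃ i, x ∈ U i
      · obtain ⟨i, hi⟩ := hx
        have := (hgood i).2.2 ⟨x, hi⟩
        simp only [c, φ']
        rw [if_pos ⟨i, hi⟩]
        exact this
      · simp only [c, φ']
        rw [if_neg hx]
        exact hv0
    have hcount := count_lower U hlin C π c η d0 hηpos.le hd0pos.le hd0one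
      (fun i => by rw [hcell i]; exact (hgood i).1)
      (fun i => by rw [hcell i]; exact (hgood i).2.1) univ
    have hbox : (ξ * n) ^ h ≤ (#(box π c) : ℝ) := by
      rw [card_box]
      push_cast
      calc (ξ * n) ^ h = ∏ _x : W, (ξ * n) := by simp [hh]
        _ ≤ _ := prod_le_prod (fun _ _ => by positivity) (fun x _ => hpart x)
    have hconst : d0 ^ k / 2 ≤ d0 ^ k - k * η := by
      rw [hη]
      have : (k : ℝ) * (d0 ^ k / (2 * (k + 1))) = d0 ^ k / 2 * (k / (k + 1)) := by
        field_simp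
      rw [this]
      have e5 : (k : ℝ) / (k + 1) ≤ 1 := by
        rw [div_le_one (by positivity)]; linarith
      have : d0 ^ k / 2 * ((k : ℝ) / (k + 1)) ≤ d0 ^ k / 2 * 1 := by gcongr
      linarith
    have hcard : (#{φ ∈ box π c | ∀ i ∈ (univ : Finset ι), res (U i) φ ∈ C i} : ℝ) ≤
        #{φ : W → V | ∀ i, res (U i) φ ∈ C i} := by
      apply Nat.cast_le.2
      apply card_le_card
      intro φ hφ
      simp only [mem_filter, mem_univ, true_and, true_implies] at hφ ⊢
      exact hφ.2
    rw [card_univ, ← hk] at hcount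
    have hfinal : d0 ^ k / 2 * (ξ * n) ^ h ≤ d0 ^ k / 2 * ξ ^ h / 2 * (n : ℝ) ^ h := by
      calc d0 ^ k / 2 * (ξ * n) ^ h ≤ (d0 ^ k - k * η) * #(box π c) := by
            gcongr
            exact le_trans (by positivity) hconst
        _ ≤ _ := hcount
        _ ≤ _ := hcard
        _ ≤ _ := hC
    rw [mul_pow] at hfinal
    have hpos : 0 < d0 ^ k / 2 * (ξ ^ h * (n : ℝ) ^ h) := by positivity
    nlinarith

end Dense

end Pool.Agent.MP_9c932e_co
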