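import Mathlib
import Pool.Agent.Lib.MP_9c932e_co.Ambient
import Pool.Agent.Lib.MP_9c932e_co.Dense

/-!
# The container step
-/

set_option linter.unusedSectionVars false

namespace Pool.Agent.MP_9c932e_co

open Finset

section Step

variable {W : Type} [Fintype W] [DecidableEq W] {k : ℕ} (H : Pattern W k)
  {V : Type} [Fintype V] [DecidableEq V]

/-- Injective maps whose first `j` clusters are present in `G` and whose other clusters belong to
the containers `C`. -/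
noncomputable def Xc (j : ℕ) (G : Finset (Sym2 V)) (C : ∀ i : Fin k, Finset (H.U i → V)) :
    Finset (W → V) :=
  {φ | Function.Injective φ ∧ im (H.Flt j) φ ⊆ G ∧ ∀ i : Fin k, j ≤ i → res (H.U i) φ ∈ C i}

/-- The maps counted by the dual function at `x`. -/
noncomputable def Ns (j : Fin k) (S : Finset (Sym2 V)) (C : ∀ i : Fin k, Finset (H.U i → V))
    (x : H.U j → V) : Finset (W → V) :=
  {φ | Function.Injective φ ∧ res (H.U j) φ = x ∧ im (H.Flt j) φ ⊆ S ∧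
    ∀ i : Fin k, j < i → res (H.U i) φ ∈ C i}

noncomputable def Zs (j : Fin k) (S G : Finset (Sym2 V)) (C : ∀ i : Fin k, Finset (H.U i → V)) :
    Finset (W → V) :=
  {φ | Function.Injective φ ∧ im (H.Flt j) φ ⊆ S ∧ im (H.F j) φ ⊆ G ∧
    ∀ i : Fin k, j < i → res (H.U i) φ ∈ C i}

/-- elements of the container where the dual function is large -/
noncomputable def Nbig (j : Fin k) (S : Finset (Sym2 V)) (C : ∀ i : Fin k, Finset (H.U i → V))
    (t : ℝ) : Finset (H.U j → V) := {x ∈ C j | t ≤ #(Ns H j S C x)}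

/-- edges of a potential copy of a cluster -/
noncomputable def cim [Nonempty V] (j : Fin k) (x : H.U j → V) : Finset (Sym2 V) :=
  im (H.F j) (glue (H.U j) x (fun _ => Classical.arbitrary V))

lemma cim_res [Nonempty V] (j : Fin k) (φ : W → V) : cim H j (res (H.U j) φ) = im (H.F j) φ := by
  unfold cim
  apply im_congr (U := H.U j)
  · exact inter_subset_right
  · intro x hx
    rw [glue_mem _ _ hx]
    rfl

/-- copies of a cluster in `G` -/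
noncomputable def Gj [Nonempty V] (j : Fin k) (G : Finset (Sym2 V)) : Finset (H.U j → V) := by
  classical
  exact univ.filter (fun x => (∃ φ : W → V, Function.Injective φ ∧ res (H.U j) φ = x) ∧
    cim H j x ⊆ G)

lemma mem_Gj [Nonempty V] {j : Fin k} {G : Finset (Sym2 V)} {x : H.U j → V} :
    x ∈ Gj H j G ↔ (∃ φ : W → V, Function.Injective φ ∧ res (H.U j) φ = x) ∧
    cim H j x ⊆ G := by
  simp [Gj]

lemma card_cim [Nonempty V] {j : Fin k} {G : Finset (Sym2 V)} {x : H.U j → V}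
    (hx : x ∈ Gj H j G) : #(cim H j x) = #(H.F j) := by
  rw [mem_Gj] at hx
  obtain ⟨⟨φ, hφ, rfl⟩, -⟩ := hx
  rw [cim_res, card_im _ hφ]

variable {n p β θ θ' : ℝ}

lemma sum_indicator_card {X : Type*} [DecidableEq X] (I : Finset X) (E : X → Finset (Sym2 V)) :
    ∀ S : Finset (Sym2 V), (#{x ∈ I | E x ⊆ S} : ℝ) = ∑ x ∈ I, if E x ⊆ S then (1 : ℝ) else 0 := by
  intro S
  rw [← sum_filter]
  simp

lemma ex_count {X : Type*} [DecidableEq X] (β : ℝ) (G : Finset (Sym2 V)) (I : Finset X)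
    (E : X → Finset (Sym2 V)) (hE : ∀ x ∈ I, E x ⊆ G) :
    ex β G (fun S => (#{x ∈ I | E x ⊆ S} : ℝ)) = ∑ x ∈ I, β ^ #(E x) := by
  simp_rw [sum_indicator_card I E]
  rw [ex_sum]
  exact sum_congr rfl (fun x hx => ex_subset β G (E x) (hE x hx))

lemma ex_X (j : ℕ) (β : ℝ) (G : Finset (Sym2 V)) (C : ∀ i : Fin k, Finset (H.U i → V)) :
    ex β G (fun S => (#(Xc H j S C) : ℝ)) = β ^ #(H.Flt j) * #(Xc H j G C) := by
  have h1 : ex β G (fun S => (#(Xc H j S C) : ℝ)) =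
      ex β G (fun S => (#{φ ∈ Xc H j G C | im (H.Flt j) φ ⊆ S} : ℝ)) := by
    apply ex_congr
    intro S hS
    congr 2
    ext φ
    simp only [Xc, mem_filter, mem_univ, true_and]
    constructor
    · rintro ⟨h1, h2, h3⟩
      exact ⟨⟨h1, h2.trans hS, h3⟩, h2⟩
    · rintro ⟨⟨h1, h2, h3⟩, h4⟩
      exact ⟨h1, h4, h3⟩
  rw [h1, ex_count β G _ _ (fun φ hφ => by
    simp only [Xc, mem_filter, mem_univ, true_and] at hφ
    exact hφ.2.1)]
  have : ∑ φ ∈ Xc H j G C, β ^ #(im (H.Flt j) φ) = ∑ φ ∈ Xc H j G C, β ^ #(H.Flt j) := by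
    apply sum_congr rfl
    intro φ hφ
    simp only [Xc, mem_filter, mem_univ, true_and] at hφ
    rw [card_im _ hφ.1]
  rw [this, sum_const, nsmul_eq_mul, mul_comm]

lemma ex_Z (j : Fin k) (β : ℝ) (G : Finset (Sym2 V)) (C : ∀ i : Fin k, Finset (H.U i → V)) :
    ex β G (fun S => (#(Zs H j S G C) : ℝ)) = β ^ #(H.Flt j) * #(Xc H (j + 1) G C) := by
  have h1 : ex β G (fun S => (#(Zs H j S G C) : ℝ)) =
      ex β G (fun S => (#{φ ∈ Xc H (j + 1) G C | im (H.Flt j) φ ⊆ S} : ℝ)) := by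
    apply ex_congr
    intro S hS
    congr 2
    ext φ
    simp only [Xc, Zs, mem_filter, mem_univ, true_and, H.Flt_succ j, im_union, union_subset_iff]
    constructor
    · rintro ⟨h1, h2, h3, h4⟩
      exact ⟨⟨h1, ⟨h2.trans hS, h3⟩, fun i hi => h4 i (by rw [Fin.lt_def]; omega)⟩, h2⟩
    · rintro ⟨⟨h1, ⟨h2, h3⟩, h4⟩, h5⟩
      exact ⟨h1, h5, h3, fun i hi => h4 i (by rw [Fin.lt_def] at hi; omega)⟩
  rw [h1, ex_count β G _ _ (fun φ hφ => by
    simp only [Xc, mem_filter, mem_univ, true_and, H.Flt_succ j, im_union,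
      union_subset_iff] at hφ
    exact hφ.2.1.1)]
  have : ∑ φ ∈ Xc H (j + 1) G C, β ^ #(im (H.Flt j) φ) =
      ∑ φ ∈ Xc H (j + 1) G C, β ^ #(H.Flt j) := by
    apply sum_congr rfl
    intro φ hφ
    simp only [Xc, mem_filter, mem_univ, true_and] at hφ
    rw [card_im _ hφ.1]
  rw [this, sum_const, nsmul_eq_mul, mul_comm]

lemma ex_Q (j : Fin k) (hβ0 : 0 ≤ β) (hβ1 : β ≤ 1) (G : Finset (Sym2 V)) :
    ex β G (fun S => (#{P ∈ Pr V (H.U j) | Epair H j P ⊆ S} : ℝ)) ≤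
      β ^ (2 * #(H.Flt j)) * #{P ∈ PrC V (H.U j) | Epair H j P ⊆ G} +
      #{P ∈ PrU V (H.U j) | Epair H j P ⊆ G} := by
  classical
  have h1 : ∀ S ⊆ G, (#{P ∈ Pr V (H.U j) | Epair H j P ⊆ S} : ℝ) =
      #{P ∈ {P ∈ PrC V (H.U j) | Epair H j P ⊆ G} | Epair H j P ⊆ S} +
      #{P ∈ {P ∈ PrU V (H.U j) | Epair H j P ⊆ G} | Epair H j P ⊆ S} := by
    intro S hS
    have e1 : #{P ∈ Pr V (H.U j) | Epair H j P ⊆ S} =
      #{P ∈ {P ∈ PrC V (H.U j) | Epair H j P ⊆ G} | Epair H j P ⊆ S} +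
      #{P ∈ {P ∈ PrU V (H.U j) | Epair H j P ⊆ G} | Epair H j P ⊆ S} := by
      rw [← card_union_of_disjoint]
      · congr 1
        ext P
        simp only [PrC, PrU, mem_filter, mem_union]
        constructor
        · rintro ⟨h1, h2⟩
          by_cases h : ∀ x, x ∉ H.U j → ∀ y, P.2 x ≠ P.1 y
          · exact Or.inl ⟨⟨⟨h1, h⟩, h2.trans hS⟩, h2⟩
          · exact Or.inr ⟨⟨⟨h1, h⟩, h2.trans hS⟩, h2⟩
        · rintro (⟨⟨⟨h1, -⟩, -⟩, h2⟩ | ⟨⟨⟨h1, -⟩, -⟩, h2⟩) <;> exact ⟨h1, h2⟩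
      · rw [Finset.disjoint_left]
        intro P hP hP'
        simp only [PrC, PrU, mem_filter] at hP hP'
        exact hP'.1.1.2 hP.1.1.2
    rw [e1]
    push_cast
    rfl
  rw [ex_congr G h1, ex_add]
  apply add_le_add
  · rw [ex_count β G _ _ (fun P hP => (mem_filter.1 hP).2)]
    have : ∑ P ∈ (PrC V (H.U j)).filter (fun P => Epair H j P ⊆ G), β ^ #(Epair H j P) =
        ∑ P ∈ (PrC V (H.U j)).filter (fun P => Epair H j P ⊆ G), β ^ (2 * #(H.Flt j)) := by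
      apply sum_congr rfl
      intro P hP
      rw [card_Epair_clean H j (mem_filter.1 hP).1]
    rw [this, sum_const, nsmul_eq_mul, mul_comm]
  · refine le_trans (ex_mono hβ0 hβ1 G
      (g := fun _ => (#{P ∈ PrU V (H.U j) | Epair H j P ⊆ G} : ℝ)) ?_) (ex_const β G _).le
    intro S _
    exact_mod_cast card_filter_le _ _

lemma ex_card (β : ℝ) (G : Finset (Sym2 V)) :
    ex β G (fun S => (#S : ℝ)) = β * #G := by
  have h1 : ex β G (fun S => (#S : ℝ)) =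
      ex β G (fun S => (#{e ∈ G | ({e} : Finset (Sym2 V)) ⊆ S} : ℝ)) := by
    apply ex_congr
    intro S hS
    congr 2
    ext e
    simp only [mem_filter, singleton_subset_iff]
    exact ⟨fun h => ⟨hS h, h⟩, fun h => h.2⟩
  rw [h1, ex_count β G _ _ (fun e he => by simpa using he)]
  simp [mul_comm]

lemma sum_Ns (j : Fin k) (S : Finset (Sym2 V)) (C : ∀ i : Fin k, Finset (H.U i → V)) :
    ∑ x ∈ C j, (#(Ns H j S C x) : ℝ) = #(Xc H j S C) := by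
  have : #(Xc H j S C) = ∑ x ∈ C j, #(Ns H j S C x) := by
    rw [Finset.card_eq_sum_card_fiberwise (f := fun φ => res (H.U j) φ) (t := C j)]
    · apply sum_congr rfl
      intro x hx
      congr 1
      ext φ
      simp only [Xc, Ns, mem_filter, mem_univ, true_and]
      constructor
      · rintro ⟨⟨h1, h2, h3⟩, h4⟩
        exact ⟨h1, h4, h2, fun i hi => h3 i (by rw [Fin.lt_def] at hi; omega)⟩
      · rintro ⟨h1, h2, h3, h4⟩
        refine ⟨⟨h1, h3, fun i hi => ?_⟩, h2⟩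
        by_cases hij : i = j
        · subst hij
          rw [h2]; exact hx
        · exact h4 i (lt_of_le_of_ne (by rw [Fin.le_def]; omega) (Ne.symm hij))
    · intro φ hφ
      simp only [Xc, coe_filter, Set.mem_ofPred_eq, mem_univ, true_and] at hφ
      exact hφ.2.2 j le_rfl
  rw [this]
  push_cast
  rfl

lemma sum_Ns_sq (j : Fin k) (S : Finset (Sym2 V)) (C : ∀ i : Fin k, Finset (H.U i → V))
    (D : Finset (H.U j → V)) :
    ∑ x ∈ D, (#(Ns H j S C x) : ℝ) ^ 2 ≤ #{P ∈ Pr V (H.U j) | Epair H j P ⊆ S} := by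
  classical
  have : ∑ x ∈ D, #(Ns H j S C x) ^ 2 ≤ #{P ∈ Pr V (H.U j) | Epair H j P ⊆ S} := by
    have h1 : ∑ x ∈ D, #(Ns H j S C x) ^ 2 =
        #(D.sigma (fun x => Ns H j S C x ×ˢ Ns H j S C x)) := by
      rw [card_sigma]
      apply sum_congr rfl
      intro x _
      rw [card_product, sq]
    rw [h1]
    apply card_le_card_of_injOn (fun q => q.2)
    · intro q hq
      simp only [coe_sigma, Set.mem_sigma_iff, mem_coe, mem_product, Ns, mem_filter, mem_univ,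
        true_and] at hq
      simp only [coe_filter, Set.mem_ofPred_eq, Pr, mem_filter, mem_univ, true_and, Epair,
        union_subset_iff]
      obtain ⟨-, ⟨h1, h2, h3, -⟩, ⟨h4, h5, h6, -⟩⟩ := hq
      refine ⟨⟨h1, h4, ?_⟩, h3, h6⟩
      intro x hx
      have := congrFun (h2.trans h5.symm) ⟨x, hx⟩
      exact this
    · intro q hq q' hq' h
      simp only [coe_sigma, Set.mem_sigma_iff, mem_coe, mem_product, Ns, mem_filter, mem_univ,
        true_and] at hq hq'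
      obtain ⟨-, ⟨h1, h2, h3, -⟩, -⟩ := hq
      obtain ⟨-, ⟨h1', h2', h3', -⟩, -⟩ := hq'
      obtain ⟨x, P⟩ := q
      obtain ⟨x', P'⟩ := q'
      dsimp only at h h2 h2'
      subst h
      have : x = x' := h2.symm.trans h2'
      subst this
      rfl
  exact_mod_cast this

lemma sum_Ns_G [Nonempty V] (j : Fin k) (S G : Finset (Sym2 V))
    (C : ∀ i : Fin k, Finset (H.U i → V))
    (D : Finset (H.U j → V)) (hD : D ⊆ Gj H j G) :
    ∑ x ∈ D, (#(Ns H j S C x) : ℝ) ≤ #(Zs H j S G C) := by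
  classical
  have : ∑ x ∈ D, #(Ns H j S C x) ≤ #(Zs H j S G C) := by
    rw [← card_sigma]
    apply card_le_card_of_injOn (fun q => q.2)
    · intro q hq
      simp only [coe_sigma, Set.mem_sigma_iff, mem_coe, Ns, mem_filter, mem_univ,
        true_and] at hq
      simp only [mem_coe, Zs, mem_filter, mem_univ, true_and]
      obtain ⟨h0, h1, h2, h3, h4⟩ := hq
      refine ⟨h1, h3, ?_, h4⟩
      have := (mem_Gj H).1 (hD h0)
      rw [← cim_res, h2]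
      exact this.2
    · intro q hq q' hq' h
      simp only [coe_sigma, Set.mem_sigma_iff, mem_coe, Ns, mem_filter, mem_univ,
        true_and] at hq hq'
      obtain ⟨h0, h1, h2, h3, h4⟩ := hq
      obtain ⟨h0', h1', h2', h3', h4'⟩ := hq'
      obtain ⟨x, P⟩ := q
      obtain ⟨x', P'⟩ := q'
      dsimp only at h h2 h2'
      subst h
      have : x = x' := h2.symm.trans h2'
      subst this
      rfl
  exact_mod_cast this

/-- The threshold used in the container step. -/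
noncomputable def thr (H : Pattern W k) (j : Fin k) (n p β θ : ℝ) : ℝ :=
  β ^ #(H.Flt j) * θ * p ^ #(H.Flt j) * n ^ Fintype.card W / (4 * n ^ #(H.U j))

lemma alg1 {a z Qb sb Y Z Q s : ℝ} (ha : 0 < a) (hz : 0 < z) (hQb : 0 < Qb) (hsb : 0 < sb)
    (hZ : 0 ≤ Z) (hQ : 0 ≤ Q) (hs : 0 ≤ s)
    (h : 5 / 8 ≤ a⁻¹ * Y - ((8 * z)⁻¹ * Z + ((8 * Qb)⁻¹ * Q + (8 * sb)⁻¹ * s))) :
    ∃ y, Y = a * y ∧ 5 / 8 ≤ y ∧ Z ≤ 8 * z * y ∧ Q ≤ 8 * Qb * y ∧ s ≤ 8 * sb * y := by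
  have t1 : 0 ≤ (8 * z)⁻¹ * Z := by positivity
  have t2 : 0 ≤ (8 * Qb)⁻¹ * Q := by positivity
  have t3 : 0 ≤ (8 * sb)⁻¹ * s := by positivity
  refine ⟨a⁻¹ * Y, by field_simp, by linarith, ?_, ?_, ?_⟩
  · have : (8 * z)⁻¹ * Z ≤ a⁻¹ * Y := by linarith
    rwa [inv_mul_le_iff₀ (by positivity)] at this
  · have : (8 * Qb)⁻¹ * Q ≤ a⁻¹ * Y := by linarith
    rwa [inv_mul_le_iff₀ (by positivity)] at this
  · have : (8 * sb)⁻¹ * s ≤ a⁻¹ * Y := by linarith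
    rwa [inv_mul_le_iff₀ (by positivity)] at this

lemma alg2 {a a' Qb Y Q y N θ : ℝ} (ha' : 0 < a') (haa' : a' ≤ a) (hQb : 0 < Qb) (hN : 0 < N)
    (hθ : 0 < θ) (hY : Y = a * y) (hy : 5 / 8 ≤ y) (hQ : Q ≤ 8 * Qb * y) (hCS : Y ^ 2 ≤ N * Q)
    (haQ : a' ^ 2 = θ ^ 2 * N * Qb / 3) : y ≤ 24 / θ ^ 2 := by
  have hy0 : 0 < y := by linarith
  have h1 : (a * y) ^ 2 ≤ N * (8 * Qb * y) := by
    rw [← hY]
    refine hCS.trans ?_
    gcongr
  have h2 : a' ^ 2 * y ≤ 8 * N * Qb := by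
    have h3 : (a ^ 2 * y) * y ≤ (8 * N * Qb) * y := by
      calc (a ^ 2 * y) * y = (a * y) ^ 2 := by ring
        _ ≤ _ := h1
        _ = _ := by ring
    have h4 := le_of_mul_le_mul_right h3 hy0
    refine le_trans ?_ h4
    gcongr
  rw [haQ] at h2
  rw [le_div_iff₀ (by positivity)]
  have h5 : (N * Qb) * (y * θ ^ 2) ≤ (N * Qb) * 24 := by
    calc (N * Qb) * (y * θ ^ 2) = 3 * (θ ^ 2 * N * Qb / 3 * y) := by ring
      _ ≤ 3 * (8 * N * Qb) := by gcongr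
      _ = _ := by ring
  exact le_of_mul_le_mul_left h5 (by positivity)

lemma alg3 {a a' Qb Q y N θ B : ℝ} (ha' : 0 < a') (haa' : a' ≤ a) (hQb : 0 < Qb) (hN : 0 < N)
    (hθ : 0 < θ) (hB : 0 ≤ B) (hy : 5 / 8 ≤ y) (hQ : Q ≤ 8 * Qb * y)
    (h : (a * y / 2) ^ 2 ≤ B * Q)
    (haQ : a' ^ 2 = θ ^ 2 * N * Qb / 3) : θ ^ 2 / 200 * N ≤ B := by
  have hy0 : 0 < y := by linarith
  have h1 : (a * y / 2) ^ 2 ≤ B * (8 * Qb * y) := h.trans (by gcongr)
  have h2 : (a ^ 2 * y / 4) * y ≤ (B * (8 * Qb)) * y := by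
    calc (a ^ 2 * y / 4) * y = (a * y / 2) ^ 2 := by ring
      _ ≤ _ := h1
      _ = _ := by ring
  have h3 := le_of_mul_le_mul_right h2 hy0
  have h4 : a' ^ 2 * (5 / 8) / 4 ≤ B * (8 * Qb) := by
    refine le_trans ?_ h3
    gcongr
  rw [haQ] at h4
  have h5 : (θ ^ 2 / 200 * N) * Qb ≤ B * Qb := by
    have : 0 ≤ θ ^ 2 * N * Qb := by positivity
    nlinarith
  exact le_of_mul_le_mul_right h5 hQb

/-- Pure expectation part of the step. -/
lemma step_expect (j : Fin k) (Γ G : Finset (Sym2 V)) (hG : G ⊆ Γ)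
    (C : ∀ i : Fin k, Finset (H.U i → V)) {a z Qb sb : ℝ}
    (ha0 : 0 < a) (hz0 : 0 < z) (hQb0 : 0 < Qb) (hsb0 : 0 < sb)
    (hβ0 : 0 < β) (hβ1 : β ≤ 1)
    (ha : a = β ^ #(H.Flt j) * #(Xc H j G C))
    (hz : β ^ #(H.Flt j) * #(Xc H (j + 1) G C) ≤ z)
    (hQ : β ^ (2 * #(H.Flt j)) * #{P ∈ PrC V (H.U j) | Epair H j P ⊆ Γ} +
      #{P ∈ PrU V (H.U j) | Epair H j P ⊆ Γ} ≤ Qb)
    (hs : β * #Γ ≤ sb) :
    ∃ S ⊆ G, 5 / 8 ≤ a⁻¹ * #(Xc H j S C) - ((8 * z)⁻¹ * #(Zs H j S G C) +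
      ((8 * Qb)⁻¹ * #{P ∈ Pr V (H.U j) | Epair H j P ⊆ S} + (8 * sb)⁻¹ * (#S : ℝ))) := by
  classical
  have hexY : ex β G (fun S => (#(Xc H j S C) : ℝ)) = a := by rw [ha]; exact ex_X H j β G C
  have hexZ : ex β G (fun S => (#(Zs H j S G C) : ℝ)) ≤ z := (ex_Z H j β G C).le.trans hz
  have hexQ : ex β G (fun S => (#{P ∈ Pr V (H.U j) | Epair H j P ⊆ S} : ℝ)) ≤ Qb := by
    have h1 := ex_Q H j hβ0.le hβ1 G
    have h2 : (#{P ∈ PrC V (H.U j) | Epair H j P ⊆ G} : ℝ) ≤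
        #{P ∈ PrC V (H.U j) | Epair H j P ⊆ Γ} := by
      apply Nat.cast_le.2
      apply card_le_card
      intro P hP
      rw [mem_filter] at hP ⊢
      exact ⟨hP.1, hP.2.trans hG⟩
    have h3 : (#{P ∈ PrU V (H.U j) | Epair H j P ⊆ G} : ℝ) ≤
        #{P ∈ PrU V (H.U j) | Epair H j P ⊆ Γ} := by
      apply Nat.cast_le.2
      apply card_le_card
      intro P hP
      rw [mem_filter] at hP ⊢
      exact ⟨hP.1, hP.2.trans hG⟩
    refine h1.trans (le_trans ?_ hQ)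
    gcongr
  have hexS : ex β G (fun S => (#S : ℝ)) ≤ sb := by
    rw [ex_card]
    refine le_trans ?_ hs
    have : (#G : ℝ) ≤ #Γ := by exact_mod_cast card_le_card hG
    gcongr
  apply exists_ge_of_ex hβ0.le hβ1 G
  rw [ex_sub, ex_add, ex_add, ex_mul, ex_mul, ex_mul, ex_mul, hexY]
  have e1 : a⁻¹ * a = 1 := inv_mul_cancel₀ ha0.ne'
  have e2 : (8 * z)⁻¹ * ex β G (fun S => (#(Zs H j S G C) : ℝ)) ≤ 1 / 8 := by
    rw [inv_mul_le_iff₀ (by positivity)]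
    linarith
  have e3 : (8 * Qb)⁻¹ * ex β G (fun S => (#{P ∈ Pr V (H.U j) | Epair H j P ⊆ S} : ℝ)) ≤ 1 / 8 := by
    rw [inv_mul_le_iff₀ (by positivity)]
    linarith
  have e4 : (8 * sb)⁻¹ * ex β G (fun S => (#S : ℝ)) ≤ 1 / 8 := by
    rw [inv_mul_le_iff₀ (by positivity)]
    linarith
  linarith

/-- **The container step.** -/
theorem step [Nonempty V] (j : Fin k) (Γ G : Finset (Sym2 V)) (hG : G ⊆ Γ)
    (C : ∀ i : Fin k, Finset (H.U i → V))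
    (hn : (Fintype.card V : ℝ) = n) (hn1 : 1 ≤ n) (hp0 : 0 < p)
    (hβ0 : 0 < β) (hβ1 : β ≤ 1) (hθ : 0 < θ) (hθ' : 0 < θ')
    (hX : θ * p ^ #(H.Flt j) * n ^ Fintype.card W ≤ #(Xc H j G C))
    (hX' : #(Xc H (j + 1) G C) ≤ θ' * p ^ #(H.Flt (j + 1)) * n ^ Fintype.card W)
    (hQc : (#{P ∈ PrC V (H.U j) | Epair H j P ⊆ Γ} : ℝ) ≤ 2 * Lam H j n p)
    (hQu : (#{P ∈ PrU V (H.U j) | Epair H j P ⊆ Γ} : ℝ) ≤ β ^ (2 * #(H.Flt j)) * Lam H j n p)
    (hΓ : (#Γ : ℝ) ≤ 2 * (n ^ 2 * p)) :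
    ∃ S ⊆ G, (#S : ℝ) ≤ 384 / θ ^ 2 * β * (n ^ 2 * p) ∧
      θ ^ 2 / 200 * n ^ #(H.U j) ≤ #(Nbig H j S C (thr H j n p β θ)) ∧
      (#(Nbig H j S C (thr H j n p β θ) ∩ Gj H j G) : ℝ) ≤
        768 * (θ' / θ ^ 3) * (p ^ #(H.F j) * n ^ #(H.U j)) := by
  classical
  have hn0 : 0 < n := by linarith
  obtain ⟨N, hN⟩ : ∃ N, N = n ^ #(H.U j) := ⟨_, rfl⟩
  obtain ⟨M, hM⟩ : ∃ M, M = n ^ Fintype.card W := ⟨_, rfl⟩
  obtain ⟨q, hq⟩ : ∃ q, q = p ^ #(H.Flt j) := ⟨_, rfl⟩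
  obtain ⟨b, hb⟩ : ∃ b, b = β ^ #(H.Flt j) := ⟨_, rfl⟩
  obtain ⟨r, hr⟩ : ∃ r, r = p ^ #(H.F j) := ⟨_, rfl⟩
  have hN0 : 0 < N := by rw [hN]; positivity
  have hM0 : 0 < M := by rw [hM]; positivity
  have hq0 : 0 < q := by rw [hq]; positivity
  have hb0 : 0 < b := by rw [hb]; positivity
  have hr0 : 0 < r := by rw [hr]; positivity
  have hΛ : Lam H j n p = M ^ 2 * q ^ 2 / N := by
    unfold Lam
    rw [hM, hq, hN]
    ring
  have hthr : thr H j n p β θ = b * θ * q * M / (4 * N) := by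
    unfold thr
    rw [hb, hq, hM, hN]
  have hb2 : β ^ (2 * #(H.Flt j)) = b ^ 2 := by rw [hb]; ring
  have hq' : p ^ #(H.Flt (j + 1)) = q * r := by rw [H.card_Flt_succ j, pow_add, hq, hr]
  rw [hq'] at hX'
  rw [← hq, ← hM] at hX
  rw [← hM] at hX'
  rw [hb2, hΛ] at hQu
  rw [hΛ] at hQc
  rw [hthr, ← hN, ← hr]
  obtain ⟨Xj, hXj⟩ : ∃ x : ℝ, x = #(Xc H j G C) := ⟨_, rfl⟩
  obtain ⟨a, ha⟩ : ∃ a, a = b * Xj := ⟨_, rfl⟩
  obtain ⟨a', ha'⟩ : ∃ a', a' = b * (θ * q * M) := ⟨_, rfl⟩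
  have ha'0 : 0 < a' := by rw [ha']; positivity
  have haa' : a' ≤ a := by
    rw [ha, ha']
    rw [← hXj] at hX
    gcongr
  have ha0 : 0 < a := lt_of_lt_of_le ha'0 haa'
  obtain ⟨Qb, hQb⟩ : ∃ x, x = 3 * b ^ 2 * (M ^ 2 * q ^ 2 / N) := ⟨_, rfl⟩
  have hQb0 : 0 < Qb := by rw [hQb]; positivity
  obtain ⟨z, hz⟩ : ∃ x, x = b * (θ' * (q * r) * M) := ⟨_, rfl⟩
  have hz0 : 0 < z := by rw [hz]; positivity
  obtain ⟨sb, hsb⟩ : ∃ x, x = 2 * β * (n ^ 2 * p) := ⟨_, rfl⟩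
  have hsb0 : 0 < sb := by rw [hsb]; positivity
  obtain ⟨S, hSG, hS⟩ := step_expect H j Γ G hG C ha0 hz0 hQb0 hsb0 hβ0 hβ1
    (by rw [ha, hb, hXj]) (by rw [← hb, hz]; gcongr) (by
      rw [hb2, hQb]
      calc _ ≤ b ^ 2 * (2 * (M ^ 2 * q ^ 2 / N)) + b ^ 2 * (M ^ 2 * q ^ 2 / N) := by gcongr
        _ = _ := by ring) (by
      rw [hsb]
      calc β * (#Γ : ℝ) ≤ β * (2 * (n ^ 2 * p)) := by gcongr
        _ = _ := by ring)
  obtain ⟨y, hYay, hy58, hZy, hQy, hSy⟩ := alg1 ha0 hz0 hQb0 hsb0 (Nat.cast_nonneg _)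
    (Nat.cast_nonneg _) (Nat.cast_nonneg _) hS
  have hy0 : 0 < y := by linarith
  have hcardN : Fintype.card (H.U j → V) = N := by
    rw [Fintype.card_fun, Fintype.card_coe, hN, ← hn]
    push_cast
    rfl
  -- Cauchy-Schwarz
  have hCS : (#(Xc H j S C) : ℝ) ^ 2 ≤ N * #{P ∈ Pr V (H.U j) | Epair H j P ⊆ S} := by
    rw [← sum_Ns H j S C]
    calc (∑ x ∈ C j, (#(Ns H j S C x) : ℝ)) ^ 2
        ≤ #(C j) * ∑ x ∈ C j, (#(Ns H j S C x) : ℝ) ^ 2 := sq_sum_le_card_mul_sum_sq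
      _ ≤ _ := by
          have e1 : (#(C j) : ℝ) ≤ N := by
            rw [← hcardN]
            exact_mod_cast card_le_univ _
          exact mul_le_mul e1 (sum_Ns_sq H j S C (C j)) (sum_nonneg fun _ _ => sq_nonneg _) hN0.le
  have ha'Q : a' ^ 2 = θ ^ 2 * N * Qb / 3 := by
    rw [ha', hQb]
    field_simp
  have hy24 := alg2 ha'0 haa' hQb0 hN0 hθ hYay hy58 hQy hCS ha'Q
  obtain ⟨t, ht⟩ : ∃ t, t = b * θ * q * M / (4 * N) := ⟨_, rfl⟩
  rw [← ht]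
  have htn : t * N = a' / 4 := by
    rw [ht, ha']
    field_simp
  have ht0 : 0 < t := by rw [ht]; positivity
  obtain ⟨B, hB⟩ : ∃ B, B = Nbig H j S C t := ⟨_, rfl⟩
  -- lower bound for the mass of B
  have hmass : a * y / 2 ≤ ∑ x ∈ B, (#(Ns H j S C x) : ℝ) := by
    have h1 : ∑ x ∈ C j, (#(Ns H j S C x) : ℝ) =
        ∑ x ∈ B, (#(Ns H j S C x) : ℝ) +
        ∑ x ∈ C j with ¬ t ≤ #(Ns H j S C x), (#(Ns H j S C x) : ℝ) := by
      rw [hB, Nbig, sum_filter_add_sum_filter_not]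
    have h2 : ∑ x ∈ C j with ¬ t ≤ #(Ns H j S C x), (#(Ns H j S C x) : ℝ) ≤ t * N := by
      calc ∑ x ∈ C j with ¬ t ≤ #(Ns H j S C x), (#(Ns H j S C x) : ℝ)
          ≤ ∑ x ∈ C j with ¬ t ≤ #(Ns H j S C x), t := by
            apply sum_le_sum
            intro x hx
            rw [mem_filter, not_le] at hx
            exact hx.2.le
        _ = #{x ∈ C j | ¬ t ≤ #(Ns H j S C x)} * t := by rw [sum_const, nsmul_eq_mul]
        _ ≤ N * t := by
            gcongr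
            rw [← hcardN]
            exact_mod_cast card_le_univ _
        _ = t * N := by ring
    have h3 : (#(Xc H j S C) : ℝ) = ∑ x ∈ C j, (#(Ns H j S C x) : ℝ) := (sum_Ns H j S C).symm
    rw [hYay, h1] at h3
    rw [htn] at h2
    have h4 : a' / 4 ≤ a * y / 2 := by
      have : a * (5 / 8) ≤ a * y := by gcongr
      linarith
    linarith
  refine ⟨S, hSG, ?_⟩
  rw [← hB]
  refine ⟨?_, ?_, ?_⟩
  · calc (#S : ℝ) ≤ 8 * sb * y := hSy
      _ ≤ 8 * sb * (24 / θ ^ 2) := by gcongr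
      _ = _ := by rw [hsb]; ring
  · apply alg3 ha'0 haa' hQb0 hN0 hθ (Nat.cast_nonneg _) hy58 hQy _ ha'Q
    calc (a * y / 2) ^ 2 ≤ (∑ x ∈ B, (#(Ns H j S C x) : ℝ)) ^ 2 := by
          gcongr
      _ ≤ #B * ∑ x ∈ B, (#(Ns H j S C x) : ℝ) ^ 2 := sq_sum_le_card_mul_sum_sq
      _ ≤ _ := by
          gcongr
          exact sum_Ns_sq H j S C B
  · have h1 : #(B ∩ Gj H j G) * t ≤ 8 * z * (24 / θ ^ 2) := by
      calc #(B ∩ Gj H j G) * t = ∑ _x ∈ B ∩ Gj H j G, t := by rw [sum_const, nsmul_eq_mul]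
        _ ≤ ∑ x ∈ B ∩ Gj H j G, (#(Ns H j S C x) : ℝ) := by
            apply sum_le_sum
            intro x hx
            rw [mem_inter, hB, Nbig, mem_filter] at hx
            exact hx.1.2
        _ ≤ (#(Zs H j S G C) : ℝ) := sum_Ns_G H j S G C _ inter_subset_right
        _ ≤ 8 * z * y := hZy
        _ ≤ _ := by gcongr
    have hzt : 8 * z * (24 / θ ^ 2) = 768 * (θ' / θ ^ 3) * (r * N) * t := by
      rw [hz, ht]
      field_simp
      ring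
    rw [hzt] at h1
    exact le_of_mul_le_mul_right h1 ht0

end Step

end Pool.Agent.MP_9c932e_co
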