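import Mathlib
import Pool.Agent.Lib.MP_9c932e_co.Step

/-!
# Iterating the container step
-/

set_option linter.unusedSectionVars false

namespace Pool.Agent.MP_9c932e_co

open Finset

section Iterate

variable {W : Type} [Fintype W] [DecidableEq W] {k : ℕ} (H : Pattern W k)
  {V : Type} [Fintype V] [DecidableEq V]

/-- Families of containers. -/
abbrev Cont (H : Pattern W k) (V : Type) : Type := ∀ i : Fin k, Finset (H.U i → V)

/-- one container step -/
noncomputable def upd (C : Cont H V) (j : Fin k) (S : Finset (Sym2 V)) (t : ℝ) : Cont H V :=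
  Function.update C j (C j \ Nbig H j S C t)

/-- performing a list of steps -/
noncomputable def run (τ : Fin k → ℝ) : List (Fin k × Finset (Sym2 V)) → Cont H V → Cont H V
  | [], C => C
  | q :: L, C => run τ L (upd H C q.1 q.2 (τ q.1))

/-- total relative size of the containers -/
noncomputable def Psi (n : ℝ) (C : Cont H V) : ℝ := ∑ i, (#(C i) : ℝ) / n ^ #(H.U i)

lemma Psi_nonneg {n : ℝ} (hn : 0 ≤ n) (C : Cont H V) : 0 ≤ Psi H n C := by
  unfold Psi; positivity

lemma Psi_upd {n : ℝ} (C : Cont H V) (j : Fin k) (S : Finset (Sym2 V)) (t : ℝ) :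
    Psi H n (upd H C j S t) = Psi H n C - #(Nbig H j S C t) / n ^ #(H.U j) := by
  classical
  unfold Psi
  rw [← Finset.add_sum_erase univ _ (mem_univ j), ← Finset.add_sum_erase univ _ (mem_univ j)]
  have h1 : ∑ i ∈ univ.erase j, (#(upd H C j S t i) : ℝ) / n ^ #(H.U i) =
      ∑ i ∈ univ.erase j, (#(C i) : ℝ) / n ^ #(H.U i) := by
    apply sum_congr rfl
    intro i hi
    rw [mem_erase] at hi
    unfold upd
    rw [Function.update_of_ne hi.1]
  rw [h1]
  have h2 : (#(upd H C j S t j) : ℝ) = #(C j) - #(Nbig H j S C t) := by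
    unfold upd
    rw [Function.update_self]
    have h3 : Nbig H j S C t ⊆ C j := filter_subset _ _
    have h4 := card_sdiff_add_card_eq_card h3
    have h5 : (#(C j \ Nbig H j S C t) : ℝ) + #(Nbig H j S C t) = #(C j) := by exact_mod_cast h4
    linarith
  rw [h2]
  ring

lemma hybrid (G : Finset (Sym2 V)) (C : Cont H V) (θ : ℕ → ℝ) (p M : ℝ)
    (h0 : θ 0 * p ^ #(H.Flt 0) * M ≤ #(Xc H 0 G C))
    (hk : #(Xc H k G C) < θ k * p ^ #(H.Flt k) * M) :
    ∃ j : Fin k, θ j * p ^ #(H.Flt j) * M ≤ #(Xc H j G C) ∧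
      #(Xc H (j + 1) G C) < θ (j + 1) * p ^ #(H.Flt (j + 1)) * M := by
  by_contra hcon
  push Not at hcon
  have key : ∀ i, i ≤ k → θ i * p ^ #(H.Flt i) * M ≤ #(Xc H i G C) := by
    intro i
    induction i with
    | zero => intro _; exact h0
    | succ i ih =>
      intro hi
      exact hcon ⟨i, by omega⟩ (ih (by omega))
  exact absurd hk (not_lt.2 (key k le_rfl))

lemma Xc_k_mono {G G' : Finset (Sym2 V)} (h : G' ⊆ G) (C C' : Cont H V) :
    #(Xc H k G' C') ≤ #(Xc H k G C) := by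
  apply card_le_card
  intro φ hφ
  simp only [Xc, mem_filter, mem_univ, true_and] at hφ ⊢
  exact ⟨hφ.1, hφ.2.1.trans h, fun i hi => absurd i.2 (by omega)⟩

lemma Gj_mono [Nonempty V] {G G' : Finset (Sym2 V)} (h : G' ⊆ G) (j : Fin k) :
    Gj H j G' ⊆ Gj H j G := by
  intro x hx
  rw [mem_Gj] at hx ⊢
  exact ⟨hx.1, hx.2.trans h⟩

theorem iterate [Nonempty V] (Γ : Finset (Sym2 V)) {n p β : ℝ} (θ : ℕ → ℝ) (hθ : ∀ i, 0 < θ i)
    (hn : (Fintype.card V : ℝ) = n) (hn1 : 1 ≤ n) (hp0 : 0 < p)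
    (hβ0 : 0 < β) (hβ1 : β ≤ 1)
    (hQc : ∀ j : Fin k, (#{P ∈ PrC V (H.U j) | Epair H j P ⊆ Γ} : ℝ) ≤ 2 * Lam H j n p)
    (hQu : ∀ j : Fin k, (#{P ∈ PrU V (H.U j) | Epair H j P ⊆ Γ} : ℝ) ≤
      β ^ (2 * #(H.Flt j)) * Lam H j n p)
    (hΓ : (#Γ : ℝ) ≤ 2 * (n ^ 2 * p))
    {κ s0 ε : ℝ} (hκ : 0 < κ) (hκ' : ∀ j : Fin k, κ ≤ θ j ^ 2 / 200)
    (hs0 : ∀ j : Fin k, 384 / θ j ^ 2 * β * (n ^ 2 * p) ≤ s0) (hε : 0 ≤ ε)
    (hcost : ∀ j : Fin k, 768 * (θ (j + 1) / θ j ^ 3) * (p ^ #(H.F j) * n ^ #(H.U j)) ≤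
      ε * (n ^ 2 * p) * (θ j ^ 2 / 200)) :
    ∀ (T : ℕ) (G : Finset (Sym2 V)) (C : Cont H V), G ⊆ Γ →
      (#(Xc H k G C) : ℝ) < θ k * p ^ #(H.Flt k) * n ^ Fintype.card W →
      (∀ i, Gj H i G ⊆ C i) → Psi H n C ≤ κ * T →
      ∃ (L : List (Fin k × Finset (Sym2 V))) (G' : Finset (Sym2 V)), L.length ≤ T ∧
        (∀ q ∈ L, q.2 ⊆ G ∧ (#q.2 : ℝ) ≤ s0) ∧ G' ⊆ G ∧
        (#(G \ G') : ℝ) ≤ ε * (n ^ 2 * p) *
          (Psi H n C - Psi H n (run H (fun j => thr H j n p β (θ j)) L C)) ∧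
        (∀ i, Gj H i G' ⊆ run H (fun j => thr H j n p β (θ j)) L C i) ∧
        (#(Xc H 0 G' (run H (fun j => thr H j n p β (θ j)) L C)) : ℝ) <
          θ 0 * n ^ Fintype.card W := by
  classical
  have hn0 : 0 < n := by linarith
  intro T
  induction T with
  | zero =>
    intro G C hG hk hGC hΨ
    refine ⟨[], G, le_rfl, by simp, subset_rfl, by simp [run], hGC, ?_⟩
    by_contra hcon
    rw [not_lt] at hcon
    have h0 : θ 0 * p ^ #(H.Flt 0) * n ^ Fintype.card W ≤ #(Xc H 0 G C) := by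
      rw [H.Flt_zero]
      simpa [run] using hcon
    obtain ⟨j, hj1, hj2⟩ := hybrid H G C θ p _ h0 hk
    obtain ⟨S, hSG, hS1, hS2, hS3⟩ := step H j Γ G hG C hn hn1 hp0 hβ0 hβ1 (hθ j) (hθ (j + 1))
      hj1 hj2.le (hQc j) (hQu j) hΓ
    have h1 := Psi_upd H (n := n) C j S (thr H j n p β (θ j))
    have h2 := Psi_nonneg H hn0.le (upd H C j S (thr H j n p β (θ j)))
    have h3 : θ j ^ 2 / 200 ≤ #(Nbig H j S C (thr H j n p β (θ j))) / n ^ #(H.U j) := by
      rw [le_div_iff₀ (by positivity)]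
      exact hS2
    have h4 := hκ' j
    simp only [Nat.cast_zero, mul_zero] at hΨ
    linarith
  | succ T ih =>
    intro G C hG hk hGC hΨ
    by_cases hcon : (#(Xc H 0 G C) : ℝ) < θ 0 * n ^ Fintype.card W
    · exact ⟨[], G, by simp, by simp, subset_rfl, by simp [run], hGC, hcon⟩
    rw [not_lt] at hcon
    have h0 : θ 0 * p ^ #(H.Flt 0) * n ^ Fintype.card W ≤ #(Xc H 0 G C) := by
      rw [H.Flt_zero]
      simpa using hcon
    obtain ⟨j, hj1, hj2⟩ := hybrid H G C θ p _ h0 hk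
    obtain ⟨S, hSG, hS1, hS2, hS3⟩ := step H j Γ G hG C hn hn1 hp0 hβ0 hβ1 (hθ j) (hθ (j + 1))
      hj1 hj2.le (hQc j) (hQu j) hΓ
    set N := Nbig H j S C (thr H j n p β (θ j)) with hN
    -- choose an edge in each copy
    have hch : ∀ x ∈ N ∩ Gj H j G, ∃ e, e ∈ cim H j x := by
      intro x hx
      have h1 := card_cim H (mem_inter.1 hx).2
      have h2 := H.F_pos j
      have h3 : (cim H j x).Nonempty := Finset.card_pos.1 (by omega)
      exact h3
    have : Nonempty (Sym2 V) := ⟨Sym2.mk (Classical.arbitrary V) (Classical.arbitrary V)⟩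
    choose! f hf using hch
    set Del := (N ∩ Gj H j G).image f with hDel
    set G1 := G \ Del with hG1
    have hG1G : G1 ⊆ G := sdiff_subset
    set C' := upd H C j S (thr H j n p β (θ j)) with hC'
    have hΨ1 : Psi H n C' = Psi H n C - #N / n ^ #(H.U j) := Psi_upd H C j S _
    have h3 : θ j ^ 2 / 200 ≤ #N / n ^ #(H.U j) := by
      rw [le_div_iff₀ (by positivity)]
      exact hS2
    have h4 := hκ' j
    have hGC' : ∀ i, Gj H i G1 ⊆ C' i := by
      intro i x hx
      by_cases hij : i = j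
      · subst hij
        have hxG := Gj_mono H hG1G i hx
        have hxC := hGC i hxG
        rw [hC']
        unfold upd
        rw [Function.update_self, mem_sdiff]
        refine ⟨hxC, ?_⟩
        intro hxN
        have hxx : x ∈ N ∩ Gj H i G := mem_inter.2 ⟨hxN, hxG⟩
        have h5 := hf x hxx
        have h6 := ((mem_Gj H).1 hx).2 h5
        rw [hG1, mem_sdiff] at h6
        exact h6.2 (mem_image.2 ⟨x, hxx, rfl⟩)
      · rw [hC']
        unfold upd
        rw [Function.update_of_ne hij]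
        exact hGC i (Gj_mono H hG1G i hx)
    have hk' : (#(Xc H k G1 C') : ℝ) < θ k * p ^ #(H.Flt k) * n ^ Fintype.card W := by
      refine lt_of_le_of_lt ?_ hk
      exact_mod_cast Xc_k_mono H hG1G C C'
    obtain ⟨L, G', hL1, hL2, hL3, hL4, hL5, hL6⟩ := ih G1 C' (hG1G.trans hG) hk' hGC' (by
      push_cast at hΨ
      linarith)
    refine ⟨(j, S) :: L, G', by simpa using hL1, ?_, hL3.trans hG1G, ?_, hL5, hL6⟩
    · intro q hq
      rw [List.mem_cons] at hq
      rcases hq with rfl | hq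
      · exact ⟨hSG, hS1.trans (hs0 j)⟩
      · exact ⟨(hL2 q hq).1.trans hG1G, (hL2 q hq).2⟩
    · have h5 : G \ G' ⊆ (G1 \ G') ∪ Del := by
        intro x hx
        rw [mem_sdiff] at hx
        rw [mem_union, mem_sdiff, hG1, mem_sdiff]
        by_cases hxD : x ∈ Del
        · exact Or.inr hxD
        · exact Or.inl ⟨⟨hx.1, hxD⟩, hx.2⟩
      have h6 : (#(G \ G') : ℝ) ≤ #(G1 \ G') + #Del := by
        exact_mod_cast (card_le_card h5).trans (card_union_le _ _)
      have h7 : (#Del : ℝ) ≤ ε * (n ^ 2 * p) * (#N / n ^ #(H.U j)) := by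
        have e1 : (#Del : ℝ) ≤ #(N ∩ Gj H j G) := by exact_mod_cast card_image_le
        refine e1.trans (hS3.trans ((hcost j).trans ?_))
        have : 0 ≤ ε * (n ^ 2 * p) := by positivity
        exact mul_le_mul_of_nonneg_left h3 this
      have h8 : run H (fun j => thr H j n p β (θ j)) ((j, S) :: L) C =
          run H (fun j => thr H j n p β (θ j)) L C' := rfl
      rw [h8]
      have h9 : ε * (n ^ 2 * p) * (Psi H n C -
          Psi H n (run H (fun j => thr H j n p β (θ j)) L C')) =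
          ε * (n ^ 2 * p) * (Psi H n C' -
          Psi H n (run H (fun j => thr H j n p β (θ j)) L C')) +
          ε * (n ^ 2 * p) * (#N / n ^ #(H.U j)) := by
        rw [hΨ1]
        ring
      rw [h9]
      linarith

end Iterate

end Pool.Agent.MP_9c932e_co
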