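import Mathlib
import Pool.Agent.Lib.MP_9c932e_co.Iterate

/-!
# The union bound over fingerprints
-/

set_option linter.unusedSectionVars false

namespace Pool.Agent.MP_9c932e_co

open Finset

section Union

variable {W : Type} [Fintype W] [DecidableEq W] {k : ℕ} (H : Pattern W k)
  {V : Type} [Fintype V] [DecidableEq V]

/-- all edges occurring in a list of steps -/
noncomputable def EL (L : List (Fin k × Finset (Sym2 V))) : Finset (Sym2 V) := by
  classical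
  exact univ.filter (fun e => ∃ q ∈ L, e ∈ q.2)

lemma mem_EL {L : List (Fin k × Finset (Sym2 V))} {e : Sym2 V} : e ∈ EL L ↔ ∃ q ∈ L, e ∈ q.2 := by
  simp [EL]

lemma card_EL_le {L : List (Fin k × Finset (Sym2 V))} {s0 : ℝ}
    (h : ∀ q ∈ L, (#q.2 : ℝ) ≤ s0) : (#(EL L) : ℝ) ≤ L.length * s0 := by
  classical
  induction L with
  | nil => simp [EL]
  | cons a L ih =>
    have h1 : EL (a :: L) ⊆ a.2 ∪ EL L := by
      intro e he
      rw [mem_EL] at he
      obtain ⟨q, hq, he⟩ := he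
      rw [List.mem_cons] at hq
      rcases hq with rfl | hq
      · exact mem_union_left _ he
      · exact mem_union_right _ (mem_EL.2 ⟨q, hq, he⟩)
    have h2 : (#(EL (a :: L)) : ℝ) ≤ #a.2 + #(EL L) := by
      exact_mod_cast (card_le_card h1).trans (card_union_le _ _)
    have h3 := ih (fun q hq => h q (List.mem_cons_of_mem _ hq))
    have h4 := h a (List.mem_cons_self)
    rw [List.length_cons]
    push_cast
    linarith

lemma sum_pow_card {α : Type*} (A : Finset α) (y : ℝ) :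
    ∑ R ∈ A.powerset, y ^ #R = (y + 1) ^ #A := by
  have := Finset.sum_pow_mul_eq_add_pow y 1 A
  rw [← this]
  apply sum_congr rfl
  intro R _
  simp

lemma add_one_pow_le {y : ℝ} (hy : 0 ≤ y) (N : ℕ) : (y + 1) ^ N ≤ Real.exp (y * N) := by
  calc (y + 1) ^ N ≤ (Real.exp y) ^ N := by
        gcongr
        exact Real.add_one_le_exp y
    _ = _ := by rw [← Real.exp_nat_mul, mul_comm]

/-- Sum over small sets. -/
lemma sum_small_le {α : Type*} (A : Finset α) {y μ s : ℝ} (hy : 0 ≤ y) (hμ : 0 ≤ μ)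
    (I : Finset (Finset α)) (hI : I ⊆ A.powerset) (hs : ∀ R ∈ I, (#R : ℝ) ≤ s) :
    ∑ R ∈ I, y ^ #R ≤ Real.exp (μ * s + Real.exp (-μ) * y * #A) := by
  calc ∑ R ∈ I, y ^ #R ≤ ∑ R ∈ I, Real.exp (μ * s) * (Real.exp (-μ) * y) ^ #R := by
        apply sum_le_sum
        intro R hR
        rw [mul_pow, ← Real.exp_nat_mul, ← mul_assoc, ← Real.exp_add]
        have h1 : 1 ≤ Real.exp (μ * s + #R * -μ) := by
          apply Real.one_le_exp
          have := hs R hR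
          nlinarith
        exact le_mul_of_one_le_left (by positivity) h1
    _ ≤ ∑ R ∈ A.powerset, Real.exp (μ * s) * (Real.exp (-μ) * y) ^ #R :=
        sum_le_sum_of_subset_of_nonneg hI (fun _ _ _ => by positivity)
    _ = Real.exp (μ * s) * (Real.exp (-μ) * y + 1) ^ #A := by
        rw [← mul_sum, sum_pow_card]
    _ ≤ Real.exp (μ * s) * Real.exp (Real.exp (-μ) * y * #A) := by
        gcongr
        exact add_one_pow_le (by positivity) _
    _ = _ := by rw [← Real.exp_add]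

/-- Sum over sets of a given size. -/
lemma sum_large_le {α : Type*} (A : Finset α) {y M : ℝ} (r : ℕ) (hy : 0 ≤ y)
    (I : Finset (Finset α)) (hI : I ⊆ A.powerset) (hs : ∀ R ∈ I, #R = r) :
    ∑ R ∈ I, y ^ #R ≤ Real.exp (-(M * r) + Real.exp M * y * #A) := by
  calc ∑ R ∈ I, y ^ #R = ∑ R ∈ I, Real.exp (-(M * r)) * (Real.exp M * y) ^ #R := by
        apply sum_congr rfl
        intro R hR
        rw [mul_pow, ← Real.exp_nat_mul, ← mul_assoc, ← Real.exp_add, hs R hR]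
        have : -(M * r) + r * M = 0 := by ring
        rw [this, Real.exp_zero, one_mul]
    _ ≤ ∑ R ∈ A.powerset, Real.exp (-(M * r)) * (Real.exp M * y) ^ #R :=
        sum_le_sum_of_subset_of_nonneg hI (fun _ _ _ => by positivity)
    _ = Real.exp (-(M * r)) * (Real.exp M * y + 1) ^ #A := by
        rw [← mul_sum, sum_pow_card]
    _ ≤ Real.exp (-(M * r)) * Real.exp (Real.exp M * y * #A) := by
        gcongr
        exact add_one_pow_le (by positivity) _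
    _ = _ := by rw [← Real.exp_add]

/-- The bad event. -/
def Bad [Nonempty V] (T r : ℕ) (s0 : ℝ)
    (D : List (Fin k × Finset (Sym2 V)) → ∀ i : Fin k, Finset (H.U i → V))
    (Γ : Finset (Sym2 V)) : Prop :=
  ∃ L : List (Fin k × Finset (Sym2 V)), L.length ≤ T ∧ (∀ q ∈ L, q.2 ⊆ Γ ∧ (#q.2 : ℝ) ≤ s0) ∧
    ∃ i : Fin k, ∃ R ⊆ D L i, #R = r ∧ (∀ x ∈ R, #(cim H i x) = #(H.F i) ∧ cim H i x ⊆ Γ ∧
      Disjoint (cim H i x) (EL L)) ∧ (∀ x ∈ R, ∀ y ∈ R, x ≠ y → Disjoint (cim H i x) (cim H i y))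

open Classical in
/-- admissible families of copies -/
noncomputable def RR [Nonempty V] (r : ℕ) (i : Fin k) (D : Finset (H.U i → V))
    (E0 : Finset (Sym2 V)) : Finset (Finset (H.U i → V)) :=
  D.powerset.filter (fun R => #R = r ∧ (∀ x ∈ R, #(cim H i x) = #(H.F i) ∧
    Disjoint (cim H i x) E0) ∧ (∀ x ∈ R, ∀ y ∈ R, x ≠ y → Disjoint (cim H i x) (cim H i y)))

lemma mem_RR [Nonempty V] {r : ℕ} {i : Fin k} {D : Finset (H.U i → V)} {E0 : Finset (Sym2 V)}
    {R : Finset (H.U i → V)} : R ∈ RR H r i D E0 ↔ R ⊆ D ∧ #R = r ∧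
      (∀ x ∈ R, #(cim H i x) = #(H.F i) ∧ Disjoint (cim H i x) E0) ∧
      (∀ x ∈ R, ∀ y ∈ R, x ≠ y → Disjoint (cim H i x) (cim H i y)) := by
  simp only [RR, mem_filter, mem_powerset]

lemma inner_bound [Nonempty V] {p M : ℝ} (hp0 : 0 ≤ p) (hp1 : p ≤ 1) (r : ℕ) (i : Fin k)
    (D : Finset (H.U i → V)) (E0 : Finset (Sym2 V)) :
    pr p (KV V) (fun Γ => ∃ R ∈ RR H r i D E0, E0 ∪ R.biUnion (cim H i) ⊆ Γ) ≤
      p ^ #E0 * Real.exp (-(M * r) + Real.exp M * p ^ #(H.F i) * #D) := by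
  classical
  refine (pr_exists_le hp0 hp1 (KV V) (RR H r i D E0)
    (fun R Γ => E0 ∪ R.biUnion (cim H i) ⊆ Γ)).trans ?_
  calc ∑ R ∈ RR H r i D E0, pr p (KV V) (fun Γ => E0 ∪ R.biUnion (cim H i) ⊆ Γ)
      ≤ ∑ R ∈ RR H r i D E0, p ^ #E0 * (p ^ #(H.F i)) ^ #R := by
        apply sum_le_sum
        intro R hR
        simp only [RR, mem_filter, mem_powerset] at hR
        refine (pr_subset_le hp0 hp1 _ _).trans (le_of_eq ?_)
        rw [← pow_mul, ← pow_add]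
        congr 1
        rw [card_union_of_disjoint, card_biUnion]
        · rw [Finset.sum_congr rfl (fun x hx => (hR.2.2.1 x hx).1)]
          simp [mul_comm]
        · intro x hx y hy hxy
          exact hR.2.2.2 x hx y hy hxy
        · rw [Finset.disjoint_biUnion_right]
          intro x hx
          exact (hR.2.2.1 x hx).2.symm
    _ = p ^ #E0 * ∑ R ∈ RR H r i D E0, (p ^ #(H.F i)) ^ #R := by rw [mul_sum]
    _ ≤ _ := by
        gcongr
        apply sum_large_le D r (by positivity)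
        · intro R hR
          simp only [RR, mem_filter] at hR
          exact hR.1
        · intro R hR
          simp only [RR, mem_filter] at hR
          exact hR.2.1

/-- admissible unions of fingerprints -/
noncomputable def ESet (V : Type) [Fintype V] [DecidableEq V] (b : ℝ) :
    Finset (Finset (Sym2 V)) := by
  classical
  exact (KV V).powerset.filter (fun E0 => (#E0 : ℝ) ≤ b)

lemma mem_ESet {b : ℝ} {E0 : Finset (Sym2 V)} : E0 ∈ ESet V b ↔ E0 ⊆ KV V ∧ (#E0 : ℝ) ≤ b := by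
  simp [ESet]

/-- fingerprints as functions -/
def FF (V : Type) [Fintype V] [DecidableEq V] (k t : ℕ) (E0 : Finset (Sym2 V)) :
    Finset (Fin t → Fin k × Finset (Sym2 V)) :=
  Fintype.piFinset (fun _ : Fin t => (univ : Finset (Fin k)) ×ˢ E0.powerset)

lemma card_FF (t : ℕ) (E0 : Finset (Sym2 V)) : #(FF V k t E0) = (k * 2 ^ #E0) ^ t := by
  unfold FF
  rw [Fintype.card_piFinset]
  simp

/-- the event for given data -/
def Ev [Nonempty V] (r : ℕ)
    (D : List (Fin k × Finset (Sym2 V)) → ∀ i : Fin k, Finset (H.U i → V)) (t : ℕ)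
    (E0 : Finset (Sym2 V)) (f : Fin t → Fin k × Finset (Sym2 V)) (i : Fin k)
    (Γ : Finset (Sym2 V)) : Prop :=
  ∃ R ∈ RR H r i (D (List.ofFn f) i) E0, E0 ∪ R.biUnion (cim H i) ⊆ Γ

lemma bad_imp [Nonempty V] (T r : ℕ) {s0 : ℝ} (hs00 : 0 ≤ s0)
    (D : List (Fin k × Finset (Sym2 V)) → ∀ i : Fin k, Finset (H.U i → V))
    (Γ : Finset (Sym2 V)) (hΓ : Γ ⊆ KV V) (h : Bad H T r s0 D Γ) :
    ∃ t ∈ range (T + 1), ∃ E0 ∈ ESet V (T * s0), ∃ f ∈ FF V k t E0,
      ∃ i ∈ (univ : Finset (Fin k)), Ev H r D t E0 f i Γ := by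
  obtain ⟨L, hL1, hL2, i, R, hR1, hR2, hR3, hR4⟩ := h
  refine ⟨L.length, mem_range.2 (by omega), EL L, ?_, L.get, ?_, i, mem_univ _, R, ?_, ?_⟩
  · rw [mem_ESet]
    constructor
    · intro e he
      rw [mem_EL] at he
      obtain ⟨q, hq, he⟩ := he
      exact hΓ ((hL2 q hq).1 he)
    · refine (card_EL_le (fun q hq => (hL2 q hq).2)).trans ?_
      have : (L.length : ℝ) ≤ T := by exact_mod_cast hL1
      gcongr
  · unfold FF
    rw [Fintype.mem_piFinset]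
    intro a
    rw [mem_product, mem_powerset]
    refine ⟨mem_univ _, ?_⟩
    intro e he
    exact mem_EL.2 ⟨_, List.get_mem L a, he⟩
  · rw [List.ofFn_get, mem_RR]
    exact ⟨hR1, hR2, fun x hx => ⟨(hR3 x hx).1, (hR3 x hx).2.2⟩, hR4⟩
  · apply union_subset
    · intro e he
      rw [mem_EL] at he
      obtain ⟨q, hq, he⟩ := he
      exact (hL2 q hq).1 he
    · rw [biUnion_subset]
      intro x hx
      exact (hR3 x hx).2.1

lemma ev_le [Nonempty V] {n p x : ℝ}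
    (hp0 : 0 < p) (hp1 : p ≤ 1) (r : ℕ) {γ C1 M ε2 : ℝ}
    (D : List (Fin k × Finset (Sym2 V)) → ∀ i : Fin k, Finset (H.U i → V))
    (hD : ∀ L i, (#(D L i) : ℝ) ≤ γ * n ^ #(H.U i)) (hγ0 : 0 < γ)
    (hC1 : ∀ i, p ^ #(H.F i) * n ^ #(H.U i) ≤ C1 * x)
    (hM0 : 0 ≤ M) (hM : 4 ≤ M * ε2) (hγ : Real.exp M * γ * C1 ≤ 1)
    (hx0 : 0 ≤ x) (hr : ε2 * x ≤ r)
    (t : ℕ) (E0 : Finset (Sym2 V)) (f : Fin t → Fin k × Finset (Sym2 V)) (i : Fin k) :
    pr p (KV V) (Ev H r D t E0 f i) ≤ p ^ #E0 * Real.exp (-(3 * x)) := by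
  refine (inner_bound H (M := M) hp0.le hp1 r i (D (List.ofFn f) i) E0).trans ?_
  gcongr
  have h1 : M * (ε2 * x) ≤ M * r := by gcongr
  have h2 : 4 * x ≤ M * ε2 * x := by gcongr
  have h3 : Real.exp M * p ^ #(H.F i) * #(D (List.ofFn f) i) ≤ x := by
    calc Real.exp M * p ^ #(H.F i) * #(D (List.ofFn f) i)
        ≤ Real.exp M * p ^ #(H.F i) * (γ * n ^ #(H.U i)) := by
          gcongr
          exact hD _ i
      _ = Real.exp M * γ * (p ^ #(H.F i) * n ^ #(H.U i)) := by ring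
      _ ≤ Real.exp M * γ * (C1 * x) := mul_le_mul_of_nonneg_left (hC1 i) (by positivity)
      _ = (Real.exp M * γ * C1) * x := by ring
      _ ≤ 1 * x := by gcongr
      _ = x := one_mul x
  nlinarith

lemma evf_le [Nonempty V] {p x : ℝ} (hp0 : 0 < p) (hp1 : p ≤ 1) (T r : ℕ)
    (D : List (Fin k × Finset (Sym2 V)) → ∀ i : Fin k, Finset (H.U i → V))
    (hin : ∀ (t : ℕ) (E0 : Finset (Sym2 V)) (f : Fin t → Fin k × Finset (Sym2 V)) (i : Fin k),
      pr p (KV V) (Ev H r D t E0 f i) ≤ p ^ #E0 * Real.exp (-(3 * x)))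
    (t : ℕ) (E0 : Finset (Sym2 V)) (ht : t ≤ T) :
    pr p (KV V) (fun Γ => ∃ f ∈ FF V k t E0, ∃ i ∈ (univ : Finset (Fin k)), Ev H r D t E0 f i Γ) ≤
      k ^ (T + 1) * Real.exp (-(3 * x)) * (2 ^ T * p) ^ #E0 := by
  have hk : 1 ≤ k := H.hk
  refine (pr_exists_le hp0.le hp1 (KV V) _ (fun f Γ =>
      ∃ i ∈ (univ : Finset (Fin k)), Ev H r D t E0 f i Γ)).trans ?_
  calc ∑ f ∈ FF V k t E0, pr p (KV V) (fun Γ => ∃ i ∈ (univ : Finset (Fin k)), Ev H r D t E0 f i Γ)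
      ≤ ∑ _f ∈ FF V k t E0, k * (p ^ #E0 * Real.exp (-(3 * x))) := by
        apply sum_le_sum
        intro f _
        refine (pr_exists_le hp0.le hp1 (KV V) _ (fun i Γ => Ev H r D t E0 f i Γ)).trans ?_
        calc _ ≤ ∑ _i : Fin k, p ^ #E0 * Real.exp (-(3 * x)) :=
              sum_le_sum (fun i _ => hin t E0 f i)
          _ = _ := by simp
    _ = (k * 2 ^ #E0) ^ t * (k * (p ^ #E0 * Real.exp (-(3 * x)))) := by
        rw [sum_const, nsmul_eq_mul, card_FF]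
        push_cast
        rfl
    _ ≤ (k * 2 ^ #E0) ^ T * (k * (p ^ #E0 * Real.exp (-(3 * x)))) := by
        have hb : (1 : ℝ) ≤ k * 2 ^ #E0 := by
          have h1 : (1 : ℝ) ≤ k := by exact_mod_cast hk
          have h2 : (1 : ℝ) ≤ 2 ^ #E0 := one_le_pow₀ (by norm_num)
          nlinarith
        gcongr
    _ = _ := by
        rw [mul_pow, mul_pow, ← pow_mul, ← pow_mul, mul_comm #E0 T, pow_succ]
        ring

lemma card_KV_le : #(KV V) ≤ Fintype.card V ^ 2 := by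
  have : #(KV V) ≤ Fintype.card (Sym2 V) := card_le_univ _
  refine this.trans ?_
  have h2 : Fintype.card (Sym2 V) ≤ Fintype.card (V × V) :=
    Fintype.card_le_of_surjective (fun q : V × V => Sym2.mk q.1 q.2) (by
      intro e
      induction e using Sym2.ind with
      | _ a b => exact ⟨(a, b), rfl⟩)
  rw [Fintype.card_prod] at h2
  rw [sq]
  exact h2

lemma sum_ES_le {n p μ β1 b : ℝ} (hn : (Fintype.card V : ℝ) = n) (hp0 : 0 < p) (T : ℕ)
    (hμ0 : 0 ≤ μ) (hμ : Real.exp (-μ) * 2 ^ T ≤ 1)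
    (hβ1 : μ * β1 ≤ 1) (hb : b ≤ β1 * (n ^ 2 * p)) :
    ∑ E0 ∈ ESet V b, (2 ^ T * p) ^ #E0 ≤ Real.exp (2 * (n ^ 2 * p)) := by
  have hn0 : 0 ≤ n := by rw [← hn]; positivity
  obtain ⟨x, hx⟩ : ∃ x, x = n ^ 2 * p := ⟨_, rfl⟩
  rw [← hx] at hb ⊢
  have hx0 : 0 ≤ x := by rw [hx]; positivity
  refine (sum_small_le (KV V) (y := 2 ^ T * p) (μ := μ) (s := b) (by positivity) hμ0 (ESet V b)
    (fun R hR => mem_powerset.2 (mem_ESet.1 hR).1) (fun R hR => (mem_ESet.1 hR).2)).trans ?_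
  apply Real.exp_le_exp.2
  have h1 : μ * b ≤ x := by
    calc μ * b ≤ μ * (β1 * x) := by gcongr
      _ = (μ * β1) * x := by ring
      _ ≤ 1 * x := by gcongr
      _ = x := one_mul x
  have h2 : Real.exp (-μ) * (2 ^ T * p) * #(KV V) ≤ x := by
    have hKV : (#(KV V) : ℝ) ≤ n ^ 2 := by
      rw [← hn]
      exact_mod_cast card_KV_le
    calc Real.exp (-μ) * (2 ^ T * p) * #(KV V) ≤ Real.exp (-μ) * (2 ^ T * p) * n ^ 2 := by gcongr
      _ = (Real.exp (-μ) * 2 ^ T) * x := by rw [hx]; ring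
      _ ≤ 1 * x := by gcongr
      _ = x := one_mul x
  linarith

theorem bad_le [Nonempty V] {n p : ℝ} (hn : (Fintype.card V : ℝ) = n)
    (hp0 : 0 < p) (hp1 : p ≤ 1) (T r : ℕ) {s0 γ C1 M μ ε2 β1 : ℝ}
    (D : List (Fin k × Finset (Sym2 V)) → ∀ i : Fin k, Finset (H.U i → V))
    (hD : ∀ L i, (#(D L i) : ℝ) ≤ γ * n ^ #(H.U i)) (hγ0 : 0 < γ)
    (hC1 : ∀ i, p ^ #(H.F i) * n ^ #(H.U i) ≤ C1 * (n ^ 2 * p))
    (hμ0 : 0 ≤ μ) (hM0 : 0 ≤ M)
    (hM : 4 ≤ M * ε2) (hγ : Real.exp M * γ * C1 ≤ 1) (hμ : Real.exp (-μ) * 2 ^ T ≤ 1)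
    (hβ1 : μ * β1 ≤ 1) (hs0 : T * s0 ≤ β1 * (n ^ 2 * p)) (hs00 : 0 ≤ s0)
    (hr : ε2 * (n ^ 2 * p) ≤ r) :
    pr p (KV V) (Bad H T r s0 D) ≤ (T + 1) * k ^ (T + 1) * Real.exp (-(n ^ 2 * p)) := by
  have hn0 : 0 ≤ n := by rw [← hn]; positivity
  have hES2 := sum_ES_le (V := V) hn hp0 T hμ0 hμ hβ1 hs0
  obtain ⟨x, hx⟩ : ∃ x, x = n ^ 2 * p := ⟨_, rfl⟩
  rw [← hx] at hC1 hs0 hr hES2 ⊢
  have hx0 : 0 ≤ x := by rw [hx]; positivity
  have hin := ev_le H hp0 hp1 r D hD hγ0 hC1 hM0 hM hγ hx0 hr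
  refine (pr_mono hp0.le hp1 (KV V) (fun Γ hΓ h => bad_imp H T r hs00 D Γ hΓ h)).trans ?_
  refine (pr_exists_le hp0.le hp1 (KV V) _ (fun t Γ => ∃ E0 ∈ ESet V (T * s0),
    ∃ f ∈ FF V k t E0, ∃ i ∈ (univ : Finset (Fin k)), Ev H r D t E0 f i Γ)).trans ?_
  calc _ ≤ ∑ _t ∈ range (T + 1), (k : ℝ) ^ (T + 1) * Real.exp (-(3 * x)) * Real.exp (2 * x) := by
        apply sum_le_sum
        intro t ht
        refine (pr_exists_le hp0.le hp1 (KV V) _ (fun E0 Γ =>
          ∃ f ∈ FF V k t E0, ∃ i ∈ (univ : Finset (Fin k)), Ev H r D t E0 f i Γ)).trans ?_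
        have ht' : t ≤ T := by have := mem_range.1 ht; omega
        calc _ ≤ ∑ E0 ∈ ESet V (T * s0),
                (k : ℝ) ^ (T + 1) * Real.exp (-(3 * x)) * (2 ^ T * p) ^ #E0 :=
              sum_le_sum (fun E0 _ => evf_le H hp0 hp1 T r D hin t E0 ht')
          _ = (k : ℝ) ^ (T + 1) * Real.exp (-(3 * x)) *
                ∑ E0 ∈ ESet V (T * s0), (2 ^ T * p) ^ #E0 := by
              rw [mul_sum]
          _ ≤ _ := by gcongr
    _ = (T + 1) * ((k : ℝ) ^ (T + 1) * Real.exp (-(3 * x)) * Real.exp (2 * x)) := by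
        rw [sum_const, card_range, nsmul_eq_mul]
        push_cast
        rfl
    _ = _ := by
        have : Real.exp (-x) = Real.exp (-(3 * x)) * Real.exp (2 * x) := by
          rw [← Real.exp_add]
          congr 1
          ring
        rw [this]
        ring

end Union

end Pool.Agent.MP_9c932e_co
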