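import Mathlib
import Pool.Agent.Lib.MP_9c932e_co.Union

/-!
# The deterministic core of the removal argument
-/

set_option linter.unusedSectionVars false

namespace Pool.Agent.MP_9c932e_co

open Finset

section Core

variable {W : Type} [Fintype W] [DecidableEq W] {k : ℕ} (H : Pattern W k)
  {V : Type} [Fintype V] [DecidableEq V]

lemma exists_maxfam [Nonempty V] (i : Fin k) (X : Finset (H.U i → V)) (E0 : Finset (Sym2 V)) :
    ∃ R ⊆ X, (∀ x ∈ R, Disjoint (cim H i x) E0) ∧
      (∀ x ∈ R, ∀ y ∈ R, x ≠ y → Disjoint (cim H i x) (cim H i y)) ∧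
      ∀ y ∈ X, y ∉ R → Disjoint (cim H i y) E0 → ∃ x ∈ R, ¬ Disjoint (cim H i x) (cim H i y) := by
  classical
  let fam : Finset (Finset (H.U i → V)) := X.powerset.filter (fun R =>
    (∀ x ∈ R, Disjoint (cim H i x) E0) ∧
      (∀ x ∈ R, ∀ y ∈ R, x ≠ y → Disjoint (cim H i x) (cim H i y)))
  have hne : fam.Nonempty := ⟨∅, by simp [fam]⟩
  obtain ⟨R, hR, hmax⟩ := Finset.exists_max_image fam (fun R => #R) hne
  simp only [fam, mem_filter, mem_powerset] at hR
  refine ⟨R, hR.1, hR.2.1, hR.2.2, ?_⟩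
  intro y hy hyR hyE
  by_contra hcon
  push Not at hcon
  have h1 : insert y R ∈ fam := by
    simp only [fam, mem_filter, mem_powerset]
    refine ⟨insert_subset hy hR.1, ?_, ?_⟩
    · intro x hx
      rw [mem_insert] at hx
      rcases hx with rfl | hx
      · exact hyE
      · exact hR.2.1 x hx
    · intro x hx z hz hxz
      rw [mem_insert] at hx hz
      rcases hx with rfl | hx <;> rcases hz with rfl | hz
      · exact absurd rfl hxz
      · exact (hcon z hz).symm
      · exact hcon x hx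
      · exact hR.2.2 x hx z hz hxz
  have h2 := hmax _ h1
  rw [card_insert_of_notMem hyR] at h2
  omega

lemma card_noninj : (#{φ : W → V | ¬ Function.Injective φ} : ℝ) * Fintype.card V ≤
    (Fintype.card W) ^ 2 * (Fintype.card V : ℝ) ^ Fintype.card W := by
  classical
  have h1 : ∀ q : W × W, q.1 ≠ q.2 → #{φ : W → V | φ q.1 = φ q.2} * Fintype.card V ≤
      Fintype.card V ^ Fintype.card W := by
    intro q hq
    rw [← Fintype.card_fun, ← card_univ (α := W → V), ← card_univ (α := V), ← card_product]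
    apply card_le_card_of_injOn (fun a => Function.update a.1 q.1 a.2) (fun _ _ => mem_univ _)
    intro a ha b hb hab
    simp only [coe_product, Set.mem_prod, coe_filter, mem_univ, true_and, Set.mem_ofPred_eq,
      coe_univ, Set.mem_univ, and_true] at ha hb
    dsimp only at hab
    have e1 : a.2 = b.2 := by
      have := congrFun hab q.1
      simpa using this
    have e2 : ∀ w, w ≠ q.1 → a.1 w = b.1 w := by
      intro w hw
      have := congrFun hab w
      simpa [Function.update_of_ne hw] using this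
    have e3 : a.1 = b.1 := by
      ext w
      by_cases hw : w = q.1
      · rw [hw, ha, hb]
        exact e2 q.2 (Ne.symm hq)
      · exact e2 w hw
    exact Prod.ext e3 e1
  have h2 : #{φ : W → V | ¬ Function.Injective φ} * Fintype.card V ≤
      (Fintype.card W) ^ 2 * Fintype.card V ^ Fintype.card W := by
    have h3 : univ.filter (fun φ : W → V => ¬ Function.Injective φ) ⊆
        (univ.filter (fun q : W × W => q.1 ≠ q.2)).biUnion
          (fun q => univ.filter (fun φ : W → V => φ q.1 = φ q.2)) := by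
      intro φ hφ
      have hφ' := (mem_filter.1 hφ).2
      unfold Function.Injective at hφ'
      push Not at hφ'
      obtain ⟨a, b, hab, hne⟩ := hφ'
      simp only [mem_biUnion, mem_filter, mem_univ, true_and]
      exact ⟨(a, b), hne, hab⟩
    calc #{φ : W → V | ¬ Function.Injective φ} * Fintype.card V
        ≤ (∑ q ∈ univ.filter (fun q : W × W => q.1 ≠ q.2), #{φ : W → V | φ q.1 = φ q.2}) *
          Fintype.card V := by
          gcongr
          exact (card_le_card h3).trans card_biUnion_le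
      _ = ∑ q ∈ univ.filter (fun q : W × W => q.1 ≠ q.2), #{φ : W → V | φ q.1 = φ q.2} *
          Fintype.card V := by rw [sum_mul]
      _ ≤ ∑ _q ∈ univ.filter (fun q : W × W => q.1 ≠ q.2), Fintype.card V ^ Fintype.card W := by
          apply sum_le_sum
          intro q hq
          exact h1 q (mem_filter.1 hq).2
      _ ≤ (Fintype.card W) ^ 2 * Fintype.card V ^ Fintype.card W := by
          rw [sum_const, smul_eq_mul]
          gcongr
          refine (card_filter_le _ _).trans ?_
          rw [card_univ, Fintype.card_prod, sq]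
  exact_mod_cast h2

/-- The deterministic core. -/
theorem core [Nonempty V] (Γ : Finset (Sym2 V)) {n p β : ℝ} (θ : ℕ → ℝ) (hθ : ∀ i, 0 < θ i)
    (hn : (Fintype.card V : ℝ) = n) (hn1 : 1 ≤ n) (hp0 : 0 < p)
    (hβ0 : 0 < β) (hβ1 : β ≤ 1)
    (hQc : ∀ j : Fin k, (#{P ∈ PrC V (H.U j) | Epair H j P ⊆ Γ} : ℝ) ≤ 2 * Lam H j n p)
    (hQu : ∀ j : Fin k, (#{P ∈ PrU V (H.U j) | Epair H j P ⊆ Γ} : ℝ) ≤
      β ^ (2 * #(H.Flt j)) * Lam H j n p)
    (hΓ : (#Γ : ℝ) ≤ 2 * (n ^ 2 * p))
    {κ s0 ε δ : ℝ} (hκ : 0 < κ) (hκ' : ∀ j : Fin k, κ ≤ θ j ^ 2 / 200)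
    (hs0 : ∀ j : Fin k, 384 / θ j ^ 2 * β * (n ^ 2 * p) ≤ s0) (hs00 : 0 ≤ s0) (hε : 0 ≤ ε)
    (hcost : ∀ j : Fin k, 768 * (θ (j + 1) / θ j ^ 3) * (p ^ #(H.F j) * n ^ #(H.U j)) ≤
      ε * (n ^ 2 * p) * (θ j ^ 2 / 200))
    {T r : ℕ} (hT : (k : ℝ) ≤ κ * T)
    (D : List (Fin k × Finset (Sym2 V)) → ∀ i : Fin k, Finset (H.U i → V))
    (hD : ∀ L, (#{φ : W → V | ∀ i, res (H.U i) φ ∈
        run H (fun j => thr H j n p β (θ j)) L (fun _ => univ) i} : ℝ) ≤
        δ * n ^ Fintype.card W → ∀ φ : W → V, ∃ i, res (H.U i) φ ∉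
        run H (fun j => thr H j n p β (θ j)) L (fun _ => univ) i ∨ res (H.U i) φ ∈ D L i)
    (hδ : θ 0 * n ^ Fintype.card W + #{φ : W → V | ¬ Function.Injective φ} ≤
      δ * n ^ Fintype.card W)
    (hbad : ¬ Bad H T r s0 D Γ)
    (G : Finset (Sym2 V)) (hG : G ⊆ Γ)
    (hfew : (#{φ : W → V | Function.Injective φ ∧ im H.E φ ⊆ G} : ℝ) <
      θ k * p ^ #H.E * n ^ Fintype.card W) :
    ∃ F ⊆ G, (#F : ℝ) ≤ ε * (n ^ 2 * p) * k + T * s0 + (∑ i, (#(H.F i) : ℝ)) * r ∧
      ∀ φ : W → V, Function.Injective φ → ¬ im H.E φ ⊆ G \ F := by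
  classical
  have hn0 : 0 < n := by linarith
  set C0 : Cont H V := fun _ => univ with hC0
  have hXk : (#(Xc H k G C0) : ℝ) < θ k * p ^ #(H.Flt k) * n ^ Fintype.card W := by
    rw [H.Flt_k]
    refine lt_of_le_of_lt ?_ hfew
    apply Nat.cast_le.2
    apply card_le_card
    intro φ hφ
    simp only [Xc, mem_filter, mem_univ, true_and, H.Flt_k] at hφ ⊢
    exact ⟨hφ.1, hφ.2.1⟩
  have hΨ : Psi H n C0 = k := by
    unfold Psi
    have : ∀ i : Fin k, (#(C0 i) : ℝ) / n ^ #(H.U i) = 1 := by
      intro i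
      rw [hC0]
      simp only [card_univ, Fintype.card_fun, Fintype.card_coe]
      push_cast
      rw [hn]
      exact div_self (by positivity)
    simp_rw [this]
    simp
  obtain ⟨L, G', hL1, hL2, hL3, hL4, hL5, hL6⟩ := iterate H Γ θ hθ hn hn1 hp0 hβ0 hβ1 hQc hQu hΓ
    hκ hκ' hs0 hε hcost T G C0 hG hXk (fun i => subset_univ _) (by rw [hΨ]; exact hT)
  set Cs := run H (fun j => thr H j n p β (θ j)) L C0 with hCs
  have hfewC : (#{φ : W → V | ∀ i, res (H.U i) φ ∈ Cs i} : ℝ) ≤ δ * n ^ Fintype.card W := by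
    refine le_trans ?_ hδ
    have h1 : univ.filter (fun φ : W → V => ∀ i, res (H.U i) φ ∈ Cs i) ⊆
        Xc H 0 G' Cs ∪ univ.filter (fun φ : W → V => ¬ Function.Injective φ) := by
      intro φ hφ
      simp only [mem_filter, mem_univ, true_and] at hφ
      rw [mem_union]
      by_cases hi : Function.Injective φ
      · left
        simp only [Xc, mem_filter, mem_univ, true_and, H.Flt_zero]
        exact ⟨hi, by simp [im], fun i _ => hφ i⟩
      · right
        simp only [mem_filter, mem_univ, true_and]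
        exact hi
    have h2 : (#{φ : W → V | ∀ i, res (H.U i) φ ∈ Cs i} : ℝ) ≤ #(Xc H 0 G' Cs) +
        #{φ : W → V | ¬ Function.Injective φ} := by
      exact_mod_cast (card_le_card h1).trans (card_union_le _ _)
    linarith
  have hrem := hD L hfewC
  -- maximal families
  have hfam := fun i => exists_maxfam H i (Gj H i G' ∩ D L i) (EL L)
  choose R hR1 hR2 hR3 hR4 using hfam
  have hRr : ∀ i, #(R i) ≤ r := by
    intro i
    by_contra hcon
    push Not at hcon
    obtain ⟨R', hR'1, hR'2⟩ := Finset.exists_subset_card_eq hcon.le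
    apply hbad
    refine ⟨L, hL1, fun q hq => ⟨(hL2 q hq).1.trans hG, (hL2 q hq).2⟩, i, R', ?_, hR'2, ?_, ?_⟩
    · exact (hR'1.trans (hR1 i)).trans inter_subset_right
    · intro x hx
      have h1 := hR1 i (hR'1 hx)
      rw [mem_inter] at h1
      refine ⟨card_cim H h1.1, ?_, hR2 i x (hR'1 hx)⟩
      exact ((mem_Gj H).1 h1.1).2.trans (hL3.trans hG)
    · intro x hx y hy hxy
      exact hR3 i x (hR'1 hx) y (hR'1 hy) hxy
  set B : Finset (Sym2 V) := univ.biUnion (fun i => (R i).biUnion (cim H i)) with hB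
  have hELG : EL L ⊆ G := by
    intro e he
    rw [mem_EL] at he
    obtain ⟨q, hq, he⟩ := he
    exact (hL2 q hq).1 he
  have hBG : B ⊆ G := by
    rw [hB, biUnion_subset]
    intro i _
    rw [biUnion_subset]
    intro x hx
    have h1 := hR1 i hx
    rw [mem_inter] at h1
    exact ((mem_Gj H).1 h1.1).2.trans hL3
  refine ⟨(G \ G') ∪ (EL L ∪ B), ?_, ?_, ?_⟩
  · exact union_subset sdiff_subset (union_subset hELG hBG)
  · have h1 : (#((G \ G') ∪ (EL L ∪ B)) : ℝ) ≤ #(G \ G') + (#(EL L) + #B) := by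
      have := (card_union_le (G \ G') (EL L ∪ B)).trans
        (Nat.add_le_add_left (card_union_le (EL L) B) _)
      exact_mod_cast this
    have h2 : (#(G \ G') : ℝ) ≤ ε * (n ^ 2 * p) * k := by
      refine hL4.trans ?_
      rw [hΨ]
      have h3 := Psi_nonneg H hn0.le Cs
      have h4 : 0 ≤ ε * (n ^ 2 * p) := by positivity
      gcongr
      linarith
    have h3 : (#(EL L) : ℝ) ≤ T * s0 := by
      refine (card_EL_le (fun q hq => (hL2 q hq).2)).trans ?_
      have : (L.length : ℝ) ≤ T := by exact_mod_cast hL1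
      gcongr
    have h4 : (#B : ℝ) ≤ (∑ i, (#(H.F i) : ℝ)) * r := by
      calc (#B : ℝ) ≤ ∑ i, (#((R i).biUnion (cim H i)) : ℝ) := by
            rw [hB]
            exact_mod_cast card_biUnion_le
        _ ≤ ∑ i, (#(H.F i) : ℝ) * r := by
            apply sum_le_sum
            intro i _
            calc (#((R i).biUnion (cim H i)) : ℝ) ≤ ∑ x ∈ R i, (#(cim H i x) : ℝ) := by
                  exact_mod_cast card_biUnion_le
              _ = ∑ x ∈ R i, (#(H.F i) : ℝ) := by
                  apply sum_congr rfl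
                  intro x hx
                  have h1 := hR1 i hx
                  rw [mem_inter] at h1
                  rw [card_cim H h1.1]
              _ = #(R i) * #(H.F i) := by rw [sum_const, nsmul_eq_mul]
              _ ≤ _ := by
                  rw [mul_comm]
                  have : (#(R i) : ℝ) ≤ r := by exact_mod_cast hRr i
                  gcongr
        _ = _ := by rw [sum_mul]
    linarith
  · intro φ hφ hcon
    have hG'φ : im H.E φ ⊆ G' := by
      intro e he
      have h1 := hcon he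
      rw [mem_sdiff, mem_union, mem_sdiff] at h1
      by_contra hne
      exact h1.2 (Or.inl ⟨h1.1, hne⟩)
    have hx : ∀ i, res (H.U i) φ ∈ Gj H i G' := by
      intro i
      rw [mem_Gj]
      refine ⟨⟨φ, hφ, rfl⟩, ?_⟩
      rw [cim_res]
      exact (im_mono (H.F_subset i) φ).trans hG'φ
    have hdisj : ∀ i, Disjoint (cim H i (res (H.U i) φ)) (EL L ∪ B) := by
      intro i
      rw [cim_res, Finset.disjoint_left]
      intro e he he'
      have h1 := hcon (im_mono (H.F_subset i) φ he)
      rw [mem_sdiff, mem_union] at h1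
      exact h1.2 (Or.inr he')
    obtain ⟨i, hi⟩ := hrem φ
    have hiD : res (H.U i) φ ∈ D L i := by
      rcases hi with hi | hi
      · exact absurd (hL5 i (hx i)) hi
      · exact hi
    have hdi := hdisj i
    rw [disjoint_union_right] at hdi
    by_cases hmem : res (H.U i) φ ∈ R i
    · have h1 : cim H i (res (H.U i) φ) ⊆ B := by
        intro e he
        rw [hB, mem_biUnion]
        exact ⟨i, mem_univ _, mem_biUnion.2 ⟨_, hmem, he⟩⟩
      have h2 := card_cim H (hx i)
      have h3 := H.F_pos i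
      have h4 : (cim H i (res (H.U i) φ)).Nonempty := Finset.card_pos.1 (by omega)
      obtain ⟨e, he⟩ := h4
      exact (Finset.disjoint_left.1 hdi.2) he (h1 he)
    · obtain ⟨x, hxR, hxd⟩ := hR4 i _ (mem_inter.2 ⟨hx i, hiD⟩) hmem hdi.1
      apply hxd
      rw [Finset.disjoint_left]
      intro e he he'
      apply (Finset.disjoint_left.1 hdi.2) he'
      rw [hB, mem_biUnion]
      exact ⟨i, mem_univ _, mem_biUnion.2 ⟨x, hxR, he⟩⟩

end Core

end Pool.Agent.MP_9c932e_co
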