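import Mathlib
import Pool.Agent.Lib.MP_9c932e_co.Core

/-!
# Asymptotic statement for patterns
-/

set_option linter.unusedSectionVars false

namespace Pool.Agent.MP_9c932e_co

open Finset Filter

section Asymp

variable {W : Type} [Fintype W] [DecidableEq W] {k : ℕ} (H : Pattern W k)

/-- The removal property of the (random) edge set `Γ`. -/
def Rem (E : Finset (Sym2 W)) {V : Type} [Fintype V] [DecidableEq V] (δ' ε' : ℝ)
    (Γ : Finset (Sym2 V)) : Prop :=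
  ∀ G ⊆ Γ, (#{φ : W → V | Function.Injective φ ∧ im E φ ⊆ G} : ℝ) ≤ δ' →
    ∃ F ⊆ G, (#F : ℝ) ≤ ε' ∧ ∀ φ : W → V, Function.Injective φ → ¬ im E φ ⊆ G \ F

lemma n2p_lower {n p c m : ℝ} (hn : 1 ≤ n) (hc : 0 < c) (hm : 1 ≤ m) (hp : c * n ^ (-1 / m) ≤ p) :
    c * n ≤ n ^ 2 * p := by
  have := low hn hc hm hp 1 (2 : ℝ) 1 (by norm_num; linarith)
  simpa using this

lemma upper_bound (i : Fin k) {n p C : ℝ} (hn : 1 ≤ n) (hp0 : 0 < p)
    (hp : p ≤ C * n ^ (-1 / H.m)) :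
    p ^ #(H.F i) * n ^ #(H.U i) ≤ (max 1 C) ^ #H.E * (n ^ 2 * p) := by
  have hn0 : 0 < n := by linarith
  have hm0 : 0 < H.m := lt_of_lt_of_le one_pos H.hm
  have hF := H.F_pos i
  obtain ⟨f, hf⟩ : ∃ f, #(H.F i) = f + 1 := ⟨#(H.F i) - 1, by omega⟩
  obtain ⟨u, hu⟩ : ∃ u, #(H.U i) = u + 2 := ⟨#(H.U i) - 2, by have := H.hU2 i; omega⟩
  have ht := H.htight i
  have ht' : (f : ℝ) = H.m * u := by
    have h1 : (#(H.E ∩ (H.U i).sym2) : ℝ) = f + 1 := by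
      have : #(H.E ∩ (H.U i).sym2) = f + 1 := hf
      exact_mod_cast this
    rw [h1, hu] at ht
    push_cast at ht
    linarith
  set C' := max 1 C with hC'
  have hC'1 : 1 ≤ C' := le_max_left _ _
  have hp' : p ≤ C' * n ^ (-1 / H.m) := by
    refine hp.trans ?_
    gcongr
    exact le_max_right _ _
  have h1 : p ^ f ≤ C' ^ f * n ^ (-(u : ℝ)) := by
    calc p ^ f ≤ (C' * n ^ (-1 / H.m)) ^ f := by gcongr
      _ = C' ^ f * n ^ (-(u : ℝ)) := by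
        rw [mul_pow, ← Real.rpow_natCast (n ^ (-1 / H.m)) f, ← Real.rpow_mul hn0.le]
        congr 2
        rw [ht']
        field_simp
  have h2 : n ^ (-(u : ℝ)) * n ^ (u + 2) = n ^ 2 := by
    rw [← Real.rpow_natCast n (u + 2), ← Real.rpow_add hn0, ← Real.rpow_natCast n 2]
    congr 1
    push_cast
    ring
  have hfE : f ≤ #H.E := by
    have := card_le_card (H.F_subset i)
    omega
  rw [hf, hu]
  calc p ^ (f + 1) * n ^ (u + 2) = p ^ f * (p * n ^ (u + 2)) := by ring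
    _ ≤ (C' ^ f * n ^ (-(u : ℝ))) * (p * n ^ (u + 2)) := by gcongr
    _ = C' ^ f * (p * (n ^ (-(u : ℝ)) * n ^ (u + 2))) := by ring
    _ = C' ^ f * (n ^ 2 * p) := by rw [h2]; ring
    _ ≤ C' ^ #H.E * (n ^ 2 * p) := by
      gcongr

/-- The sequence of thresholds. -/
noncomputable def thseq (a t0 : ℝ) : ℕ → ℝ
  | 0 => t0
  | (j + 1) => a * thseq a t0 j ^ 5

lemma thseq_pos {a t0 : ℝ} (ha : 0 < a) (ht : 0 < t0) (j : ℕ) : 0 < thseq a t0 j := by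
  induction j with
  | zero => exact ht
  | succ j ih => unfold thseq; positivity

lemma aux1 {θ κ : ℝ} (hθ : 0 < θ) (hκ : 0 < κ) (h : κ ≤ θ ^ 2 / 200) : 384 / θ ^ 2 ≤ 2 / κ := by
  rw [div_le_div_iff₀ (by positivity) hκ]
  have : 0 < θ ^ 2 := by positivity
  linarith

lemma aux2 {θ κ β β1 T x : ℝ} (hθ : 0 < θ) (hκ : 0 < κ) (h : κ ≤ θ ^ 2 / 200) (hβ0 : 0 ≤ β)
    (hβ : β ≤ β1 * κ / (2 * T)) (hT : 0 < T) (hx : 0 ≤ x) :
    384 / θ ^ 2 * β * x ≤ β1 / T * x := by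
  have e1 := aux1 hθ hκ h
  have e2 : 384 / θ ^ 2 * β ≤ β1 / T := by
    calc 384 / θ ^ 2 * β ≤ 2 / κ * (β1 * κ / (2 * T)) := by gcongr
      _ = β1 / T := by field_simp
  gcongr

lemma aux3 {θ a ε1 C1 x y : ℝ} (hθ : 0 < θ) (hC : 0 < C1) (ha0 : 0 < a)
    (ha : a = ε1 / (768 * 200 * C1))
    (hy : y ≤ C1 * x) : 768 * (a * θ ^ 5 / θ ^ 3) * y ≤ ε1 * x * (θ ^ 2 / 200) := by
  have e2 : a * θ ^ 5 / θ ^ 3 = a * θ ^ 2 := by field_simp
  rw [e2]
  calc 768 * (a * θ ^ 2) * y ≤ 768 * (a * θ ^ 2) * (C1 * x) := by gcongr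
    _ = ε1 * x * (θ ^ 2 / 200) := by
      rw [ha]
      field_simp

lemma aux4 {N n M h δ : ℝ} (hn : 0 < n) (h1 : N * n ≤ h ^ 2 * M) (h2 : 2 * h ^ 2 ≤ δ * n)
    (hM : 0 ≤ M) : δ / 2 * M + N ≤ δ * M := by
  have e4 : N * n ≤ (δ / 2 * M) * n := by
    refine h1.trans ?_
    have e5 : h ^ 2 ≤ δ / 2 * n := by linarith
    calc h ^ 2 * M ≤ (δ / 2 * n) * M := by gcongr
      _ = _ := by ring
  have := le_of_mul_le_mul_right e4 hn
  linarith

lemma aux5 {ε k ε1 ε2 et β1 T s0 x r : ℝ} (hε : 0 < ε) (hk : 0 < k) (hx : 0 ≤ x)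
    (hε1 : ε1 = ε / (4 * k)) (hε2 : ε2 = ε / (4 * (et + 1))) (het : 0 ≤ et) (hT : 0 < T)
    (hβ : β1 ≤ ε / 4) (hs0 : s0 = β1 / T * x) (hr : r ≤ ε2 * x + 1) (hetx : et ≤ ε / 4 * x) :
    ε1 * x * k + T * s0 + et * r ≤ ε * x := by
  have t1 : ε1 * x * k = ε / 4 * x := by
    rw [hε1]; field_simp
  have t2 : T * s0 ≤ ε / 4 * x := by
    rw [hs0]
    calc T * (β1 / T * x) = β1 * x := by field_simp
      _ ≤ _ := by gcongr
  have t3 : et * r ≤ ε / 4 * x + et := by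
    calc et * r ≤ et * (ε2 * x + 1) := by gcongr
      _ = (et * ε2) * x + et := by ring
      _ ≤ ε / 4 * x + et := by
        gcongr
        rw [hε2]
        have : et * (ε / (4 * (et + 1))) = ε / 4 * (et / (et + 1)) := by field_simp
        rw [this]
        have : et / (et + 1) ≤ 1 := by rw [div_le_one (by positivity)]; linarith
        nlinarith
  linarith

/-- Main quantitative statement for patterns. -/
theorem pattern_bound {ε c C : ℝ} (hε : 0 < ε) (hc : 0 < c) (hc1 : c ≤ 1) :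
    ∃ δ : ℝ, 0 < δ ∧ ∃ B : ℕ → ℝ, Tendsto B atTop (nhds 0) ∧ ∃ n0 : ℕ, ∀ n : ℕ, n0 ≤ n →
      ∀ p : ℝ, c * (n : ℝ) ^ (-1 / H.m) ≤ p → p ≤ C * (n : ℝ) ^ (-1 / H.m) → p ≤ 1 →
      pr p (KV (Fin n)) (fun Γ => ¬ Rem H.E (δ * p ^ #H.E * (n : ℝ) ^ Fintype.card W)
        (ε * (p * (n : ℝ) ^ 2)) Γ) ≤ B n := by
  classical
  have hk : 0 < k := H.hk
  have hkR : (0 : ℝ) < k := by exact_mod_cast hk
  have hm0 : 0 < H.m := lt_of_lt_of_le one_pos H.hm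
  obtain ⟨C1, hC1⟩ : ∃ C1, C1 = (max 1 C) ^ #H.E := ⟨_, rfl⟩
  have hC1one : 1 ≤ C1 := by rw [hC1]; exact one_le_pow₀ (le_max_left _ _)
  have hC10 : 0 < C1 := by linarith
  obtain ⟨et, het⟩ : ∃ et : ℝ, et = ∑ i, (#(H.F i) : ℝ) := ⟨_, rfl⟩
  have het0 : 0 ≤ et := by rw [het]; positivity
  obtain ⟨ε2, hε2⟩ : ∃ x, x = ε / (4 * (et + 1)) := ⟨_, rfl⟩
  have hε20 : 0 < ε2 := by rw [hε2]; positivity
  obtain ⟨ε1, hε1⟩ : ∃ x, x = ε / (4 * k) := ⟨_, rfl⟩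
  have hε10 : 0 < ε1 := by rw [hε1]; positivity
  obtain ⟨M, hM⟩ : ∃ x, x = 4 / ε2 := ⟨_, rfl⟩
  have hM0 : 0 < M := by rw [hM]; positivity
  have hMε : 4 ≤ M * ε2 := by rw [hM]; field_simp; exact le_rfl
  obtain ⟨γ, hγ⟩ : ∃ x, x = Real.exp (-M) / C1 := ⟨_, rfl⟩
  have hγ0 : 0 < γ := by rw [hγ]; positivity
  have hγM : Real.exp M * γ * C1 ≤ 1 := by
    rw [hγ, Real.exp_neg]
    have := Real.exp_pos M
    field_simp
    exact le_rfl
  obtain ⟨δd, hδd, hdense⟩ := dense_removal H.U H.hlin hγ0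
  obtain ⟨a, ha⟩ : ∃ x, x = ε1 / (768 * 200 * C1) := ⟨_, rfl⟩
  have ha0 : 0 < a := by rw [ha]; positivity
  obtain ⟨θ, hθdef⟩ : ∃ θ, θ = thseq a (δd / 2) := ⟨_, rfl⟩
  have hθ : ∀ i, 0 < θ i := by
    intro i
    rw [hθdef]
    exact thseq_pos ha0 (by positivity) i
  have hθ0 : θ 0 = δd / 2 := by rw [hθdef]; rfl
  have hθs : ∀ i, θ (i + 1) = a * θ i ^ 5 := by intro i; rw [hθdef]; rfl
  obtain ⟨j0, -, hj0⟩ := (univ : Finset (Fin k)).exists_min_image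
    (fun j : Fin k => θ j ^ 2 / 200) ⟨⟨0, hk⟩, mem_univ _⟩
  obtain ⟨κ, hκdef⟩ : ∃ κ, κ = θ j0 ^ 2 / 200 := ⟨_, rfl⟩
  have hκ0 : 0 < κ := by rw [hκdef]; have := hθ j0; positivity
  have hκ' : ∀ j : Fin k, κ ≤ θ j ^ 2 / 200 := by
    intro j
    rw [hκdef]
    exact hj0 j (mem_univ _)
  obtain ⟨T, hTlt⟩ := exists_nat_gt ((k : ℝ) / κ)
  have hT : (k : ℝ) ≤ κ * T := by
    rw [div_lt_iff₀ hκ0] at hTlt
    linarith
  have hT0 : (0 : ℝ) < T := lt_of_le_of_lt (by positivity) hTlt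
  obtain ⟨β1, hβ1⟩ : ∃ x, x = min (1 / (T : ℝ)) (ε / 4) := ⟨_, rfl⟩
  have hβ10 : 0 < β1 := by rw [hβ1]; positivity
  have hβ1T : (T : ℝ) * β1 ≤ 1 := by
    have : β1 ≤ 1 / T := by rw [hβ1]; exact min_le_left _ _
    calc (T : ℝ) * β1 ≤ T * (1 / T) := by gcongr
      _ = 1 := by field_simp
  have hβ1ε : β1 ≤ ε / 4 := by rw [hβ1]; exact min_le_right _ _
  obtain ⟨β, hβ⟩ : ∃ x, x = min 1 (β1 * κ / (2 * T)) := ⟨_, rfl⟩
  have hβ0 : 0 < β := by rw [hβ]; positivity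
  have hβone : β ≤ 1 := by rw [hβ]; exact min_le_left _ _
  have hβle : β ≤ β1 * κ / (2 * T) := by rw [hβ]; exact min_le_right _ _
  have hμ : Real.exp (-(T : ℝ)) * 2 ^ T ≤ 1 := by
    have h1 : (2 : ℝ) ^ T ≤ Real.exp T := by
      calc (2 : ℝ) ^ T ≤ (Real.exp 1) ^ T := by
            gcongr
            have := Real.add_one_le_exp (1 : ℝ)
            linarith
        _ = Real.exp T := by rw [← Real.exp_nat_mul, mul_one]
    calc Real.exp (-(T : ℝ)) * 2 ^ T ≤ Real.exp (-(T : ℝ)) * Real.exp T := by gcongr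
      _ = 1 := by rw [← Real.exp_add]; simp
  -- the error function
  obtain ⟨K1, hK1⟩ : ∃ K1 : Fin k → ℝ, K1 = fun j : Fin k =>
    4 ^ #(H.Flt j) * (2 * (Fintype.card W : ℝ)) ^ (2 * Fintype.card W) / c ^ (2 * #(H.Flt j)) :=
    ⟨_, rfl⟩
  obtain ⟨K2, hK2⟩ : ∃ K2 : Fin k → ℝ, K2 = fun j : Fin k =>
    2 ^ Fintype.card W * (Fintype.card W : ℝ) ^ Fintype.card W /
      (c ^ #(H.Flt j) * β ^ (2 * #(H.Flt j))) := ⟨_, rfl⟩
  obtain ⟨K3, hK3⟩ : ∃ K3 : ℝ, K3 = (T + 1) * k ^ (T + 1) := ⟨_, rfl⟩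
  refine ⟨θ k / 2, by have := hθ k; positivity, fun n => 1 / c * (n : ℝ)⁻¹ +
    ((∑ j, K1 j) * (n : ℝ)⁻¹ + ((∑ j, K2 j) * (n : ℝ) ^ (-(H.ξ / H.m)) +
      K3 * Real.exp (-(c * n)))), ?_, ?_⟩
  · -- convergence
    have h1 : Tendsto (fun n : ℕ => (n : ℝ)⁻¹) atTop (nhds 0) :=
      tendsto_inv_atTop_zero.comp tendsto_natCast_atTop_atTop
    have h2 : Tendsto (fun n : ℕ => (n : ℝ) ^ (-(H.ξ / H.m))) atTop (nhds 0) :=
      (tendsto_rpow_neg_atTop (div_pos H.hξ hm0)).comp tendsto_natCast_atTop_atTop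
    have h3 : Tendsto (fun n : ℕ => Real.exp (-(c * n))) atTop (nhds 0) := by
      apply Real.tendsto_exp_neg_atTop_nhds_zero.comp
      exact Tendsto.const_mul_atTop hc tendsto_natCast_atTop_atTop
    have := ((h1.const_mul (1 / c)).add ((h1.const_mul (∑ j, K1 j)).add
      ((h2.const_mul (∑ j, K2 j)).add (h3.const_mul K3))))
    simpa using this
  -- large n
  obtain ⟨n1, hn1⟩ := exists_nat_gt (2 * (Fintype.card W : ℝ) ^ 2 / δd)
  obtain ⟨n2, hn2⟩ := exists_nat_gt (4 * et / (ε * c))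
  refine ⟨max 1 (max n1 n2), ?_⟩
  intro n hn p hpl hpu hp1
  have hn1' : 1 ≤ n := (le_max_left _ _).trans hn
  have hnn1 : n1 ≤ n := ((le_max_left _ _).trans (le_max_right _ _)).trans hn
  have hnn2 : n2 ≤ n := ((le_max_right _ _).trans (le_max_right _ _)).trans hn
  have hnR : (1 : ℝ) ≤ n := by exact_mod_cast hn1'
  have hn0 : (0 : ℝ) < n := by linarith
  have hp0 : 0 < p := lt_of_lt_of_le (by positivity) hpl
  have : Nonempty (Fin n) := ⟨⟨0, hn1'⟩⟩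
  have hcard : (Fintype.card (Fin n) : ℝ) = n := by simp
  have hx : c * n ≤ (n : ℝ) ^ 2 * p := n2p_lower hnR hc H.hm hpl
  obtain ⟨s0, hs0⟩ : ∃ x, x = β1 / T * ((n : ℝ) ^ 2 * p) := ⟨_, rfl⟩
  have hs00 : 0 ≤ s0 := by rw [hs0]; positivity
  obtain ⟨r, hr⟩ : ∃ r : ℕ, r = ⌈ε2 * ((n : ℝ) ^ 2 * p)⌉₊ := ⟨_, rfl⟩
  have hr1 : ε2 * ((n : ℝ) ^ 2 * p) ≤ r := by rw [hr]; exact Nat.le_ceil _
  have hr2 : (r : ℝ) ≤ ε2 * ((n : ℝ) ^ 2 * p) + 1 := by
    rw [hr]; exact (Nat.ceil_lt_add_one (by positivity)).le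
  -- the dense sets
  have hDex : ∀ L : List (Fin k × Finset (Sym2 (Fin n))), ∃ D : ∀ i : Fin k,
      Finset (H.U i → Fin n), (∀ i, (#(D i) : ℝ) ≤ γ * (n : ℝ) ^ #(H.U i)) ∧
      ((#{φ : W → Fin n | ∀ i, res (H.U i) φ ∈
        run H (fun j => thr H j n p β (θ j)) L (fun _ => univ) i} : ℝ) ≤
        δd * (n : ℝ) ^ Fintype.card W → ∀ φ : W → Fin n, ∃ i, res (H.U i) φ ∉
        run H (fun j => thr H j n p β (θ j)) L (fun _ => univ) i ∨ res (H.U i) φ ∈ D i) := by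
    intro L
    by_cases h : (#{φ : W → Fin n | ∀ i, res (H.U i) φ ∈
        run H (fun j => thr H j n p β (θ j)) L (fun _ => univ) i} : ℝ) ≤
        δd * (n : ℝ) ^ Fintype.card W
    · obtain ⟨D, hD1, hD2⟩ := hdense (Fin n) (run H (fun j => thr H j n p β (θ j)) L
        (fun _ => univ)) (by
          rw [hcard]
          exact le_trans (Nat.cast_le.2 (card_le_card (fun φ hφ => by simpa using hφ))) h)
      rw [hcard] at hD1
      exact ⟨D, hD1, fun _ => hD2⟩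
    · refine ⟨fun _ => ∅, ?_, fun h' => absurd h' h⟩
      intro i
      simp only [card_empty, Nat.cast_zero]
      positivity
  choose D hD1 hD2 using hDex
  have hx0 : 0 ≤ (n : ℝ) ^ 2 * p := by positivity
  have hup : ∀ j : Fin k, p ^ #(H.F j) * (n : ℝ) ^ #(H.U j) ≤ C1 * ((n : ℝ) ^ 2 * p) := by
    intro j
    rw [hC1]
    exact upper_bound H j hnR hp0 hpu
  have hδ' : θ 0 * (n : ℝ) ^ Fintype.card W + #{φ : W → Fin n | ¬ Function.Injective φ} ≤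
      δd * (n : ℝ) ^ Fintype.card W := by
    rw [hθ0]
    have e1 := card_noninj (W := W) (V := Fin n)
    rw [hcard] at e1
    have e2 : 2 * (Fintype.card W : ℝ) ^ 2 ≤ δd * n := by
      rw [div_lt_iff₀ hδd] at hn1
      have e3 : (n1 : ℝ) ≤ n := by exact_mod_cast hnn1
      have e4 : (n1 : ℝ) * δd ≤ n * δd := by gcongr
      linarith only [hn1, e4]
    exact aux4 hn0 e1 e2 (by positivity)
  have hetx : et ≤ ε / 4 * ((n : ℝ) ^ 2 * p) := by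
    have e1 : 4 * et < ε * c * n := by
      rw [div_lt_iff₀ (by positivity)] at hn2
      have e3 : (n2 : ℝ) ≤ n := by exact_mod_cast hnn2
      have e4 : (n2 : ℝ) * (ε * c) ≤ n * (ε * c) := by gcongr
      linarith only [hn2, e4]
    have e2 : ε * (c * n) ≤ ε * ((n : ℝ) ^ 2 * p) := by gcongr
    linarith only [e1, e2]
  -- the implication
  have himp : ∀ Γ ⊆ KV (Fin n), ¬ Rem H.E (θ k / 2 * p ^ #H.E * (n : ℝ) ^ Fintype.card W)
        (ε * (p * (n : ℝ) ^ 2)) Γ →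
      (2 * ((n : ℝ) ^ 2 * p) ≤ (#Γ : ℝ)) ∨
      ((∃ j ∈ (univ : Finset (Fin k)), 2 * Lam H j n p ≤
        (#{P ∈ PrC (Fin n) (H.U j) | Epair H j P ⊆ Γ} : ℝ)) ∨
      ((∃ j ∈ (univ : Finset (Fin k)), β ^ (2 * #(H.Flt j)) * Lam H j n p ≤
        (#{P ∈ PrU (Fin n) (H.U j) | Epair H j P ⊆ Γ} : ℝ)) ∨
      Bad H T r s0 D Γ)) := by
    intro Γ _ hnot
    by_contra hcon
    push Not at hcon
    obtain ⟨h1, h2, h3, h4⟩ := hcon
    apply hnot
    intro G hG hfew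
    have hθk := hθ k
    obtain ⟨F, hFG, hFc, hF⟩ := core H Γ θ hθ hcard hnR hp0 hβ0 hβone
      (fun j => (h2 j (mem_univ _)).le) (fun j => (h3 j (mem_univ _)).le) h1.le hκ0 hκ'
      (s0 := s0) (ε := ε1) (δ := δd) (by
        intro j
        rw [hs0]
        exact aux2 (hθ j) hκ0 (hκ' j) hβ0.le hβle hT0 hx0) hs00 hε10.le (by
        intro j
        rw [hθs j]
        exact aux3 (hθ j) hC10 ha0 ha (hup j)) hT D hD2 hδ' h4 G hG (by
        refine lt_of_le_of_lt hfew ?_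
        have : 0 < p ^ #H.E * (n : ℝ) ^ Fintype.card W := by positivity
        calc θ k / 2 * p ^ #H.E * (n : ℝ) ^ Fintype.card W =
              θ k / 2 * (p ^ #H.E * (n : ℝ) ^ Fintype.card W) := by ring
          _ < θ k * (p ^ #H.E * (n : ℝ) ^ Fintype.card W) := by
              apply mul_lt_mul_of_pos_right _ this
              exact half_lt_self hθk
          _ = _ := by ring)
    refine ⟨F, hFG, hFc.trans ?_, hF⟩
    rw [← het]
    have t5 : ε * (p * (n : ℝ) ^ 2) = ε * ((n : ℝ) ^ 2 * p) := by ring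
    rw [t5]
    exact aux5 hε hkR hx0 hε1 hε2 het0 hT0 hβ1ε hs0 hr2 hetx
  refine (pr_mono hp0.le hp1 _ himp).trans ?_
  refine (pr_or_le hp0.le hp1 _ _ _).trans ?_
  apply add_le_add
  · refine (ambient_edges (V := Fin n) hcard hnR hp0 hp1).trans ?_
    rw [div_mul_eq_mul_div, one_mul, ← one_div, div_div, mul_comm (n : ℝ) c]
    apply one_div_le_one_div_of_le (by positivity) hx
  refine (pr_or_le hp0.le hp1 _ _ _).trans ?_
  apply add_le_add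
  · refine (pr_exists_le hp0.le hp1 _ _ _).trans ?_
    rw [sum_mul]
    apply sum_le_sum
    intro j _
    refine (ambient_clean H j hcard hnR hc hc1 hpl hp1).trans (le_of_eq ?_)
    rw [hK1]
    field_simp
  refine (pr_or_le hp0.le hp1 _ _ _).trans ?_
  apply add_le_add
  · refine (pr_exists_le hp0.le hp1 _ _ _).trans ?_
    rw [sum_mul]
    apply sum_le_sum
    intro j _
    refine (ambient_unclean H j hcard hnR hc hc1 hpl hp1 (by positivity)).trans (le_of_eq ?_)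
    rw [hK2]
  · have hb := bad_le H (V := Fin n) (n := n) (p := p) hcard hp0 hp1 T r (s0 := s0) (γ := γ)
      (C1 := C1) (M := M) (μ := T) (ε2 := ε2) (β1 := β1) D hD1 hγ0 hup hT0.le hM0.le hMε hγM hμ
      hβ1T (by
        rw [hs0]
        apply le_of_eq
        field_simp) hs00 hr1
    refine hb.trans ?_
    rw [hK3]
    gcongr

end Asymp

end Pool.Agent.MP_9c932e_co
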