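import Mathlib

/-!
# Definitions for the sparse random removal lemma
-/

namespace Pool.Agent.MP_9c932e_co

/-- The `2`-density `m₂(H)`: the maximum of `(e(H') - 1) / (v(H') - 2)` over the subgraphs `H'`
of `H` with at least three vertices; if `H` has at most two vertices it is `1 / 2`. -/
noncomputable def twoDensity {W : Type} [Fintype W] (H : SimpleGraph W) : ℝ :=
  if Fintype.card W ≤ 2 then 1 / 2
  else sSup {x : ℝ | ∃ H' : H.Subgraph, 3 ≤ H'.verts.ncard ∧
    x = ((H'.edgeSet.ncard : ℝ) - 1) / ((H'.verts.ncard : ℝ) - 2)}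

open Classical in
/-- The probability that the binomial random graph `G_{n,p}` has the property `Q`. -/
noncomputable def gnpProb (n : ℕ) (p : ℝ) (Q : SimpleGraph (Fin n) → Prop) : ℝ :=
  ∑ Γ : SimpleGraph (Fin n) with Q Γ,
    p ^ Γ.edgeSet.ncard * (1 - p) ^ (n.choose 2 - Γ.edgeSet.ncard)

/-- The copies of `H` in a subgraph `G` of `Γ`: the subgraphs of `G` isomorphic to `H`. -/
def copies {W V : Type} (H : SimpleGraph W) {Γ : SimpleGraph V} (G : Γ.Subgraph) :
    Set Γ.Subgraph :=
  {H' | H' ≤ G ∧ Nonempty (H ≃g H'.coe)}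

/-- `H` is degenerate: no two edges of `H` share a vertex and `H` has an isolated vertex. -/
def Degenerate {W : Type} (H : SimpleGraph W) : Prop :=
  (∀ a b c, H.Adj a b → H.Adj a c → b = c) ∧ ∃ w, ∀ w', ¬ H.Adj w w'

/-- Every subgraph `G` of `Γ` with at most `t` copies of `H` can be made `H`-free by deleting at
most `s` edges. (If `H` is degenerate, only spanning subgraphs `G` are considered.) -/
def Removal {W V : Type} (H : SimpleGraph W) (t s : ℝ) (Γ : SimpleGraph V) : Prop :=
  ∀ G : Γ.Subgraph, (¬ Degenerate H ∨ G.verts = Set.univ) → ((copies H G).ncard : ℝ) ≤ t →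
    ∃ F : Set (Sym2 V), F ⊆ G.edgeSet ∧ (F.ncard : ℝ) ≤ s ∧ copies H (G.deleteEdges F) = ∅

end Pool.Agent.MP_9c932e_co
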