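import Mathlib
import Pool.Agent.Lib.MP_9c932e_co.Defs
import Pool.Agent.Lib.MP_9c932e_co.Pattern

/-!
# The pattern of a graph
-/

set_option linter.unusedSectionVars false

namespace Pool.Agent.MP_9c932e_co

open Finset

section Build

variable {W : Type} [Fintype W] [DecidableEq W]

open Classical in
/-- The edges of a graph as a finset. -/
noncomputable def eS {V : Type} [Fintype V] (G : SimpleGraph V) : Finset (Sym2 V) :=
  univ.filter (fun e => e ∈ G.edgeSet)

@[simp] lemma mem_eS {V : Type} [Fintype V] {G : SimpleGraph V} {e : Sym2 V} :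
    e ∈ eS G ↔ e ∈ G.edgeSet := by simp [eS]

lemma eS_not_diag {V : Type} [Fintype V] {G : SimpleGraph V} {e : Sym2 V} (he : e ∈ eS G) :
    ¬ e.IsDiag := G.not_isDiag_of_mem_edgeSet (mem_eS.1 he)

/-- numbers in the definition of the density, for induced subgraphs -/
lemma induce_mem (H : SimpleGraph W) (T : Finset W) (hT : 3 ≤ #T) :
    ((#(eS H ∩ T.sym2) : ℝ) - 1) / ((#T : ℝ) - 2) ∈
      {x : ℝ | ∃ H' : H.Subgraph, 3 ≤ H'.verts.ncard ∧
        x = ((H'.edgeSet.ncard : ℝ) - 1) / ((H'.verts.ncard : ℝ) - 2)} := by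
  refine ⟨(⊤ : H.Subgraph).induce (T : Set W), ?_, ?_⟩
  · simpa using hT
  · have h1 : ((⊤ : H.Subgraph).induce (T : Set W)).edgeSet =
        ((eS H ∩ T.sym2 : Finset (Sym2 W)) : Set (Sym2 W)) := by
      ext e
      induction e using Sym2.ind with
      | _ a b =>
        simp only [SimpleGraph.Subgraph.mem_edgeSet, SimpleGraph.Subgraph.induce_adj,
          SimpleGraph.Subgraph.top_adj, coe_inter, Set.mem_inter_iff, mem_coe, mem_eS,
          SimpleGraph.mem_edgeSet, mk_mem_sym2_iff]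
        tauto
    rw [h1, Set.ncard_coe_finset]
    simp

lemma density_bdd (H : SimpleGraph W) : BddAbove
    {x : ℝ | ∃ H' : H.Subgraph, 3 ≤ H'.verts.ncard ∧
        x = ((H'.edgeSet.ncard : ℝ) - 1) / ((H'.verts.ncard : ℝ) - 2)} := by
  refine ⟨Fintype.card (Sym2 W), ?_⟩
  rintro x ⟨H', h3, rfl⟩
  have h1 : (H'.edgeSet.ncard : ℝ) ≤ Fintype.card (Sym2 W) := by
    have : H'.edgeSet.ncard ≤ Nat.card (Sym2 W) := Set.ncard_le_card _
    rw [Nat.card_eq_fintype_card] at this
    exact_mod_cast this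
  have h2 : (1 : ℝ) ≤ (H'.verts.ncard : ℝ) - 2 := by
    have : (3 : ℝ) ≤ H'.verts.ncard := by exact_mod_cast h3
    linarith
  rw [div_le_iff₀ (by linarith)]
  have h4 : (0 : ℝ) ≤ Fintype.card (Sym2 W) := Nat.cast_nonneg _
  nlinarith

lemma dens_two (E : Finset (Sym2 W)) (hE : ∀ e ∈ E, ¬ e.IsDiag) (T : Finset W) (hT : #T = 2) :
    #(E ∩ T.sym2) ≤ 1 := by
  obtain ⟨a, b, hab, rfl⟩ := Finset.card_eq_two.1 hT
  have : E ∩ ({a, b} : Finset W).sym2 ⊆ {s(a, b)} := by
    intro e he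
    rw [mem_inter] at he
    have hd := hE e he.1
    have h2 := he.2
    induction e using Sym2.ind with
    | _ x y =>
      rw [Sym2.mk_isDiag_iff] at hd
      rw [mk_mem_sym2_iff] at h2
      simp only [mem_insert, mem_singleton] at h2 ⊢
      rcases h2 with ⟨rfl | rfl, rfl | rfl⟩
      · exact absurd rfl hd
      · rfl
      · exact Sym2.eq_swap
      · exact absurd rfl hd
  exact (card_le_card this).trans (by simp)

lemma dens_le (H : SimpleGraph W) (h3 : 3 ≤ Fintype.card W) (T : Finset W) (hT : 2 ≤ #T) :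
    (#(eS H ∩ T.sym2) : ℝ) - 1 ≤ twoDensity H * (#T - 2) := by
  rcases Nat.lt_or_ge 2 #T with h | h
  · have h1 := le_csSup (density_bdd H) (induce_mem H T h)
    have h2 : twoDensity H = sSup {x : ℝ | ∃ H' : H.Subgraph, 3 ≤ H'.verts.ncard ∧
        x = ((H'.edgeSet.ncard : ℝ) - 1) / ((H'.verts.ncard : ℝ) - 2)} := by
      unfold twoDensity
      rw [if_neg (by omega)]
    rw [← h2, div_le_iff₀ ?_] at h1
    · exact h1
    · have : (3 : ℝ) ≤ #T := by exact_mod_cast h
      linarith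
  · have h1 : #T = 2 := by omega
    have h2 := dens_two (eS H) (fun e he => eS_not_diag he) T h1
    rw [h1]
    have : (#(eS H ∩ T.sym2) : ℝ) ≤ 1 := by exact_mod_cast h2
    push_cast
    linarith

lemma exists_pos_le {α : Type*} (s : Finset α) (f : α → ℝ) (hf : ∀ x ∈ s, 0 < f x) :
    ∃ ξ : ℝ, 0 < ξ ∧ ∀ x ∈ s, ξ ≤ f x := by
  rcases s.eq_empty_or_nonempty with rfl | hs
  · exact ⟨1, one_pos, by simp⟩
  · obtain ⟨x0, hx0, hmin⟩ := s.exists_min_image f hs
    exact ⟨f x0, hf x0 hx0, hmin⟩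

/-- A graph in which some vertex has degree at least two gives rise to a pattern. -/
theorem exists_pattern (H : SimpleGraph W)
    (h : ∃ a b c, b ≠ c ∧ H.Adj a b ∧ H.Adj a c) :
    1 ≤ twoDensity H ∧ ∃ (k : ℕ) (P : Pattern W k), P.E = eS H ∧ P.m = twoDensity H := by
  classical
  obtain ⟨a, b, c, hbc, hab, hac⟩ := h
  have habc : #({a, b, c} : Finset W) = 3 := by
    rw [card_eq_three]
    exact ⟨a, b, c, hab.ne, hac.ne, hbc, rfl⟩
  have h3 : 3 ≤ Fintype.card W := by
    rw [← habc]; exact card_le_univ _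
  set E := eS H with hE
  set m := twoDensity H with hm
  have hloop : ∀ e ∈ E, ¬ e.IsDiag := fun e he => eS_not_diag he
  have hdens : ∀ T : Finset W, 2 ≤ #T → (#(E ∩ T.sym2) : ℝ) - 1 ≤ m * (#T - 2) :=
    dens_le H h3
  have hm1 : 1 ≤ m := by
    have h1 := hdens {a, b, c} (by omega)
    rw [habc] at h1
    have h2 : ({s(a, b), s(a, c)} : Finset (Sym2 W)) ⊆ E ∩ ({a, b, c} : Finset W).sym2 := by
      intro e he
      rw [mem_insert, mem_singleton] at he
      rw [mem_inter]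
      rcases he with rfl | rfl
      · exact ⟨by rw [hE, mem_eS]; exact hab, by rw [mk_mem_sym2_iff]; simp⟩
      · exact ⟨by rw [hE, mem_eS]; exact hac, by rw [mk_mem_sym2_iff]; simp⟩
    have h4 : #({s(a, b), s(a, c)} : Finset (Sym2 W)) = 2 := by
      apply card_pair
      intro heq
      rw [Sym2.eq_iff] at heq
      rcases heq with ⟨-, h5⟩ | ⟨h5, h6⟩
      · exact hbc h5
      · exact hac.ne h5
    have h5 : (2 : ℝ) ≤ #(E ∩ ({a, b, c} : Finset W).sym2) := by
      have := card_le_card h2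
      rw [h4] at this
      exact_mod_cast this
    push_cast at h1
    linarith
  refine ⟨hm1, ?_⟩
  -- tight sets
  let Ti : Finset (Finset W) := univ.filter (fun T => 2 ≤ #T ∧
    (#(E ∩ T.sym2) : ℝ) - 1 = m * (#T - 2))
  have hTi : ∀ T, T ∈ Ti ↔ 2 ≤ #T ∧ (#(E ∩ T.sym2) : ℝ) - 1 = m * (#T - 2) := by
    intro T; simp [Ti]
  let Cl : Finset (Finset W) := Ti.filter (fun T => ∀ T' ∈ Ti, T ⊆ T' → T' = T)
  have hCl : ∀ T, T ∈ Cl ↔ T ∈ Ti ∧ ∀ T' ∈ Ti, T ⊆ T' → T' = T := by
    intro T; simp [Cl]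
  have hcov : ∀ e ∈ E, ∃ T ∈ Cl, e ∈ T.sym2 := by
    intro e he
    have hd := hloop e he
    induction e using Sym2.ind with
    | _ x y =>
      rw [Sym2.mk_isDiag_iff] at hd
      have hT0 : ({x, y} : Finset W) ∈ Ti := by
        rw [hTi]
        have hc2 : #({x, y} : Finset W) = 2 := card_pair hd
        refine ⟨hc2.ge, ?_⟩
        rw [hc2]
        have h1 := dens_two E hloop {x, y} hc2
        have h2 : 0 < #(E ∩ ({x, y} : Finset W).sym2) := by
          apply Finset.card_pos.2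
          exact ⟨s(x, y), mem_inter.2 ⟨he, by rw [mk_mem_sym2_iff]; simp⟩⟩
        have h3 : #(E ∩ ({x, y} : Finset W).sym2) = 1 := by omega
        rw [h3]
        push_cast
        ring
      obtain ⟨T, hT, hmax⟩ := Finset.exists_max_image (Ti.filter (fun T => {x, y} ⊆ T))
        (fun T => #T) ⟨{x, y}, mem_filter.2 ⟨hT0, subset_rfl⟩⟩
      rw [mem_filter] at hT
      refine ⟨T, ?_, ?_⟩
      · rw [hCl]
        refine ⟨hT.1, ?_⟩
        intro T' hT' hTT'
        exact (eq_of_subset_of_card_le hTT' (hmax T' (mem_filter.2 ⟨hT', hT.2.trans hTT'⟩))).symm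
      · rw [mk_mem_sym2_iff]
        exact ⟨hT.2 (by simp), hT.2 (by simp)⟩
  -- uncrossing
  have hlin : ∀ T1 ∈ Cl, ∀ T2 ∈ Cl, T1 ≠ T2 → #(T1 ∩ T2) ≤ 1 := by
    intro T1 h1 T2 h2 hne
    by_contra hcon
    push Not at hcon
    rw [hCl] at h1 h2
    have e1 := ((hTi T1).1 h1.1)
    have e2 := ((hTi T2).1 h2.1)
    have hcap : 2 ≤ #(T1 ∩ T2) := hcon
    have hcup : 2 ≤ #(T1 ∪ T2) := hcap.trans (card_le_card
      ((inter_subset_left).trans subset_union_left))
    have e3 := hdens (T1 ∩ T2) hcap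
    have e4 := hdens (T1 ∪ T2) hcup
    have e5 : #(E ∩ T1.sym2) + #(E ∩ T2.sym2) ≤
        #(E ∩ (T1 ∪ T2).sym2) + #(E ∩ (T1 ∩ T2).sym2) := by
      rw [← card_union_add_card_inter]
      apply add_le_add
      · apply card_le_card
        apply union_subset
        · exact inter_subset_inter_left (sym2_mono subset_union_left)
        · exact inter_subset_inter_left (sym2_mono subset_union_right)
      · apply card_le_card
        intro e he
        simp only [mem_inter, mem_sym2_iff] at he ⊢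
        exact ⟨he.1.1, fun x hx => ⟨he.1.2 x hx, he.2.2 x hx⟩⟩
    have e5' : (#(E ∩ T1.sym2) : ℝ) + #(E ∩ T2.sym2) ≤
        #(E ∩ (T1 ∪ T2).sym2) + #(E ∩ (T1 ∩ T2).sym2) := by exact_mod_cast e5
    have e6 : (#(T1 ∪ T2) : ℝ) + #(T1 ∩ T2) = #T1 + #T2 := by
      exact_mod_cast card_union_add_card_inter T1 T2
    have e7 : T1 ∪ T2 ∈ Ti := by
      rw [hTi]
      refine ⟨hcup, le_antisymm e4 ?_⟩
      have : m * ((#(T1 ∪ T2) : ℝ) - 2) = m * (#T1 - 2) + m * (#T2 - 2) -
          m * (#(T1 ∩ T2) - 2) := by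
        have : (#(T1 ∪ T2) : ℝ) = #T1 + #T2 - #(T1 ∩ T2) := by linarith
        rw [this]; ring
      rw [this]
      linarith [e1.2, e2.2]
    have e8 := h1.2 _ e7 subset_union_left
    have e9 := h2.2 _ e7 subset_union_right
    exact hne (e8.symm.trans e9)
  have hstrict : ∀ T1 ∈ Cl, ∀ T, T1 ⊂ T → 0 < m * (#T - 2) - ((#(E ∩ T.sym2) : ℝ) - 1) := by
    intro T1 h1 T hT
    rw [hCl] at h1
    have e1 := (hTi T1).1 h1.1
    have h2 : 2 ≤ #T := e1.1.trans (card_le_card hT.1)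
    have e4 := hdens T h2
    rcases lt_or_eq_of_le e4 with h | h
    · linarith
    · exfalso
      have e7 : T ∈ Ti := (hTi T).2 ⟨h2, h⟩
      have e8 := h1.2 T e7 hT.1
      exact hT.ne e8.symm
  let φ := Cl.equivFin
  let U : Fin #Cl → Finset W := fun i => (φ.symm i : Finset W)
  have hU : ∀ i, U i ∈ Cl := fun i => (φ.symm i).2
  have hUinj : ∀ i j, i ≠ j → U i ≠ U j := by
    intro i j hij h
    exact hij (φ.symm.injective (Subtype.ext h))
  obtain ⟨ξ, hξ0, hξ⟩ := exists_pos_le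
    ((univ : Finset (Fin #Cl × Finset W)).filter (fun q => U q.1 ⊂ q.2))
    (fun q => m * (#q.2 - 2) - ((#(E ∩ q.2.sym2) : ℝ) - 1)) (by
      intro q hq
      exact hstrict _ (hU q.1) _ (mem_filter.1 hq).2)
  refine ⟨#Cl, {
    E := E
    U := U
    m := m
    ξ := ξ
    hk := ?_
    hm := hm1
    hξ := hξ0
    hloop := hloop
    hcov := ?_
    hU2 := fun i => ((hTi _).1 ((hCl _).1 (hU i)).1).1
    hlin := fun i j hij => hlin _ (hU i) _ (hU j) (hUinj i j hij)
    htight := fun i => ((hTi _).1 ((hCl _).1 (hU i)).1).2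
    hdens := hdens
    hslack := ?_ }, rfl, rfl⟩
  · apply Finset.card_pos.2
    obtain ⟨T, hT, -⟩ := hcov s(a, b) (by rw [hE, mem_eS]; exact hab)
    exact ⟨T, hT⟩
  · intro e he
    obtain ⟨T, hT, heT⟩ := hcov e he
    refine ⟨φ ⟨T, hT⟩, ?_⟩
    simp only [U, Equiv.symm_apply_apply]
    exact heT
  · intro i T hT
    have := hξ (i, T) (by simp [hT])
    dsimp only at this
    linarith

end Build

end Pool.Agent.MP_9c932e_co
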