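import Mathlib
import Pool.Agent.Lib.MP_9c932e_co.Asymp

/-!
# Subgraphs with an arbitrary vertex set
-/

set_option linter.unusedSectionVars false
set_option linter.unusedVariables false

namespace Pool.Agent.MP_9c932e_co

open Finset Filter

section Vert

variable {W : Type} [Fintype W] [DecidableEq W] {V : Type} [Fintype V] [DecidableEq V]

/-- The removal property for subgraphs with vertex set `X` and edge set `G`. -/
def RemX (E : Finset (Sym2 W)) {V : Type} [Fintype V] [DecidableEq V] (δ' ε' : ℝ)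
    (Γ : Finset (Sym2 V)) : Prop :=
  ∀ X : Finset V, ∀ G ⊆ Γ, G ⊆ X.sym2 →
    (#{φ : W → V | Function.Injective φ ∧ (∀ w, φ w ∈ X) ∧ im E φ ⊆ G} : ℝ) ≤ δ' →
    ∃ F ⊆ G, (#F : ℝ) ≤ ε' ∧ ∀ φ : W → V, Function.Injective φ → ¬ im E φ ⊆ G \ F

/-- No small vertex set spans many edges. -/
def SmallX {V : Type} [Fintype V] [DecidableEq V] (b ε' : ℝ) (Γ : Finset (Sym2 V)) : Prop :=
  ∀ X : Finset V, (#X : ℝ) < b → (#(Γ ∩ X.sym2) : ℝ) ≤ ε'

lemma glue_inj {T : Finset W} {ψ : T → V} {χ : {x // x ∉ T} → V} (h1 : Function.Injective ψ)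
    (h2 : Function.Injective χ) (h3 : ∀ a b, ψ a ≠ χ b) : Function.Injective (glue T ψ χ) := by
  intro x y hxy
  by_cases hx : x ∈ T <;> by_cases hy : y ∈ T
  · rw [glue_mem _ _ hx, glue_mem _ _ hy] at hxy
    exact congrArg Subtype.val (h1 hxy)
  · rw [glue_mem _ _ hx, glue_not_mem _ _ hy] at hxy
    exact absurd hxy (h3 _ _)
  · rw [glue_not_mem _ _ hx, glue_mem _ _ hy] at hxy
    exact absurd hxy.symm (h3 _ _)
  · rw [glue_not_mem _ _ hx, glue_not_mem _ _ hy] at hxy
    exact congrArg Subtype.val (h2 hxy)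

/-- Counting injective maps into the complement of a set. -/
lemma card_inj_ge (I : Type) [Fintype I] [DecidableEq I] (Y : Finset V) (b : ℕ)
    (hb : b + Fintype.card I ≤ #Y) :
    b ^ Fintype.card I ≤ #{χ : I → V | Function.Injective χ ∧ ∀ x, χ x ∈ Y} := by
  classical
  have h1 : Fintype.card (I ↪ Y) ≤ #{χ : I → V | Function.Injective χ ∧ ∀ x, χ x ∈ Y} := by
    rw [← card_univ]
    apply card_le_card_of_injOn (fun f => fun x => (f x : V))
    · intro f _
      simp only [coe_filter, mem_univ, true_and, Set.mem_ofPred_eq]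
      refine ⟨?_, fun x => (f x).2⟩
      intro x y hxy
      exact f.injective (Subtype.ext hxy)
    · intro f _ g _ h
      ext x
      exact congrFun h x
  refine le_trans ?_ h1
  rw [Fintype.card_embedding_eq, Fintype.card_coe]
  refine le_trans ?_ (Nat.pow_sub_le_descFactorial _ _)
  gcongr
  omega

/-- Partial embeddings of the non-isolated vertices which extend. -/
noncomputable def Part (E : Finset (Sym2 W)) (G : Finset (Sym2 V)) : Finset (vs E → V) := by
  classical
  exact univ.filter (fun ψ => ∃ φ : W → V, Function.Injective φ ∧ im E φ ⊆ G ∧ res (vs E) φ = ψ)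

lemma mem_Part {E : Finset (Sym2 W)} {G : Finset (Sym2 V)} {ψ : vs E → V} :
    ψ ∈ Part E G ↔ ∃ φ : W → V, Function.Injective φ ∧ im E φ ⊆ G ∧ res (vs E) φ = ψ := by
  simp [Part]

lemma card_compl_vs (E : Finset (Sym2 W)) :
    Fintype.card {x // x ∉ vs E} + #(vs E) = Fintype.card W := by
  have h1 := Fintype.card_subtype_compl (fun x => x ∈ vs E)
  rw [Fintype.card_coe] at h1
  have hle : #(vs E) ≤ Fintype.card W := card_le_univ _
  have : Fintype.card {x // x ∉ vs E} = Fintype.card W - #(vs E) := h1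
  omega

/-- Every partial embedding extends in many ways. -/
lemma count_ge (E : Finset (Sym2 W)) (X : Finset V) (G : Finset (Sym2 V)) (hGX : G ⊆ X.sym2)
    (b' : ℕ) (hbX' : b' + Fintype.card W ≤ #X) :
    #(Part E G) * b' ^ (Fintype.card {x // x ∉ vs E}) ≤
      #{φ : W → V | Function.Injective φ ∧ (∀ w, φ w ∈ X) ∧ im E φ ⊆ G} := by
  classical
  have hE : E ⊆ (vs E).sym2 := subset_vs_sym2 E
  have h3 : ∀ ψ ∈ Part E G, b' ^ Fintype.card {x // x ∉ vs E} ≤
      #(univ.filter (fun χ : {x // x ∉ vs E} → V => Function.Injective χ ∧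
        ∀ x, χ x ∈ X \ univ.image ψ)) := by
    intro ψ _
    apply card_inj_ge
    have e1 : #(univ.image ψ) ≤ #(vs E) := card_image_le.trans (by simp)
    have e2 : #X - #(univ.image ψ) ≤ #(X \ univ.image ψ) := le_card_sdiff _ _
    have e3 := card_compl_vs E
    omega
  calc #(Part E G) * b' ^ Fintype.card {x // x ∉ vs E}
      = ∑ _ψ ∈ Part E G, b' ^ Fintype.card {x // x ∉ vs E} := by
        rw [sum_const, smul_eq_mul]
    _ ≤ ∑ ψ ∈ Part E G, #(univ.filter (fun χ : {x // x ∉ vs E} → V => Function.Injective χ ∧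
          ∀ x, χ x ∈ X \ univ.image ψ)) := sum_le_sum h3
    _ ≤ _ := by
      rw [← card_sigma]
      apply card_le_card_of_injOn (fun q => glue (vs E) q.1 q.2)
      · intro q hq
        simp only [coe_sigma, Set.mem_sigma_iff, mem_coe, mem_filter, mem_univ, true_and,
          mem_Part] at hq
        obtain ⟨⟨φ, hφ1, hφ2, hφ3⟩, hχ1, hχ2⟩ := hq
        simp only [coe_filter, mem_univ, true_and, Set.mem_ofPred_eq]
        have hψ : ∀ x : vs E, q.1 x = φ x := by
          intro x
          rw [← hφ3]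
          rfl
        have hψinj : Function.Injective q.1 := by
          intro x y hxy
          rw [hψ, hψ] at hxy
          exact Subtype.ext (hφ1 hxy)
        have hTX : ∀ x ∈ vs E, φ x ∈ X := by
          intro x hx
          simp only [vs, mem_filter, mem_univ, true_and] at hx
          obtain ⟨e, he, hxe⟩ := hx
          have h4 : Sym2.map φ e ∈ G := hφ2 (mem_im.2 ⟨e, he, rfl⟩)
          exact mem_sym2_iff.1 (hGX h4) _ (Sym2.mem_map.2 ⟨x, hxe, rfl⟩)
        refine ⟨glue_inj hψinj hχ1 ?_, ?_, ?_⟩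
        · intro a c hac
          have := hχ2 c
          exact (Finset.mem_sdiff.1 this).2 (Finset.mem_image.2 ⟨a, mem_univ _, hac⟩)
        · intro w
          by_cases hw : w ∈ vs E
          · rw [glue_mem _ _ hw, hψ]
            exact hTX w hw
          · rw [glue_not_mem _ _ hw]
            exact (Finset.mem_sdiff.1 (hχ2 ⟨w, hw⟩)).1
        · have : im E (glue (vs E) q.1 q.2) = im E φ := by
            apply im_congr hE
            intro x hx
            rw [glue_mem _ _ hx, hψ]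
          rw [this]
          exact hφ2
      · intro q _ q' _ h
        dsimp only at h
        have e1 : q.1 = q'.1 := by
          have := congrArg (res (vs E)) h
          rwa [res_glue, res_glue] at this
        have e2 : q.2 = q'.2 := by
          ext x
          have := congrFun h x.1
          rwa [glue_not_mem _ _ x.2, glue_not_mem _ _ x.2] at this
        obtain ⟨a, b⟩ := q
        obtain ⟨a', b'⟩ := q'
        dsimp only at e1 e2
        subst e1 e2
        rfl

/-- Isolated vertices of the pattern can be re-embedded into a large vertex set. -/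
lemma count_compare (E : Finset (Sym2 W)) (X : Finset V) (G : Finset (Sym2 V)) (hGX : G ⊆ X.sym2)
    {b : ℝ} (hb : 0 < b) (hbX : b + Fintype.card W + 1 ≤ #X) :
    (#{φ : W → V | Function.Injective φ ∧ im E φ ⊆ G} : ℝ) *
      b ^ (Fintype.card {x // x ∉ vs E}) ≤
      #{φ : W → V | Function.Injective φ ∧ (∀ w, φ w ∈ X) ∧ im E φ ⊆ G} *
      (Fintype.card V : ℝ) ^ (Fintype.card {x // x ∉ vs E}) := by
  classical
  have h1 : #{φ : W → V | Function.Injective φ ∧ im E φ ⊆ G} ≤
      #(Part E G) * Fintype.card V ^ Fintype.card {x // x ∉ vs E} := by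
    rw [← Fintype.card_fun, ← card_univ (α := {x // x ∉ vs E} → V), ← card_product]
    apply card_le_card_of_injOn (fun φ => (res (vs E) φ, fun x : {x // x ∉ vs E} => φ x))
    · intro φ hφ
      simp only [coe_filter, mem_univ, true_and, Set.mem_ofPred_eq] at hφ
      simp only [coe_product, Set.mem_prod, mem_coe, mem_univ, and_true, mem_Part]
      exact ⟨φ, hφ.1, hφ.2, rfl⟩
    · intro φ _ φ' _ h
      simp only [Prod.mk.injEq] at h
      ext x
      by_cases hx : x ∈ vs E
      · exact congrFun h.1 ⟨x, hx⟩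
      · exact congrFun h.2 ⟨x, hx⟩
  obtain ⟨b', hb'⟩ : ∃ b' : ℕ, b' = ⌈b⌉₊ := ⟨_, rfl⟩
  have hbb' : b ≤ b' := by rw [hb']; exact Nat.le_ceil _
  have hb'1 : (b' : ℝ) < b + 1 := by rw [hb']; exact Nat.ceil_lt_add_one hb.le
  have hbX' : b' + Fintype.card W ≤ #X := by
    have : ((b' + Fintype.card W : ℕ) : ℝ) < (#X + 1 : ℕ) := by
      push_cast
      linarith
    have := Nat.cast_lt.1 this
    omega
  have h2 := count_ge E X G hGX b' hbX'
  have h1' : (#{φ : W → V | Function.Injective φ ∧ im E φ ⊆ G} : ℝ) ≤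
      #(Part E G) * (Fintype.card V : ℝ) ^ Fintype.card {x // x ∉ vs E} := by exact_mod_cast h1
  have h2' : (#(Part E G) : ℝ) * (b' : ℝ) ^ Fintype.card {x // x ∉ vs E} ≤
      #{φ : W → V | Function.Injective φ ∧ (∀ w, φ w ∈ X) ∧ im E φ ⊆ G} := by exact_mod_cast h2
  calc (#{φ : W → V | Function.Injective φ ∧ im E φ ⊆ G} : ℝ) *
        b ^ Fintype.card {x // x ∉ vs E}
      ≤ (#(Part E G) * (Fintype.card V : ℝ) ^ Fintype.card {x // x ∉ vs E}) *
        (b' : ℝ) ^ Fintype.card {x // x ∉ vs E} := by gcongr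
    _ = (#(Part E G) * (b' : ℝ) ^ Fintype.card {x // x ∉ vs E}) *
        (Fintype.card V : ℝ) ^ Fintype.card {x // x ∉ vs E} := by ring
    _ ≤ _ := by gcongr

/-- From spanning subgraphs to arbitrary subgraphs. -/
lemma remX_of_rem (E : Finset (Sym2 W)) (hE : E.Nonempty) {η δ' ε' n : ℝ}
    (hn : (Fintype.card V : ℝ) = n) (hn0 : 0 < n) (hη : 0 < η)
    (hbig : η / 2 * n + Fintype.card W + 1 ≤ η * n) (Γ : Finset (Sym2 V))
    (h1 : Rem E δ' ε' Γ) (h2 : SmallX (η * n) ε' Γ) :
    RemX E (δ' * (η / 2) ^ (Fintype.card {x // x ∉ vs E})) ε' Γ := by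
  classical
  intro X G hG hGX hfew
  by_cases hX : (#X : ℝ) < η * n
  · refine ⟨G, subset_rfl, ?_, ?_⟩
    · refine le_trans ?_ (h2 X hX)
      exact_mod_cast card_le_card (subset_inter hG hGX)
    · intro φ _ hcon
      obtain ⟨e, he⟩ := hE
      have := hcon (mem_im.2 ⟨e, he, rfl⟩)
      simp at this
  · rw [not_lt] at hX
    apply h1 G hG
    set s := Fintype.card {x // x ∉ vs E} with hs
    have hpos : 0 < η / 2 * n := by positivity
    have h3 := count_compare E X G hGX hpos (hbig.trans hX)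
    rw [hn] at h3
    have h4 : (#{φ : W → V | Function.Injective φ ∧ im E φ ⊆ G} : ℝ) * (η / 2 * n) ^ s ≤
        δ' * (η / 2 * n) ^ s := by
      calc _ ≤ _ := h3
        _ ≤ (δ' * (η / 2) ^ s) * n ^ s := by gcongr
        _ = _ := by rw [mul_pow]; ring
    exact le_of_mul_le_mul_right h4 (by positivity)

/-- Small sets span few edges. -/
lemma smallX_prob {n p c ε η M : ℝ} (hn : (Fintype.card V : ℝ) = n) (hn1 : 1 ≤ n)
    (hp0 : 0 < p) (hp1 : p ≤ 1) (hc : 0 < c) (hx : c * n ≤ n ^ 2 * p) (hη : 0 < η) (hM0 : 0 ≤ M)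
    (hM : 1 / c + 2 ≤ M * ε) (hη' : Real.exp M * η ^ 2 ≤ 1) (hε : 0 < ε) :
    pr p (KV V) (fun Γ => ¬ SmallX (η * n) (ε * (p * n ^ 2)) Γ) ≤ Real.exp (-(n ^ 2 * p)) := by
  classical
  have hn0 : 0 < n := by linarith
  obtain ⟨x, hxdef⟩ : ∃ x, x = n ^ 2 * p := ⟨_, rfl⟩
  have hx' : ε * (p * n ^ 2) = ε * x := by rw [hxdef]; ring
  rw [hx', ← hxdef]
  rw [← hxdef] at hx
  have hx0 : 0 ≤ x := by rw [hxdef]; positivity
  obtain ⟨r, hr⟩ : ∃ r : ℕ, r = ⌈ε * x⌉₊ := ⟨_, rfl⟩
  have hr1 : ε * x ≤ r := by rw [hr]; exact Nat.le_ceil _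
  set XS : Finset (Finset V) := univ.filter (fun X => (#X : ℝ) < η * n) with hXS
  have himp : ∀ Γ ⊆ KV V, ¬ SmallX (η * n) (ε * x) Γ → ∃ X ∈ XS,
      ∃ R ∈ (X.sym2).powersetCard r, R ⊆ Γ := by
    intro Γ _ h
    unfold SmallX at h
    push Not at h
    obtain ⟨X, hX1, hX2⟩ := h
    have h3 : r ≤ #(Γ ∩ X.sym2) := by
      rw [hr]
      exact Nat.ceil_le.2 hX2.le
    obtain ⟨R, hR1, hR2⟩ := Finset.exists_subset_card_eq h3
    refine ⟨X, by rw [hXS, mem_filter]; exact ⟨mem_univ _, hX1⟩, R, ?_, ?_⟩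
    · rw [mem_powersetCard]
      exact ⟨hR1.trans inter_subset_right, hR2⟩
    · exact hR1.trans inter_subset_left
  refine (pr_mono hp0.le hp1 _ himp).trans ?_
  refine (pr_exists_le hp0.le hp1 _ XS (fun X Γ => ∃ R ∈ (X.sym2).powersetCard r, R ⊆ Γ)).trans ?_
  have hX : ∀ X ∈ XS, pr p (KV V) (fun Γ => ∃ R ∈ (X.sym2).powersetCard r, R ⊆ Γ) ≤
      Real.exp (-(1 / c + 1) * x) := by
    intro X hX
    rw [hXS, mem_filter] at hX
    refine (pr_exists_le hp0.le hp1 _ _ (fun R Γ => R ⊆ Γ)).trans ?_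
    calc ∑ R ∈ (X.sym2).powersetCard r, pr p (KV V) (fun Γ => R ⊆ Γ)
        ≤ ∑ R ∈ (X.sym2).powersetCard r, p ^ #R :=
          sum_le_sum (fun R _ => pr_subset_le hp0.le hp1 _ _)
      _ ≤ Real.exp (-(M * r) + Real.exp M * p * #(X.sym2)) := by
          apply sum_large_le (X.sym2) r hp0.le
          · intro R hR
            rw [mem_powersetCard] at hR
            exact mem_powerset.2 hR.1
          · intro R hR
            exact (mem_powersetCard.1 hR).2
      _ ≤ Real.exp (-(1 / c + 1) * x) := by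
          apply Real.exp_le_exp.2
          have h1 : (#(X.sym2) : ℝ) ≤ (η * n) ^ 2 := by
            have e1 : #(X.sym2) ≤ #X ^ 2 := by
              rw [card_sym2, sq]
              have := Nat.choose_le_pow_div 2 (#X + 1) (α := ℝ)
              have e2 : (#X + 1).choose 2 = (#X + 1) * #X / 2 := Nat.choose_two_right _
              rw [e2]
              rcases Nat.eq_zero_or_pos #X with h | h
              · rw [h]
                norm_num
              · apply Nat.div_le_of_le_mul
                nlinarith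
            have e2 : (#(X.sym2) : ℝ) ≤ (#X : ℝ) ^ 2 := by exact_mod_cast e1
            refine e2.trans ?_
            have := hX.2.le
            gcongr
          have h2 : Real.exp M * p * #(X.sym2) ≤ x := by
            calc Real.exp M * p * #(X.sym2) ≤ Real.exp M * p * (η * n) ^ 2 := by gcongr
              _ = (Real.exp M * η ^ 2) * x := by rw [hxdef]; ring
              _ ≤ 1 * x := by gcongr
              _ = x := one_mul x
          have h3 : (1 / c + 2) * x ≤ M * r := by
            calc (1 / c + 2) * x ≤ (M * ε) * x := by gcongr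
              _ = M * (ε * x) := by ring
              _ ≤ M * r := by gcongr
          linarith
  calc ∑ X ∈ XS, pr p (KV V) (fun Γ => ∃ R ∈ (X.sym2).powersetCard r, R ⊆ Γ)
      ≤ ∑ _X ∈ XS, Real.exp (-(1 / c + 1) * x) := sum_le_sum hX
    _ = #XS * Real.exp (-(1 / c + 1) * x) := by rw [sum_const, nsmul_eq_mul]
    _ ≤ Real.exp (1 / c * x) * Real.exp (-(1 / c + 1) * x) := by
        gcongr
        have e1 : (#XS : ℝ) ≤ 2 ^ Fintype.card V := by
          have : #XS ≤ 2 ^ Fintype.card V := by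
            refine (card_filter_le _ _).trans ?_
            rw [card_univ, Fintype.card_finset]
          exact_mod_cast this
        refine e1.trans ?_
        have e2 : (2 : ℝ) ^ Fintype.card V ≤ Real.exp n := by
          calc (2 : ℝ) ^ Fintype.card V ≤ (Real.exp 1) ^ Fintype.card V := by
                gcongr
                have := Real.add_one_le_exp (1 : ℝ)
                linarith
            _ = Real.exp n := by rw [← Real.exp_nat_mul, mul_one, hn]
        refine e2.trans ?_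
        apply Real.exp_le_exp.2
        rw [div_mul_eq_mul_div, one_mul, le_div_iff₀ hc]
        linarith
    _ = Real.exp (-x) := by
        rw [← Real.exp_add]
        congr 1
        ring

variable {k : ℕ} (H : Pattern W k)

/-- Main quantitative statement for patterns, arbitrary subgraphs. -/
theorem pattern_bound' {ε c C : ℝ} (hε : 0 < ε) (hc : 0 < c) (hc1 : c ≤ 1) :
    ∃ δ : ℝ, 0 < δ ∧ ∃ B : ℕ → ℝ, Tendsto B atTop (nhds 0) ∧ ∃ n0 : ℕ, ∀ n : ℕ, n0 ≤ n →
      ∀ p : ℝ, c * (n : ℝ) ^ (-1 / H.m) ≤ p → p ≤ C * (n : ℝ) ^ (-1 / H.m) → p ≤ 1 →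
      pr p (KV (Fin n)) (fun Γ => ¬ RemX H.E (δ * p ^ #H.E * (n : ℝ) ^ Fintype.card W)
        (ε * (p * (n : ℝ) ^ 2)) Γ) ≤ B n := by
  classical
  obtain ⟨δ, hδ, B, hB, n0, hn0⟩ := pattern_bound H (ε := ε) (C := C) hε hc hc1
  obtain ⟨M, hM⟩ : ∃ x, x = (1 / c + 2) / ε := ⟨_, rfl⟩
  have hM0 : 0 < M := by rw [hM]; positivity
  have hMε : 1 / c + 2 ≤ M * ε := by rw [hM]; field_simp; exact le_rfl
  obtain ⟨η, hη⟩ : ∃ x, x = Real.exp (-(M / 2)) := ⟨_, rfl⟩
  have hη0 : 0 < η := by rw [hη]; positivity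
  have hη2 : Real.exp M * η ^ 2 ≤ 1 := by
    rw [hη, ← Real.exp_nat_mul, ← Real.exp_add]
    apply le_of_eq
    rw [Real.exp_eq_one_iff]
    push_cast
    ring
  have hEne : H.E.Nonempty := by
    have h1 := H.F_pos ⟨0, H.hk⟩
    have h2 : (H.F ⟨0, H.hk⟩).Nonempty := Finset.card_pos.1 h1
    exact h2.mono (H.F_subset _)
  set s := Fintype.card {x // x ∉ vs H.E} with hs
  obtain ⟨n1, hn1⟩ := exists_nat_gt (2 * ((Fintype.card W : ℝ) + 1) / η)
  refine ⟨δ * (η / 2) ^ s, by positivity, fun n => B n + Real.exp (-(c * n)), ?_,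
    max 1 (max n0 n1), ?_⟩
  · have h3 : Tendsto (fun n : ℕ => Real.exp (-(c * n))) atTop (nhds 0) := by
      apply Real.tendsto_exp_neg_atTop_nhds_zero.comp
      exact Tendsto.const_mul_atTop hc tendsto_natCast_atTop_atTop
    simpa using hB.add h3
  · intro n hn p hpl hpu hp1
    have hn1' : 1 ≤ n := (le_max_left _ _).trans hn
    have hnn0 : n0 ≤ n := ((le_max_left _ _).trans (le_max_right _ _)).trans hn
    have hnn1 : n1 ≤ n := ((le_max_right _ _).trans (le_max_right _ _)).trans hn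
    have hnR : (1 : ℝ) ≤ n := by exact_mod_cast hn1'
    have hn0' : (0 : ℝ) < n := by linarith
    have hp0 : 0 < p := lt_of_lt_of_le (by positivity) hpl
    have hcard : (Fintype.card (Fin n) : ℝ) = n := by simp
    have hx : c * n ≤ (n : ℝ) ^ 2 * p := n2p_lower hnR hc H.hm hpl
    have hbig : η / 2 * n + Fintype.card W + 1 ≤ η * n := by
      rw [div_lt_iff₀ hη0] at hn1
      have h1 : (n1 : ℝ) ≤ n := by exact_mod_cast hnn1
      have h2 : (n1 : ℝ) * η ≤ n * η := by gcongr
      linarith only [hn1, h2]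
    have himp : ∀ Γ ⊆ KV (Fin n), ¬ RemX H.E (δ * (η / 2) ^ s * p ^ #H.E *
        (n : ℝ) ^ Fintype.card W) (ε * (p * (n : ℝ) ^ 2)) Γ →
        (¬ Rem H.E (δ * p ^ #H.E * (n : ℝ) ^ Fintype.card W) (ε * (p * (n : ℝ) ^ 2)) Γ) ∨
        ¬ SmallX (η * n) (ε * (p * (n : ℝ) ^ 2)) Γ := by
      intro Γ _ hnot
      by_contra hcon
      push Not at hcon
      apply hnot
      have := remX_of_rem H.E hEne hcard hn0' hη0 hbig Γ hcon.1 hcon.2
      rw [← hs] at this
      have e : δ * (η / 2) ^ s * p ^ #H.E * (n : ℝ) ^ Fintype.card W =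
        δ * p ^ #H.E * (n : ℝ) ^ Fintype.card W * (η / 2) ^ s := by ring
      rw [e]
      exact this
    refine (pr_mono hp0.le hp1 _ himp).trans ?_
    refine (pr_or_le hp0.le hp1 _ _ _).trans ?_
    apply add_le_add (hn0 n hnn0 p hpl hpu hp1)
    refine (smallX_prob hcard hnR hp0 hp1 hc hx hη0 hM0.le hMε hη2 hε).trans ?_
    apply Real.exp_le_exp.2
    linarith

end Vert

end Pool.Agent.MP_9c932e_co
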