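import Mathlib
import Pool.Agent.Lib.MP_9c932e_co.Build
import Pool.Agent.Lib.MP_9c932e_co.Vert

/-!
# From edge sets to graphs
-/

set_option linter.unusedSectionVars false

namespace Pool.Agent.MP_9c932e_co

open Finset Filter

section Graph

lemma card_KV (n : ℕ) : #(KV (Fin n)) = n.choose 2 := by
  have h := Sym2.card_subtype_not_diag (α := Fin n)
  rw [Fintype.card_subtype, Fintype.card_fin] at h
  exact h

/-- The graph with a given edge set. -/
def gr {V : Type} (S : Finset (Sym2 V)) : SimpleGraph V :=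
  SimpleGraph.fromEdgeSet (S : Set (Sym2 V))

lemma edgeSet_gr {V : Type} [Fintype V] [DecidableEq V] {S : Finset (Sym2 V)} (hS : S ⊆ KV V) :
    (gr S).edgeSet = (S : Set (Sym2 V)) := by
  unfold gr
  rw [SimpleGraph.edgeSet_fromEdgeSet]
  ext e
  simp only [Set.mem_sdiff, mem_coe, Sym2.mem_diagSet, and_iff_left_iff_imp]
  intro he
  have := hS he
  simp only [KV, mem_filter, mem_univ, true_and] at this
  exact this

lemma gnpProb_eq (n : ℕ) (p : ℝ) (Q : SimpleGraph (Fin n) → Prop) :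
    gnpProb n p Q = pr p (KV (Fin n)) (fun S => Q (gr S)) := by
  classical
  have h1 : gnpProb n p Q = ∑ Γ : SimpleGraph (Fin n), if Q Γ then
      p ^ Γ.edgeSet.ncard * (1 - p) ^ (n.choose 2 - Γ.edgeSet.ncard) else 0 := by
    unfold gnpProb
    rw [← sum_filter]
  rw [h1]
  unfold pr ex
  apply sum_nbij' (fun Γ => eS Γ) (fun S => gr S)
  · intro Γ _
    rw [mem_powerset]
    intro e he
    simp only [KV, mem_filter, mem_univ, true_and]
    exact eS_not_diag he
  · intro S _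
    exact mem_univ _
  · intro Γ _
    unfold gr
    have : ((eS Γ : Finset (Sym2 (Fin n))) : Set (Sym2 (Fin n))) = Γ.edgeSet := by
      ext e; simp
    rw [this, SimpleGraph.fromEdgeSet_edgeSet]
  · intro S hS
    ext e
    rw [mem_eS, edgeSet_gr (mem_powerset.1 hS), mem_coe]
  · intro Γ _
    have e1 : ((eS Γ : Finset (Sym2 (Fin n))) : Set (Sym2 (Fin n))) = Γ.edgeSet := by
      ext e; simp
    have e2 : gr (eS Γ) = Γ := by
      unfold gr
      rw [e1, SimpleGraph.fromEdgeSet_edgeSet]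
    have e3 : Γ.edgeSet.ncard = #(eS Γ) := by
      rw [← e1, Set.ncard_coe_finset]
    have e4 : Q (gr (eS Γ)) ↔ Q Γ := by rw [e2]
    by_cases hQ : Q Γ
    · simp [e4, hQ, e3, card_KV]
    · simp [e4, hQ]

variable {W : Type} [Fintype W] [DecidableEq W] {V : Type} [Fintype V] [DecidableEq V]

/-- An injective map preserving the edges, as a copy. -/
def toCopy {H : SimpleGraph W} {Γ : SimpleGraph V} (φ : W → V) (h1 : Function.Injective φ)
    (h2 : ∀ a b, H.Adj a b → Γ.Adj (φ a) (φ b)) : SimpleGraph.Copy H Γ :=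
  ⟨⟨φ, fun {a b} h => h2 a b h⟩, h1⟩

/-- Labelled and unlabelled copies. -/
lemma labelled_le (H : SimpleGraph W) {Γ : SimpleGraph V} (G : Γ.Subgraph) (X : Finset V)
    (Ge : Finset (Sym2 V)) (hX : (X : Set V) = G.verts) (hGe : (Ge : Set (Sym2 V)) = G.edgeSet) :
    #{φ : W → V | Function.Injective φ ∧ (∀ w, φ w ∈ X) ∧ im (eS H) φ ⊆ Ge} ≤
      Fintype.card W ^ Fintype.card W * (copies H G).ncard := by
  classical
  set s := univ.filter (fun φ : W → V => Function.Injective φ ∧ (∀ w, φ w ∈ X) ∧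
    im (eS H) φ ⊆ Ge) with hs
  have hadj : ∀ φ ∈ s, ∀ a b, H.Adj a b → G.Adj (φ a) (φ b) := by
    intro φ hφ a b hab
    rw [hs, mem_filter] at hφ
    have h1 : s(φ a, φ b) ∈ Ge := by
      apply hφ.2.2.2
      rw [mem_im]
      exact ⟨s(a, b), by rw [mem_eS]; exact hab, by simp⟩
    have h2 : s(φ a, φ b) ∈ G.edgeSet := by rw [← hGe]; exact h1
    exact h2
  let f : (W → V) → Γ.Subgraph := fun φ =>
    if h : Function.Injective φ ∧ ∀ a b, H.Adj a b → Γ.Adj (φ a) (φ b) then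
      (toCopy φ h.1 h.2).toSubgraph else ⊥
  have hf : ∀ φ ∈ s, ∃ (h1 : Function.Injective φ) (h2 : ∀ a b, H.Adj a b → Γ.Adj (φ a) (φ b)),
      f φ = (toCopy φ h1 h2).toSubgraph := by
    intro φ hφ
    have h1 : Function.Injective φ := (mem_filter.1 hφ).2.1
    have h2 : ∀ a b, H.Adj a b → Γ.Adj (φ a) (φ b) := fun a b hab =>
      G.adj_sub (hadj φ hφ a b hab)
    exact ⟨h1, h2, by simp only [f]; rw [dif_pos ⟨h1, h2⟩]⟩
  have hverts : ∀ φ ∈ s, (f φ).verts = Set.range φ := by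
    intro φ hφ
    obtain ⟨h1, h2, h3⟩ := hf φ hφ
    rw [h3]
    simp only [SimpleGraph.Copy.toSubgraph, SimpleGraph.Subgraph.map_verts,
      SimpleGraph.Subgraph.verts_top, Set.image_univ]
    rfl
  have hle : ∀ φ ∈ s, f φ ∈ copies H G := by
    intro φ hφ
    obtain ⟨h1, h2, h3⟩ := hf φ hφ
    refine ⟨⟨?_, ?_⟩, ?_⟩
    · rw [hverts φ hφ]
      rintro v ⟨w, rfl⟩
      rw [← hX]
      exact (mem_filter.1 hφ).2.2.1 w
    · intro u v huv
      rw [h3] at huv
      simp only [SimpleGraph.Copy.toSubgraph, SimpleGraph.Subgraph.map_adj] at huv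
      obtain ⟨a, b, hab, rfl, rfl⟩ := huv
      exact hadj φ hφ a b hab
    · rw [h3]
      exact ⟨(toCopy φ h1 h2).isoToSubgraph⟩
  have hfib : ∀ a ∈ s.image f, #{φ ∈ s | f φ = a} ≤ Fintype.card W ^ Fintype.card W := by
    intro a ha
    rw [mem_image] at ha
    obtain ⟨φ0, hφ0, rfl⟩ := ha
    have h1 : {φ ∈ s | f φ = f φ0} ⊆ Fintype.piFinset (fun _ : W => univ.image φ0) := by
      intro φ hφ
      rw [mem_filter] at hφ
      rw [Fintype.mem_piFinset]
      intro w
      have e1 : φ w ∈ (f φ).verts := by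
        rw [hverts φ hφ.1]; exact ⟨w, rfl⟩
      rw [hφ.2, hverts φ0 hφ0] at e1
      obtain ⟨w', hw'⟩ := e1
      exact mem_image.2 ⟨w', mem_univ _, hw'⟩
    refine (card_le_card h1).trans ?_
    rw [Fintype.card_piFinset, prod_const, card_univ]
    gcongr
    exact card_image_le.trans (by simp)
  refine (Finset.card_le_mul_card_image s _ hfib).trans ?_
  gcongr
  rw [← Set.ncard_coe_finset]
  apply Set.ncard_le_ncard _ (Set.toFinite _)
  intro a ha
  rw [mem_coe, mem_image] at ha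
  obtain ⟨φ, hφ, rfl⟩ := ha
  exact hle φ hφ

/-- no embedding, no copy -/
lemma copies_eq_empty (H : SimpleGraph W) {Γ : SimpleGraph V} (G : Γ.Subgraph)
    (Ge F : Finset (Sym2 V)) (hGe : (Ge : Set (Sym2 V)) = G.edgeSet)
    (hF : ∀ φ : W → V, Function.Injective φ → ¬ im (eS H) φ ⊆ Ge \ F) :
    copies H (G.deleteEdges (F : Set (Sym2 V))) = ∅ := by
  classical
  rw [Set.eq_empty_iff_forall_notMem]
  rintro H' ⟨hle, ⟨e⟩⟩
  apply hF (fun w => (e w : V))
  · intro a b hab
    exact e.injective (Subtype.ext hab)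
  · intro x hx
    rw [mem_im] at hx
    obtain ⟨y, hy, rfl⟩ := hx
    rw [mem_eS] at hy
    induction y using Sym2.ind with
    | _ a b =>
      have h1 : H'.coe.Adj (e a) (e b) := (e.map_adj_iff).2 hy
      have h2 : H'.Adj (e a) (e b) := h1
      have h3 := hle.2 h2
      rw [SimpleGraph.Subgraph.deleteEdges_adj] at h3
      rw [Finset.mem_sdiff]
      constructor
      · have : s((e a : V), (e b : V)) ∈ G.edgeSet := h3.1
        rw [← hGe] at this
        exact this
      · exact h3.2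

lemma removal_of_remX (H : SimpleGraph W) {Γ : Finset (Sym2 V)} (hΓ : Γ ⊆ KV V) {t s : ℝ}
    (h : RemX (eS H) ((Fintype.card W : ℝ) ^ Fintype.card W * t) s Γ) :
    Removal H t s (gr Γ) := by
  classical
  intro G _ ht
  obtain ⟨X, hX⟩ : ∃ X : Finset V, (X : Set V) = G.verts :=
    ⟨(Set.toFinite G.verts).toFinset, Set.Finite.coe_toFinset _⟩
  obtain ⟨Ge, hGe⟩ : ∃ Ge : Finset (Sym2 V), (Ge : Set (Sym2 V)) = G.edgeSet :=
    ⟨(Set.toFinite G.edgeSet).toFinset, Set.Finite.coe_toFinset _⟩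
  have h1 : Ge ⊆ Γ := by
    intro e he
    have h2 : e ∈ G.edgeSet := by rw [← hGe]; exact he
    have h3 := G.edgeSet_subset h2
    rw [edgeSet_gr hΓ] at h3
    exact h3
  have h2 : Ge ⊆ X.sym2 := by
    intro e he
    have h2 : e ∈ G.edgeSet := by rw [← hGe]; exact he
    rw [mem_sym2_iff]
    intro v hv
    have h3 : v ∈ G.verts := G.mem_verts_of_mem_edge h2 hv
    rw [← hX] at h3
    exact h3
  have h3 := labelled_le H G X Ge hX hGe
  obtain ⟨F, hFG, hFc, hF⟩ := h X Ge h1 h2 (by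
    have h3' : (#{φ : W → V | Function.Injective φ ∧ (∀ w, φ w ∈ X) ∧ im (eS H) φ ⊆ Ge} : ℝ) ≤
      (Fintype.card W : ℝ) ^ Fintype.card W * (copies H G).ncard := by exact_mod_cast h3
    refine h3'.trans ?_
    gcongr)
  refine ⟨F, ?_, ?_, copies_eq_empty H G Ge F hGe hF⟩
  · rw [← hGe]
    exact_mod_cast hFG
  · rw [Set.ncard_coe_finset]
    exact hFc

lemma removal_of_rem (H : SimpleGraph W) (hm : Degenerate H ∨ ∀ w, ∃ w', H.Adj w w')
    {Γ : Finset (Sym2 V)}
    (hΓ : Γ ⊆ KV V) {t s : ℝ}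
    (h : Rem (eS H) ((Fintype.card W : ℝ) ^ Fintype.card W * t) s Γ) :
    Removal H t s (gr Γ) := by
  classical
  intro G hG ht
  obtain ⟨X, hX⟩ : ∃ X : Finset V, (X : Set V) = G.verts :=
    ⟨(Set.toFinite G.verts).toFinset, Set.Finite.coe_toFinset _⟩
  obtain ⟨Ge, hGe⟩ : ∃ Ge : Finset (Sym2 V), (Ge : Set (Sym2 V)) = G.edgeSet :=
    ⟨(Set.toFinite G.edgeSet).toFinset, Set.Finite.coe_toFinset _⟩
  have h1 : Ge ⊆ Γ := by
    intro e he
    have h2 : e ∈ G.edgeSet := by rw [← hGe]; exact he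
    have h3 := G.edgeSet_subset h2
    rw [edgeSet_gr hΓ] at h3
    exact h3
  have h2 : Ge ⊆ X.sym2 := by
    intro e he
    have h2 : e ∈ G.edgeSet := by rw [← hGe]; exact he
    rw [mem_sym2_iff]
    intro v hv
    have h3 : v ∈ G.verts := G.mem_verts_of_mem_edge h2 hv
    rw [← hX] at h3
    exact h3
  have hin : ∀ φ : W → V, im (eS H) φ ⊆ Ge → ∀ w, φ w ∈ X := by
    intro φ hφ w
    by_cases hiso : ∀ w, ∃ w', H.Adj w w'
    · obtain ⟨w', hw'⟩ := hiso w
      have h3 : s(φ w, φ w') ∈ Ge := by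
        apply hφ
        rw [mem_im]
        exact ⟨s(w, w'), by rw [mem_eS]; exact hw', by simp⟩
      exact mem_sym2_iff.1 (h2 h3) _ (by simp)
    · have hdeg : Degenerate H := hm.resolve_right hiso
      have hspan : G.verts = Set.univ := hG.resolve_left (fun h => h hdeg)
      have : φ w ∈ (X : Set V) := by rw [hX, hspan]; exact Set.mem_univ _
      exact this
  have h3 := labelled_le H G X Ge hX hGe
  obtain ⟨F, hFG, hFc, hF⟩ := h Ge h1 (by
    have h3' : (#{φ : W → V | Function.Injective φ ∧ im (eS H) φ ⊆ Ge} : ℝ) ≤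
      (Fintype.card W : ℝ) ^ Fintype.card W * (copies H G).ncard := by
      have e1 : #{φ : W → V | Function.Injective φ ∧ im (eS H) φ ⊆ Ge} ≤
          #{φ : W → V | Function.Injective φ ∧ (∀ w, φ w ∈ X) ∧ im (eS H) φ ⊆ Ge} := by
        apply card_le_card
        intro φ hφ
        simp only [mem_filter, mem_univ, true_and] at hφ ⊢
        exact ⟨hφ.1, hin φ hφ.2, hφ.2⟩
      exact_mod_cast e1.trans h3
    refine h3'.trans ?_
    gcongr)
  refine ⟨F, ?_, ?_, copies_eq_empty H G Ge F hGe hF⟩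
  · rw [← hGe]
    exact_mod_cast hFG
  · rw [Set.ncard_coe_finset]
    exact hFc

end Graph

end Pool.Agent.MP_9c932e_co
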