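import Mathlib
import Pool.Agent.Lib.MP_9c932e_co.Graph

/-!
# Graphs without adjacent edges
-/

set_option linter.unusedSectionVars false

namespace Pool.Agent.MP_9c932e_co

open Finset Filter

section Match

variable {W : Type} [Fintype W] [DecidableEq W]

/-- No vertex has two neighbours. -/
def NoCherry (H : SimpleGraph W) : Prop := ∀ a b c, H.Adj a b → H.Adj a c → b = c

lemma two_edges_le (H : SimpleGraph W) (hH : NoCherry H) (H' : H.Subgraph) :
    2 * H'.edgeSet.ncard ≤ H'.verts.ncard := by
  classical
  obtain ⟨X, hX⟩ : ∃ X : Finset W, (X : Set W) = H'.verts :=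
    ⟨(Set.toFinite H'.verts).toFinset, Set.Finite.coe_toFinset _⟩
  obtain ⟨Ge, hGe⟩ : ∃ Ge : Finset (Sym2 W), (Ge : Set (Sym2 W)) = H'.edgeSet :=
    ⟨(Set.toFinite H'.edgeSet).toFinset, Set.Finite.coe_toFinset _⟩
  rw [← hX, ← hGe, Set.ncard_coe_finset, Set.ncard_coe_finset]
  have h := Finset.card_mul_le_card_mul (s := Ge) (t := X) (m := 2) (n := 1)
    (fun (e : Sym2 W) (v : W) => v ∈ e) (by
      intro e he
      have h2 : e ∈ H'.edgeSet := by rw [← hGe]; exact he
      induction e using Sym2.ind with
      | _ x y =>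
        have hxy : H'.Adj x y := h2
        have hne : x ≠ y := (H'.adj_sub hxy).ne
        rw [← card_pair hne]
        apply card_le_card
        intro z hz
        rw [mem_bipartiteAbove]
        rw [mem_insert, mem_singleton] at hz
        have hx : x ∈ X := by
          have : x ∈ (X : Set W) := by rw [hX]; exact hxy.fst_mem
          exact this
        have hy : y ∈ X := by
          have : y ∈ (X : Set W) := by rw [hX]; exact hxy.snd_mem
          exact this
        rcases hz with rfl | rfl
        · exact ⟨hx, by simp⟩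
        · exact ⟨hy, by simp⟩) (by
      intro v hv
      rw [card_le_one]
      intro e he e' he'
      rw [mem_bipartiteBelow] at he he'
      have h2 : e ∈ H'.edgeSet := by rw [← hGe]; exact he.1
      have h2' : e' ∈ H'.edgeSet := by rw [← hGe]; exact he'.1
      obtain ⟨w, rfl⟩ := Sym2.mem_iff_exists.1 he.2
      obtain ⟨w', rfl⟩ := Sym2.mem_iff_exists.1 he'.2
      have h3 : H.Adj v w := H'.adj_sub h2
      have h4 : H.Adj v w' := H'.adj_sub h2'
      rw [hH v w w' h3 h4])
  omega

/-- the density of a matching with at least two edges -/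
lemma density_matching (H : SimpleGraph W) (hH : NoCherry H) (h2 : 2 ≤ #(eS H)) :
    twoDensity H = 1 / 2 := by
  classical
  by_cases hW : Fintype.card W ≤ 2
  · unfold twoDensity
    rw [if_pos hW]
  obtain ⟨e1, he1, e2, he2, hne⟩ := Finset.one_lt_card.1 (by omega : 1 < #(eS H))
  apply le_antisymm
  · unfold twoDensity
    rw [if_neg hW]
    apply csSup_le
    · have h3 : 3 ≤ #(univ : Finset W) := by rw [card_univ]; omega
      exact ⟨_, induce_mem H univ h3⟩
    · rintro x ⟨H', h3, rfl⟩
      have h4 := two_edges_le H hH H'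
      have h5 : (2 : ℝ) * H'.edgeSet.ncard ≤ H'.verts.ncard := by exact_mod_cast h4
      have h6 : (3 : ℝ) ≤ H'.verts.ncard := by exact_mod_cast h3
      rw [div_le_iff₀ (by linarith)]
      linarith
  · -- lower bound
    induction e1 using Sym2.ind with
    | _ a b =>
    induction e2 using Sym2.ind with
    | _ c d =>
      have hab : H.Adj a b := mem_eS.1 he1
      have hcd : H.Adj c d := mem_eS.1 he2
      have hT2 : 2 ≤ #({a, b, c, d} : Finset W) := by
        rw [← card_pair hab.ne]
        apply card_le_card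
        intro z hz
        rw [mem_insert, mem_singleton] at hz
        rcases hz with rfl | rfl <;> simp
      have h1 := dens_le H (by omega) {a, b, c, d} hT2
      have h3 : ({s(a, b), s(c, d)} : Finset (Sym2 W)) ⊆ eS H ∩ ({a, b, c, d} : Finset W).sym2 := by
        intro e he
        rw [mem_insert, mem_singleton] at he
        rw [mem_inter]
        rcases he with rfl | rfl
        · exact ⟨he1, by rw [mk_mem_sym2_iff]; simp⟩
        · exact ⟨he2, by rw [mk_mem_sym2_iff]; simp⟩
      have h4 := card_le_card h3
      rw [card_pair hne] at h4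
      have h5 : (2 : ℝ) ≤ #(eS H ∩ ({a, b, c, d} : Finset W).sym2) := by exact_mod_cast h4
      have h6 : (#({a, b, c, d} : Finset W) : ℝ) ≤ 4 := by
        have : #({a, b, c, d} : Finset W) ≤ 4 := card_le_four
        exact_mod_cast this
      have h7 : (2 : ℝ) ≤ #({a, b, c, d} : Finset W) := by exact_mod_cast hT2
      have h8 : 1 ≤ twoDensity H * ((#({a, b, c, d} : Finset W) : ℝ) - 2) := by linarith
      have h9 : 0 < twoDensity H := by
        by_contra hcon
        rw [not_lt] at hcon
        nlinarith
      nlinarith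

variable {V : Type} [Fintype V] [DecidableEq V]

/-- extension of an injective map with two prescribed values -/
lemma exists_inj_two (h : Fintype.card W ≤ Fintype.card V) {a b : W} (hab : a ≠ b) {u v : V}
    (huv : u ≠ v) : ∃ φ : W → V, Function.Injective φ ∧ φ a = u ∧ φ b = v := by
  obtain ⟨f⟩ := Function.Embedding.nonempty_of_card_le h
  let φ : W → V := fun w => Equiv.swap (f a) u (f w)
  have hφ : Function.Injective φ := (Equiv.injective _).comp f.injective
  have hφa : φ a = u := by simp [φ]
  let φ' : W → V := fun w => Equiv.swap (φ b) v (φ w)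
  have hφ' : Function.Injective φ' := (Equiv.injective _).comp hφ
  refine ⟨φ', hφ', ?_, ?_⟩
  · simp only [φ']
    rw [hφa]
    apply Equiv.swap_apply_of_ne_of_ne
    · rw [← hφa]
      intro h
      exact hab (hφ h)
    · exact huv
  · simp [φ']

lemma rem_single (E : Finset (Sym2 W)) {e0 : Sym2 W} (hE : E = {e0}) (hd : ¬ e0.IsDiag)
    {n p ε : ℝ} (hn : (Fintype.card V : ℝ) = n) (hp : 0 ≤ p)
    (hbig : 2 * Fintype.card W + 1 ≤ Fintype.card V) (Γ : Finset (Sym2 V)) (hΓ : Γ ⊆ KV V) :
    Rem E (ε / 2 ^ Fintype.card {x // x ∉ vs E} * p ^ #E * n ^ Fintype.card W)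
      (ε * (p * n ^ 2)) Γ := by
  classical
  intro G hG hfew
  have hn0 : 0 < n := by
    rw [← hn]
    have : 0 < Fintype.card V := by omega
    exact_mod_cast this
  induction e0 using Sym2.ind with
  | _ a b =>
    rw [Sym2.mk_isDiag_iff] at hd
    have hvs : #(vs E) = 2 := by
      have : vs E = {a, b} := by
        ext x
        simp only [vs, hE, mem_filter, mem_univ, true_and, mem_singleton, exists_eq_left,
          Sym2.mem_iff, mem_insert]
      rw [this, card_pair hd]
    have hGP : #G ≤ #(Part E G) := by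
      have hex : ∀ g ∈ G, ∃ φ : W → V, Function.Injective φ ∧ Sym2.map φ s(a, b) = g := by
        intro g hg
        have hg' := hΓ (hG hg)
        simp only [KV, mem_filter, mem_univ, true_and] at hg'
        induction g using Sym2.ind with
        | _ u v =>
          rw [Sym2.mk_isDiag_iff] at hg'
          obtain ⟨φ, h1, h2, h3⟩ := exists_inj_two (W := W) (V := V) (by omega) hd hg'
          exact ⟨φ, h1, by rw [Sym2.map_mk, h2, h3]⟩
      have hVne : Nonempty V := Fintype.card_pos_iff.1 (by omega)
      choose! f hf1 hf2 using hex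
      apply card_le_card_of_injOn (fun g => res (vs E) (f g))
      · intro g hg
        rw [mem_coe, mem_Part]
        refine ⟨f g, hf1 g hg, ?_, rfl⟩
        intro e he
        rw [mem_im] at he
        obtain ⟨e', he', rfl⟩ := he
        rw [hE, mem_singleton] at he'
        rw [he', hf2 g hg]
        exact hg
      · intro g hg g' hg' heq
        dsimp only at heq
        rw [← hf2 g hg, ← hf2 g' hg']
        apply Sym2.map_congr
        intro x hx
        have hxv : x ∈ vs E := by
          simp only [vs, mem_filter, mem_univ, true_and]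
          exact ⟨s(a, b), by rw [hE, mem_singleton], hx⟩
        exact congrFun heq ⟨x, hxv⟩
    set s' := Fintype.card {x // x ∉ vs E} with hs'
    have hcard := card_compl_vs E
    rw [hvs, ← hs'] at hcard
    have h1 := count_ge E (univ : Finset V) G (by intro e _; simp)
      (Fintype.card V - Fintype.card W) (by rw [card_univ]; omega)
    rw [← hs'] at h1
    have h2 : #{φ : W → V | Function.Injective φ ∧ (∀ w, φ w ∈ (univ : Finset V)) ∧ im E φ ⊆ G} ≤
        #{φ : W → V | Function.Injective φ ∧ im E φ ⊆ G} := by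
      apply card_le_card
      intro φ hφ
      simp only [mem_filter, mem_univ, true_and, implies_true] at hφ ⊢
      exact hφ
    have h3 : (#G : ℝ) * (n / 2) ^ s' ≤ ε / 2 ^ s' * p ^ #E * n ^ Fintype.card W := by
      have e1 : (#(Part E G) : ℝ) * ((Fintype.card V - Fintype.card W : ℕ) : ℝ) ^ s' ≤
          #{φ : W → V | Function.Injective φ ∧ im E φ ⊆ G} := by exact_mod_cast h1.trans h2
      refine le_trans ?_ (e1.trans hfew)
      have e2 : n / 2 ≤ ((Fintype.card V - Fintype.card W : ℕ) : ℝ) := by
        rw [Nat.cast_sub (by omega), hn]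
        have : ((2 * Fintype.card W + 1 : ℕ) : ℝ) ≤ (Fintype.card V : ℝ) := by exact_mod_cast hbig
        rw [hn] at this
        push_cast at this
        linarith
      gcongr
    have h4 : (#G : ℝ) ≤ ε * (p * n ^ 2) := by
      have e1 : ε / 2 ^ s' * p ^ #E * n ^ Fintype.card W = (ε * (p * n ^ 2)) * (n / 2) ^ s' := by
        rw [hE, card_singleton, pow_one, ← hcard, pow_add, div_pow]
        ring
      rw [e1] at h3
      exact le_of_mul_le_mul_right h3 (by positivity)
    refine ⟨G, subset_rfl, h4, ?_⟩
    intro φ _ hcon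
    have h5 : Sym2.map φ s(a, b) ∈ G \ G := hcon (mem_im.2 ⟨s(a, b), by rw [hE]; simp, rfl⟩)
    simp at h5

lemma card_vs_le (E : Finset (Sym2 W)) : #(vs E) ≤ 2 * #E := by
  classical
  have h1 : vs E ⊆ E.biUnion (fun e => univ.filter (fun x => x ∈ e)) := by
    intro x hx
    simp only [vs, mem_filter, mem_univ, true_and] at hx
    obtain ⟨e, he, hxe⟩ := hx
    exact mem_biUnion.2 ⟨e, he, by simpa using hxe⟩
  refine (card_le_card h1).trans (card_biUnion_le.trans ?_)
  calc ∑ e ∈ E, #(univ.filter (fun x => x ∈ e)) ≤ ∑ _e ∈ E, 2 := by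
        apply sum_le_sum
        intro e _
        induction e using Sym2.ind with
        | _ a b =>
          have : univ.filter (fun x => x ∈ s(a, b)) ⊆ {a, b} := by
            intro x hx
            simp only [mem_filter, mem_univ, true_and, Sym2.mem_iff] at hx
            simp only [mem_insert, mem_singleton]
            exact hx
          exact (card_le_card this).trans card_le_two
    _ = 2 * #E := by rw [sum_const, smul_eq_mul, mul_comm]

lemma rem_matching (E : Finset (Sym2 W)) {n p C ε δ : ℝ}
    (hn : (Fintype.card V : ℝ) = n) (hp : 0 ≤ p) (hpC : p ≤ C * n ^ (-2 : ℝ)) (hC : 1 ≤ C)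
    (hδ0 : 0 < δ) (hδ : δ * C ^ #E * 2 ^ Fintype.card {x // x ∉ vs E} < 1) (hε : 0 ≤ ε)
    (hbig : 2 * Fintype.card W + 1 ≤ Fintype.card V) (Γ : Finset (Sym2 V)) :
    Rem E (δ * p ^ #E * n ^ Fintype.card W) (ε * (p * n ^ 2)) Γ := by
  classical
  intro G hG hfew
  have hn1 : 1 ≤ n := by
    rw [← hn]
    have : 1 ≤ Fintype.card V := by omega
    exact_mod_cast this
  have hn0 : 0 < n := by linarith
  by_cases hφ : ∃ φ : W → V, Function.Injective φ ∧ im E φ ⊆ G
  · exfalso
    obtain ⟨φ0, h1, h2⟩ := hφ
    have hP : 1 ≤ #(Part E G) := by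
      apply Finset.card_pos.2
      exact ⟨res (vs E) φ0, mem_Part.2 ⟨φ0, h1, h2, rfl⟩⟩
    set s' := Fintype.card {x // x ∉ vs E} with hs'
    have hcard := card_compl_vs E
    rw [← hs'] at hcard
    have h3 := count_ge E (univ : Finset V) G (by intro e _; simp)
      (Fintype.card V - Fintype.card W) (by rw [card_univ]; omega)
    rw [← hs'] at h3
    have h4 : #{φ : W → V | Function.Injective φ ∧ (∀ w, φ w ∈ (univ : Finset V)) ∧ im E φ ⊆ G} ≤
        #{φ : W → V | Function.Injective φ ∧ im E φ ⊆ G} := by
      apply card_le_card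
      intro φ hφ
      simp only [mem_filter, mem_univ, true_and, implies_true] at hφ ⊢
      exact hφ
    have h5 : (n / 2) ^ s' ≤ δ * p ^ #E * n ^ Fintype.card W := by
      have e1 : (#(Part E G) : ℝ) * ((Fintype.card V - Fintype.card W : ℕ) : ℝ) ^ s' ≤
          #{φ : W → V | Function.Injective φ ∧ im E φ ⊆ G} := by exact_mod_cast h3.trans h4
      refine le_trans ?_ (e1.trans hfew)
      have e2 : n / 2 ≤ ((Fintype.card V - Fintype.card W : ℕ) : ℝ) := by
        rw [Nat.cast_sub (by omega), hn]
        have : ((2 * Fintype.card W + 1 : ℕ) : ℝ) ≤ (Fintype.card V : ℝ) := by exact_mod_cast hbig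
        rw [hn] at this
        push_cast at this
        linarith
      have e3 : (1 : ℝ) ≤ #(Part E G) := by exact_mod_cast hP
      calc (n / 2) ^ s' ≤ ((Fintype.card V - Fintype.card W : ℕ) : ℝ) ^ s' := by gcongr
        _ ≤ _ := le_mul_of_one_le_left (by positivity) e3
    have h6 : p ^ #E * n ^ #(vs E) ≤ C ^ #E := by
      calc p ^ #E * n ^ #(vs E) ≤ (C * n ^ (-2 : ℝ)) ^ #E * n ^ (2 * #E) := by
            gcongr
            exact card_vs_le E
        _ = C ^ #E * ((n ^ (-2 : ℝ)) * n ^ 2) ^ #E := by
            rw [mul_pow, mul_pow, pow_mul]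
            ring
        _ = C ^ #E := by
            have : n ^ (-2 : ℝ) * n ^ 2 = 1 := by
              rw [← Real.rpow_natCast n 2, ← Real.rpow_add hn0]
              norm_num
            rw [this, one_pow, mul_one]
    have h7 : (n / 2) ^ s' ≤ δ * C ^ #E * n ^ s' := by
      refine h5.trans ?_
      rw [← hcard, pow_add]
      calc δ * p ^ #E * (n ^ s' * n ^ #(vs E)) = δ * (p ^ #E * n ^ #(vs E)) * n ^ s' := by ring
        _ ≤ δ * C ^ #E * n ^ s' := by gcongr
    rw [div_pow, div_le_iff₀ (by positivity)] at h7
    have h8 : 1 * n ^ s' ≤ (δ * C ^ #E * 2 ^ s') * n ^ s' := by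
      calc 1 * n ^ s' = n ^ s' := one_mul _
        _ ≤ _ := h7
        _ = _ := by ring
    have h9 := le_of_mul_le_mul_right h8 (by positivity)
    linarith
  · refine ⟨∅, empty_subset _, ?_, ?_⟩
    · rw [card_empty]
      push_cast
      positivity
    · intro φ h1 h2
      rw [Finset.sdiff_empty] at h2
      exact hφ ⟨φ, h1, h2⟩

end Match

end Pool.Agent.MP_9c932e_co
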