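import Mathlib
import Pool.Agent.Lib.MP_9c932e_co.Match

/-!
# The sparse random removal lemma near the 2-density threshold
-/

set_option linter.unusedSectionVars false

namespace Pool.Agent.MP_9c932e_co

open Finset Filter

lemma gnpProb_le_one (n : ℕ) {p : ℝ} (h0 : 0 ≤ p) (h1 : p ≤ 1) (Q : SimpleGraph (Fin n) → Prop) :
    gnpProb n p Q ≤ 1 := by
  rw [gnpProb_eq, pr_not]
  have := pr_nonneg h0 h1 (KV (Fin n)) (fun S => ¬ Q (gr S))
  linarith

/-- From a bound on the failure probability for edge sets to the limit. -/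
lemma tendsto_of_bound {W : Type} [Fintype W] (H : SimpleGraph W) (t s : ℕ → ℝ) (p : ℕ → ℝ)
    (hp : ∀ n, 0 ≤ p n ∧ p n ≤ 1) (B : ℕ → ℝ) (hB : Tendsto B atTop (nhds 0))
    (h : ∀ᶠ n : ℕ in atTop, 1 - B n ≤ gnpProb n (p n) (Removal H (t n) (s n))) :
    Tendsto (fun n => gnpProb n (p n) (Removal H (t n) (s n))) atTop (nhds 1) := by
  have h1 : Tendsto (fun n => 1 - B n) atTop (nhds 1) := by
    simpa using tendsto_const_nhds.sub hB
  exact tendsto_of_tendsto_of_tendsto_of_le_of_le' h1 tendsto_const_nhds h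
    (Eventually.of_forall fun n => gnpProb_le_one n (hp n).1 (hp n).2 _)

lemma ncard_edgeSet {W : Type} [Fintype W] (H : SimpleGraph W) : H.edgeSet.ncard = #(eS H) := by
  have : H.edgeSet = ((eS H : Finset (Sym2 W)) : Set (Sym2 W)) := by
    ext e; simp
  rw [this, Set.ncard_coe_finset]

/-- **Sparse random removal lemma near the 2-density threshold.** -/
theorem sparse_removal {W : Type} [Fintype W] (H : SimpleGraph W) (hH : H ≠ ⊥)
    {ε c C : ℝ} (hε : 0 < ε) (hc : 0 < c) :
    ∃ δ : ℝ, 0 < δ ∧ ∀ p : ℕ → ℝ, (∀ n, 0 ≤ p n ∧ p n ≤ 1) →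
      (∀ᶠ n : ℕ in atTop, c * (n : ℝ) ^ (-1 / twoDensity H) ≤ p n ∧
        p n ≤ C * (n : ℝ) ^ (-1 / twoDensity H)) →
      Tendsto (fun n : ℕ => gnpProb n (p n)
        (Removal H (δ * p n ^ H.edgeSet.ncard * (n : ℝ) ^ Fintype.card W)
          (ε * (p n * (n : ℝ) ^ 2)))) atTop (nhds 1) := by
  classical
  have hEne : (eS H).Nonempty := by
    by_contra hcon
    rw [not_nonempty_iff_eq_empty] at hcon
    apply hH
    ext a b
    simp only [SimpleGraph.bot_adj, iff_false]
    intro hab
    have : s(a, b) ∈ eS H := mem_eS.2 hab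
    rw [hcon] at this
    simp at this
  have hhh : 0 < (Fintype.card W : ℝ) ^ Fintype.card W := by
    obtain ⟨e, _⟩ := hEne
    have : Nonempty W := by
      induction e using Sym2.ind with
      | _ a b => exact ⟨a⟩
    have : 0 < Fintype.card W := Fintype.card_pos
    positivity
  by_cases hch : ∃ a b c, b ≠ c ∧ H.Adj a b ∧ H.Adj a c
  · -- the main case
    obtain ⟨-, k, P, hPE, hPm⟩ := exists_pattern H hch
    obtain ⟨δ, hδ, B, hB, n0, hn0⟩ := pattern_bound' P (ε := ε) (c := min c 1) (C := C) hε
      (lt_min hc one_pos) (min_le_right _ _)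
    refine ⟨δ / (Fintype.card W : ℝ) ^ Fintype.card W, by positivity, ?_⟩
    intro p hp hpp
    apply tendsto_of_bound H _ _ p hp B hB
    filter_upwards [hpp, eventually_ge_atTop n0] with n hn hnn0
    rw [← hPm] at hn
    have h1 := hn0 n hnn0 (p n) (by
      refine le_trans ?_ hn.1
      gcongr
      exact min_le_left _ _) hn.2 (hp n).2
    rw [gnpProb_eq]
    have h2 : 1 - B n ≤ pr (p n) (KV (Fin n)) (fun Γ => RemX P.E
        (δ * p n ^ #P.E * (n : ℝ) ^ Fintype.card W) (ε * (p n * (n : ℝ) ^ 2)) Γ) := by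
      rw [pr_not]
      linarith
    refine h2.trans ?_
    apply pr_mono (hp n).1 (hp n).2
    intro S hS hrem
    apply removal_of_remX H hS
    rw [ncard_edgeSet, ← hPE]
    have : (Fintype.card W : ℝ) ^ Fintype.card W * (δ / (Fintype.card W : ℝ) ^ Fintype.card W *
        p n ^ #P.E * (n : ℝ) ^ Fintype.card W) = δ * p n ^ #P.E * (n : ℝ) ^ Fintype.card W := by
      field_simp
    rw [this]
    exact hrem
  · -- no two adjacent edges
    have hno : NoCherry H := by
      intro a b c h1 h2
      by_contra hbc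
      exact hch ⟨a, b, c, hbc, h1, h2⟩
    have hm : Degenerate H ∨ ∀ w, ∃ w', H.Adj w w' := by
      by_cases hiso : ∀ w, ∃ w', H.Adj w w'
      · exact Or.inr hiso
      · left
        refine ⟨hno, ?_⟩
        by_contra hcon
        apply hiso
        intro w
        by_contra hw
        exact hcon ⟨w, fun w' h => hw ⟨w', h⟩⟩
    have hbound : ∀ δ : ℝ, 0 < δ → ∀ p : ℕ → ℝ, (∀ n, 0 ≤ p n ∧ p n ≤ 1) →
        (∀ᶠ n : ℕ in atTop, ∀ Γ ⊆ KV (Fin n), Rem (eS H)
          (δ * p n ^ #(eS H) * (n : ℝ) ^ Fintype.card W) (ε * (p n * (n : ℝ) ^ 2)) Γ) →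
        Tendsto (fun n : ℕ => gnpProb n (p n)
        (Removal H (δ / (Fintype.card W : ℝ) ^ Fintype.card W * p n ^ H.edgeSet.ncard *
          (n : ℝ) ^ Fintype.card W)
          (ε * (p n * (n : ℝ) ^ 2)))) atTop (nhds 1) := by
      intro δ hδ p hp hev
      apply tendsto_of_bound H _ _ p hp (fun _ => 0) tendsto_const_nhds
      filter_upwards [hev] with n hn
      rw [gnpProb_eq]
      have h2 : (1 : ℝ) - 0 ≤ pr (p n) (KV (Fin n)) (fun _ => True) := by
        unfold pr
        simp only [if_true]
        rw [ex_const]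
        norm_num
      refine h2.trans ?_
      apply pr_mono (hp n).1 (hp n).2
      intro S hS _
      apply removal_of_rem H hm hS
      rw [ncard_edgeSet]
      have : (Fintype.card W : ℝ) ^ Fintype.card W * (δ / (Fintype.card W : ℝ) ^ Fintype.card W *
          p n ^ #(eS H) * (n : ℝ) ^ Fintype.card W) =
          δ * p n ^ #(eS H) * (n : ℝ) ^ Fintype.card W := by
        field_simp
      rw [this]
      exact hn S hS
    by_cases hcase : twoDensity H = 1 / 2
    · set C' := max 1 C with hC'
      have hC'1 : 1 ≤ C' := le_max_left _ _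
      set K := C' ^ #(eS H) * 2 ^ Fintype.card {x // x ∉ vs (eS H)} with hK
      have hK0 : 0 < K := by positivity
      refine ⟨1 / (2 * K) / (Fintype.card W : ℝ) ^ Fintype.card W, by positivity, ?_⟩
      intro p hp hpp
      apply hbound (1 / (2 * K)) (by positivity) p hp
      filter_upwards [hpp, eventually_ge_atTop (2 * Fintype.card W + 1)] with n hn hn2
      intro Γ _
      apply rem_matching (eS H) (n := n) (C := C') (by simp) (hp n).1 _ hC'1 (by positivity) _
        hε.le (by simpa using hn2)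
      · refine hn.2.trans ?_
        rw [hcase]
        have : (-1 / (1 / 2) : ℝ) = -2 := by norm_num
        rw [this]
        gcongr
        exact le_max_right _ _
      · have : 1 / (2 * K) * C' ^ #(eS H) * 2 ^ Fintype.card {x // x ∉ vs (eS H)} =
          1 / 2 * (K / K) := by
          rw [hK]
          field_simp
        rw [this, div_self hK0.ne']
        norm_num
    · -- a single edge, at least three vertices
      have h1 : #(eS H) = 1 := by
        have h2 : ¬ 2 ≤ #(eS H) := fun h => hcase (density_matching H hno h)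
        have h3 : 0 < #(eS H) := Finset.card_pos.2 hEne
        omega
      obtain ⟨e0, he0⟩ := Finset.card_eq_one.1 h1
      have hd : ¬ e0.IsDiag := eS_not_diag (G := H) (by rw [he0]; simp)
      refine ⟨ε / 2 ^ Fintype.card {x // x ∉ vs (eS H)} /
        (Fintype.card W : ℝ) ^ Fintype.card W, by positivity, ?_⟩
      intro p hp _
      apply hbound _ (by positivity) p hp
      filter_upwards [eventually_ge_atTop (2 * Fintype.card W + 1)] with n hn2
      intro Γ hΓ
      exact rem_single (eS H) he0 hd (by simp) (hp n).1 (by simpa using hn2) Γ hΓ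

end Pool.Agent.MP_9c932e_co
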